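import Pool.Agent.TWB.Stmts
import Pool.Agent.Helper44.Hata.Main

/-!
# MEAS: the irrationality exponent of `π` is less than `9` (after Hata)
-/

set_option autoImplicit false

namespace Pool.Agent.TWB

namespace MEAS_

open Pool.Agent.Helper44.Hata

lemma one_le_Del {q : ℕ} {P : ℤ} {n : ℕ} (hne : Del q P n ≠ 0) : 1 ≤ ‖Del q P n‖ := by
  have hdvd : 2 ^ 0 ∣ q := by rw [pow_zero]; exact one_dvd q
  have hlow := lower_bound hdvd hne
  change (2 : ℝ) ^ (min n (2 * 0 + 2)) ≤ ‖Del q P n‖ ^ 2 at hlow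
  have h1 : (1 : ℝ) ≤ (2 : ℝ) ^ (min n (2 * 0 + 2)) := one_le_pow₀ (by norm_num)
  have h2 : (1 : ℝ) ≤ ‖Del q P n‖ ^ 2 := h1.trans hlow
  by_contra h3
  push Not at h3
  have h4 : ‖Del q P n‖ ^ 2 < 1 := by
    have h5 := norm_nonneg (Del q P n)
    nlinarith
  linarith

/-- the lower bound for `|q π - P|` -/
theorem low (N0 : ℕ) (hN0 : ∀ n, N0 ≤ n → (Dn n : ℝ) ≤ Real.exp (2.3552 * n)) (q : ℕ) (P : ℤ)
    (hq : 0 < q) : 1 / 2 * Real.exp (-7.0212 * (Real.log q + 11 + 1.0698 * N0)) ≤
      |q * Real.pi - P| := by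
  have hqr : (0 : ℝ) < q := by exact_mod_cast hq
  set X := Real.log q with hXdef
  have hqX : (q : ℝ) = Real.exp X := (Real.exp_log hqr).symm
  have hX0 : 0 ≤ X := Real.log_nonneg (by exact_mod_cast hq)
  set n0 := max ⌈(X + 2.8) / 1.0698⌉₊ N0 with hn0
  have hn0_ge : X + 2.8 ≤ 1.0698 * n0 := by
    have h1 := Nat.le_ceil ((X + 2.8) / 1.0698)
    have h2 : ((⌈(X + 2.8) / 1.0698⌉₊ : ℕ) : ℝ) ≤ n0 := by exact_mod_cast le_max_left _ _
    rw [div_le_iff₀ (by norm_num)] at h1
    linarith
  have hn0_lt : 1.0698 * (n0 : ℝ) ≤ X + 11 + 1.0698 * N0 := by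
    have h1 := Nat.ceil_lt_add_one (a := (X + 2.8) / 1.0698) (by positivity)
    have h2 : 1.0698 * ((⌈(X + 2.8) / 1.0698⌉₊ : ℕ) : ℝ) ≤ X + 11 := by
      have h3 : 1.0698 * ((⌈(X + 2.8) / 1.0698⌉₊ : ℕ) : ℝ) < 1.0698 * ((X + 2.8) / 1.0698 + 1) :=
        mul_lt_mul_of_pos_left h1 (by norm_num)
      have h4 : 1.0698 * ((X + 2.8) / 1.0698 + 1) = X + 2.8 + 1.0698 := by
        field_simp
      linarith
    have h5 : (0 : ℝ) ≤ N0 := Nat.cast_nonneg N0
    rcases max_choice ⌈(X + 2.8) / 1.0698⌉₊ N0 with h6 | h6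
    · rw [hn0, h6]
      linarith
    · rw [hn0, h6]
      linarith
  have hN0n0 : N0 ≤ n0 := le_max_right _ _
  have hex := exists_Del_ne hq P n0
  classical
  set n := Nat.find hex with hn
  obtain ⟨hnn0, hne⟩ := Nat.find_spec hex
  rw [← hn] at hnn0 hne
  have hmin : ∀ m, m < n → n0 ≤ m → Del q P m = 0 := by
    intro m hm hm0
    have := Nat.find_min hex hm
    push Not at this
    exact this hm0
  have hnn0r : (n0 : ℝ) ≤ n := by exact_mod_cast hnn0
  have hDn := hN0 n (hN0n0.trans hnn0)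
  set d := |q * Real.pi - P| with hd
  have hd0 : 0 ≤ d := abs_nonneg _
  have hlow := one_le_Del hne
  have hup := Del_norm_le q P n
  rw [← hd] at hup
  have claim1 : 1.0698 * (n : ℝ) ≤ X + 11 + 1.0698 * N0 := by
    rcases Nat.eq_or_lt_of_le hnn0 with h | h
    · rw [← h]
      exact hn0_lt
    · obtain ⟨m, hm⟩ : ∃ m, n = m + 1 := ⟨n - 1, by omega⟩
      have hm0 : Del q P m = 0 := hmin m (by omega) (by omega)
      have hz := Del_zero hm0
      rw [← hd] at hz
      have hA : ‖A n‖ * d ≤ Real.exp 5.156 * (2 * q * ‖Lam m‖) := by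
        rw [← hz, ← mul_assoc, hm]
        exact mul_le_mul_of_nonneg_right (norm_A_succ m) hd0
      have hL1 := norm_Lam_le' n
      have hL2 := norm_Lam_le' m
      have hup2 : ‖Del q P n‖ ≤ Real.exp (X + 11 - 1.0698 * n) := by
        calc ‖Del q P n‖ ≤ Dn n * (2 * q * ‖Lam n‖ + ‖A n‖ * d) := hup
          _ ≤ Real.exp (2.3552 * n) * (2 * q * (4 * Real.exp (-3.425 * n))
              + Real.exp 5.156 * (2 * q * (4 * Real.exp (-3.425 * m)))) := by
            have : ‖A n‖ * d ≤ Real.exp 5.156 * (2 * q * (4 * Real.exp (-3.425 * m))) := by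
              refine hA.trans ?_
              gcongr
            gcongr
          _ = (8 * (1 + Real.exp 8.581)) * Real.exp (X - 1.0698 * n) := by
            rw [hqX]
            have e1 : Real.exp (-3.425 * m) = Real.exp 3.425 * Real.exp (-3.425 * n) := by
              rw [← Real.exp_add, hm]
              congr 1
              push_cast
              ring
            have e2 : Real.exp 8.581 = Real.exp 5.156 * Real.exp 3.425 := by
              rw [← Real.exp_add]
              norm_num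
            have e3 : Real.exp (X - 1.0698 * n)
                = Real.exp (2.3552 * n) * Real.exp X * Real.exp (-3.425 * n) := by
              rw [← Real.exp_add, ← Real.exp_add]
              congr 1
              ring
            rw [e1, e2, e3]
            ring
          _ ≤ Real.exp 11 * Real.exp (X - 1.0698 * n) :=
            mul_le_mul_of_nonneg_right exp_const1 (Real.exp_pos _).le
          _ = Real.exp (X + 11 - 1.0698 * n) := by
            rw [← Real.exp_add]
            congr 1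
            ring
      have h3 : Real.exp 0 ≤ Real.exp (X + 11 - 1.0698 * n) := by
        rw [Real.exp_zero]
        exact hlow.trans hup2
      have h4 := Real.exp_le_exp.mp h3
      have h5 : (0 : ℝ) ≤ N0 := Nat.cast_nonneg N0
      linarith
  have claim2 : (Dn n : ℝ) * (2 * q * ‖Lam n‖) ≤ 1 / 2 := by
    have hL1 := norm_Lam_le' n
    calc (Dn n : ℝ) * (2 * q * ‖Lam n‖)
        ≤ Real.exp (2.3552 * n) * (2 * q * (4 * Real.exp (-3.425 * n))) := by gcongr
      _ = 1 / 2 * (16 * Real.exp (X - 1.0698 * n)) := by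
        rw [hqX]
        have e3 : Real.exp (X - 1.0698 * n)
            = Real.exp (2.3552 * n) * Real.exp X * Real.exp (-3.425 * n) := by
          rw [← Real.exp_add, ← Real.exp_add]
          congr 1
          ring
        rw [e3]
        ring
      _ ≤ 1 / 2 * (Real.exp 2.8 * Real.exp (X - 1.0698 * n)) := by
        gcongr
        exact exp_const2
      _ = 1 / 2 * Real.exp (X + 2.8 - 1.0698 * n) := by
        rw [← Real.exp_add]
        congr 2
        ring
      _ ≤ 1 / 2 * Real.exp 0 := by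
        gcongr
        linarith
      _ = 1 / 2 := by rw [Real.exp_zero, mul_one]
  have claim4 : 1 / 2 ≤ Real.exp (7.5112 * n) * d := by
    have h1 : (Dn n : ℝ) * (‖A n‖ * d) ≤ Real.exp (7.5112 * n) * d := by
      have h2 := norm_A_le n
      calc (Dn n : ℝ) * (‖A n‖ * d)
          ≤ Real.exp (2.3552 * n) * (Real.exp (5.156 * n) * d) := by gcongr
        _ = Real.exp (7.5112 * n) * d := by
          rw [← mul_assoc, ← Real.exp_add]
          congr 2
          ring
    have h3 : ‖Del q P n‖ ≤ Dn n * (2 * q * ‖Lam n‖) + Dn n * (‖A n‖ * d) := by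
      rw [← mul_add]
      exact hup
    linarith
  have h1 : 1 / 2 * Real.exp (-(7.5112) * n) ≤ d := by
    have h2 := mul_le_mul_of_nonneg_left claim4 (Real.exp_pos (-(7.5112) * n)).le
    calc 1 / 2 * Real.exp (-(7.5112) * n)
        = Real.exp (-(7.5112) * n) * (1 / 2) := mul_comm _ _
      _ ≤ Real.exp (-(7.5112) * n) * (Real.exp (7.5112 * n) * d) := h2
      _ = d := by
          rw [← mul_assoc, ← Real.exp_add]
          have : -(7.5112) * (n : ℝ) + 7.5112 * n = 0 := by ring
          rw [this, Real.exp_zero, one_mul]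
  refine le_trans ?_ h1
  apply mul_le_mul_of_nonneg_left _ (by norm_num)
  apply Real.exp_le_exp.mpr
  have h5 : (0 : ℝ) ≤ n := Nat.cast_nonneg n
  linarith

end MEAS_

open MEAS_ Pool.Agent.Helper44.Hata in
theorem meas_proof : Stmt_MEAS := by
  obtain ⟨N0, hN0⟩ := Dn_le_exp
  refine ⟨1 / 2 * Real.exp (-7.0212 * (11 + 1.0698 * N0)), by positivity, ?_⟩
  intro q P hq
  have hqr : (0 : ℝ) < q := by exact_mod_cast hq
  have hlow := low N0 (fun n hn => hN0 n hn) q P hq
  have hX0 : 0 ≤ Real.log q := Real.log_nonneg (by exact_mod_cast hq)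
  have hqX : (q : ℝ) = Real.exp (Real.log q) := (Real.exp_log hqr).symm
  have h1 : |q * Real.pi - P| = q * |Real.pi - P / q| := by
    rw [← abs_of_pos hqr, ← abs_mul, abs_of_pos hqr]
    congr 1
    field_simp
  have h2 : |Real.pi - P / q| * (q : ℝ) ^ 9 = |q * Real.pi - P| * (q : ℝ) ^ 8 := by
    rw [h1]
    ring
  rw [h2]
  have h3 : (q : ℝ) ^ 8 = Real.exp (8 * Real.log q) := by
    rw [show (8 : ℝ) * Real.log q = ((8 : ℕ) : ℝ) * Real.log q by norm_num, Real.exp_nat_mul,
      Real.exp_log hqr]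
  rw [h3]
  calc 1 / 2 * Real.exp (-7.0212 * (11 + 1.0698 * N0))
      ≤ 1 / 2 * (Real.exp (-7.0212 * (Real.log q + 11 + 1.0698 * N0)) *
          Real.exp (8 * Real.log q)) := by
        rw [← Real.exp_add]
        apply mul_le_mul_of_nonneg_left _ (by norm_num)
        apply Real.exp_le_exp.mpr
        linarith
    _ = 1 / 2 * Real.exp (-7.0212 * (Real.log q + 11 + 1.0698 * N0)) *
          Real.exp (8 * Real.log q) := by ring
    _ ≤ |q * Real.pi - P| * Real.exp (8 * Real.log q) :=
        mul_le_mul_of_nonneg_right hlow (Real.exp_pos _).le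

end Pool.Agent.TWB
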