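import Pool.Agent.TWB.Stmts

/-!
# TWB, module COIN: the approximations of `x` and of its Moebius image coincide
-/

set_option autoImplicit false

namespace Pool.Agent.TWB

namespace COIN_

theorem den_ne {x : ℝ} (hx : Irrational x) {a b c d : ℤ} (hD : a * d - b * c ≠ 0) :
    (c : ℝ) * x + d ≠ 0 := by
  intro h
  by_cases hc : c = 0
  · subst hc
    simp only [Int.cast_zero, zero_mul, zero_add, Int.cast_eq_zero] at h
    subst h
    simp at hD
  · apply hx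
    refine ⟨-(d : ℚ) / c, ?_⟩
    have hc' : (c : ℝ) ≠ 0 := by exact_mod_cast hc
    push_cast
    field_simp
    linarith

theorem le_two_pow (n : ℕ) : n ≤ 2 ^ n := Nat.lt_two_pow_self.le

end COIN_

open COIN_ in
theorem coin_proof (hPIG : Stmt_PIG) (hLVL : Stmt_LVL) : Stmt_COIN := by
  intro r s x a b c d hr hs hx hD
  have hg := den_ne hx hD
  set g : ℝ := (c : ℝ) * x + d with hgdef
  set C1 : ℝ := |(c : ℝ)| * (|x| + 1) + |(d : ℝ)| with hC1
  have hC1n : 0 ≤ C1 := by positivity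
  set C0 : ℕ := ⌈4 * C1⌉₊ + 1 with hC0
  have hC0a : 4 * C1 ≤ C0 := by
    rw [hC0]
    push_cast
    linarith [Nat.le_ceil (4 * C1)]
  have hC0pos : 0 < C0 := Nat.succ_pos _
  set Δ : ℝ := (a : ℝ) * d - b * c with hΔ
  set C2 : ℝ := s * C0 * (|Δ| / |g|) with hC2
  have hC2n : 0 ≤ C2 := by positivity
  obtain ⟨c2, hc2⟩ := pow_unbounded_of_one_lt (4 * C2) (one_lt_two)
  refine ⟨100 * (s + c2) + C0 + r + s * C0 + 2, ?_⟩
  intro n t N hW1 hW2 hNn h101 hCt hCn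
  set w := W r x N with hw
  set C : ℕ := 100 * (s + c2) + C0 + r + s * C0 + 2 with hC
  have hC2' : 2 ≤ C := by omega
  have hw2 : 2 ≤ w := by
    have : C * 1 ≤ C * (t + 1) := Nat.mul_le_mul_left _ (by omega)
    omega
  obtain ⟨u, v, a₁, b₁, hv, huv, hb₁, hcop, hdvd, happ, hsz⟩ := hLVL r x hr n t N hW1 hNn hw2
  have hEpos := E_pos (u := u) hr hv
  have hb₁E : b₁ ≤ E r u v := Nat.le_of_dvd hEpos hdvd
  have hEw : E r u v < r ^ w := by
    have h1 : E r u v < r ^ (u + v) := E_lt hr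
    rw [huv] at h1
    exact h1
  -- the level for `y`
  set y : ℝ := ((a : ℝ) * x + b) / (c * x + d) with hy
  set m' := Nat.clog s (C0 * r ^ w) with hm'
  have hbig : 1 < C0 * r ^ w := by
    have h1 : 2 ^ w ≤ r ^ w := Nat.pow_le_pow_left hr w
    have h2 : 2 ^ 1 ≤ 2 ^ w := Nat.pow_le_pow_right (by norm_num) (by omega)
    have h3 : 1 * r ^ w ≤ C0 * r ^ w := Nat.mul_le_mul_right _ hC0pos
    omega
  have hm1 : C0 * r ^ w ≤ s ^ m' := Nat.le_pow_clog (by omega) _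
  have hm2 : s ^ (m' - 1) < C0 * r ^ w := Nat.pow_pred_clog_lt_self (by omega) hbig
  have hm'pos : 1 ≤ m' := by
    rcases Nat.eq_zero_or_pos m' with h | h
    · rw [h, pow_zero] at hm1
      omega
    · exact h
  have hm3 : s ^ m' ≤ s * C0 * r ^ w := by
    calc s ^ m' = s * s ^ (m' - 1) := by
          rw [← pow_succ']
          congr 1
          omega
      _ ≤ s * (C0 * r ^ w) := Nat.mul_le_mul_left _ hm2.le
      _ = _ := by ring
  have hm'n : m' ≤ n := by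
    have h1 : 2 ^ (m' - 1) < 2 ^ (C0 + r * w) := by
      calc 2 ^ (m' - 1) ≤ s ^ (m' - 1) := Nat.pow_le_pow_left hs _
        _ < C0 * r ^ w := hm2
        _ ≤ 2 ^ C0 * (2 ^ r) ^ w :=
          Nat.mul_le_mul (le_two_pow C0) (Nat.pow_le_pow_left (le_two_pow r) w)
        _ = 2 ^ (C0 + r * w) := by rw [← pow_mul, ← pow_add]
    have h2 : m' - 1 < C0 + r * w := (Nat.pow_lt_pow_iff_right (by norm_num)).mp h1
    have h3 : C0 ≤ C0 * w := Nat.le_mul_of_pos_right _ (by omega)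
    have h4 : (C0 + r) * w ≤ C * w := Nat.mul_le_mul_right _ (by omega)
    have h5 : (C0 + r) * w = C0 * w + r * w := by ring
    omega
  obtain ⟨_, u', v', P', huv', hnear⟩ := hPIG s y hs m'
  have hv' := hnear.1
  have hnear2 := hnear.2
  have huv't : u' + v' ≤ m' + t := by
    rw [huv']
    exact hW2 m' hm'n
  have hs' : s ^ (u' + v') ≤ s * C0 * r ^ w * s ^ t := by
    calc s ^ (u' + v') ≤ s ^ (m' + t) := Nat.pow_le_pow_right (by omega) huv't
      _ = s ^ m' * s ^ t := pow_add _ _ _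
      _ ≤ s * C0 * r ^ w * s ^ t := Nat.mul_le_mul_right _ hm3
  refine ⟨u, v, u', v', a₁, b₁, P', hv, hv', huv, hb₁, hcop, hdvd, happ, ?_, ?_, ?_⟩
  · rw [huv]
    exact hsz
  · rw [huv]
    calc s ^ (u' + v') ≤ s * C0 * r ^ w * s ^ t := hs'
      _ ≤ C * r ^ w * s ^ t := by
        refine Nat.mul_le_mul_right _ (Nat.mul_le_mul_right _ ?_)
        omega
  -- the integer
  have hrR : (2 : ℝ) ≤ r := by exact_mod_cast hr
  have hsR : (2 : ℝ) ≤ s := by exact_mod_cast hs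
  have hb₁R : (0 : ℝ) < b₁ := by exact_mod_cast hb₁
  have hER : (0 : ℝ) < E r u v := by exact_mod_cast hEpos
  have hbE : (b₁ : ℝ) ≤ E r u v := by exact_mod_cast hb₁E
  have hE1 : (1 : ℝ) ≤ E r u v := by exact_mod_cast hEpos
  have hbw : (b₁ : ℝ) ≤ (r : ℝ) ^ w := by exact_mod_cast (hb₁E.trans hEw.le)
  have hrN : (0 : ℝ) < (r : ℝ) ^ N := by positivity
  have hrN1 : (1 : ℝ) ≤ (r : ℝ) ^ N := one_le_pow₀ (by linarith)
  have e1 : |x - a₁ / b₁| ≤ 1 := by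
    have h1 : |x - a₁ / b₁| * 1 ≤ |x - a₁ / b₁| * ((E r u v : ℝ) * (r : ℝ) ^ N) :=
      mul_le_mul_of_nonneg_left (one_le_mul_of_one_le_of_one_le hE1 hrN1) (abs_nonneg _)
    have h2 : |x - a₁ / b₁| * ((E r u v : ℝ) * (r : ℝ) ^ N) ≤ 1 := by
      rw [← mul_assoc]
      exact happ
    linarith
  have e2 : |x * b₁ - a₁| * (r : ℝ) ^ N ≤ 1 := by
    have h1 : |x * b₁ - a₁| = |x - a₁ / b₁| * b₁ := by
      rw [← abs_of_pos hb₁R, ← abs_mul, abs_of_pos hb₁R]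
      congr 1
      field_simp
    rw [h1]
    calc |x - a₁ / b₁| * b₁ * (r : ℝ) ^ N ≤ |x - a₁ / b₁| * (E r u v : ℝ) * (r : ℝ) ^ N := by
          refine mul_le_mul_of_nonneg_right ?_ hrN.le
          exact mul_le_mul_of_nonneg_left hbE (abs_nonneg _)
      _ ≤ 1 := happ
  have e3 : |(c : ℝ) * a₁ + d * b₁| ≤ C1 * (r : ℝ) ^ w := by
    have h1 : (c : ℝ) * a₁ + d * b₁ = (c * (a₁ / b₁) + d) * b₁ := by
      field_simp
    have h2 : |(a₁ : ℝ) / b₁| ≤ |x| + 1 := by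
      have : (a₁ : ℝ) / b₁ = x - (x - a₁ / b₁) := by ring
      rw [this]
      exact (abs_sub _ _).trans (by linarith)
    have h3 : |(c : ℝ) * (a₁ / b₁) + d| ≤ C1 := by
      refine (abs_add_le _ _).trans ?_
      rw [abs_mul, hC1]
      have := mul_le_mul_of_nonneg_left h2 (abs_nonneg (c : ℝ))
      linarith
    rw [h1, abs_mul, abs_of_pos hb₁R]
    exact mul_le_mul h3 hbw hb₁R.le hC1n
  have e4 : y * ((c : ℝ) * a₁ + d * b₁) - (a * a₁ + b * b₁) = Δ * (x * b₁ - a₁) / g := by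
    have hyg : y * g = (a : ℝ) * x + b := div_mul_cancel₀ _ hg
    rw [eq_div_iff hg]
    have h1 : (y * ((c : ℝ) * a₁ + d * b₁) - (a * a₁ + b * b₁)) * g =
        (y * g) * ((c : ℝ) * a₁ + d * b₁) - (a * a₁ + b * b₁) * g := by ring
    rw [h1, hyg, hΔ, hgdef]
    ring
  have hrw : (0 : ℝ) < (r : ℝ) ^ w := by positivity
  have hsm : (C0 : ℝ) * (r : ℝ) ^ w ≤ (s : ℝ) ^ m' := by exact_mod_cast hm1
  have t1 : |((c : ℝ) * a₁ + d * b₁) * (P' - (E s u' v' : ℝ) * y)| ≤ 1 / 4 := by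
    rw [abs_mul]
    have h1 : |(P' : ℝ) - (E s u' v' : ℝ) * y| * (s : ℝ) ^ m' ≤ 1 := by
      rw [abs_sub_comm]
      exact hnear2
    have h2 : |(P' : ℝ) - (E s u' v' : ℝ) * y| * ((C0 : ℝ) * (r : ℝ) ^ w) ≤ 1 :=
      (mul_le_mul_of_nonneg_left hsm (abs_nonneg _)).trans h1
    have h3 : |(c : ℝ) * a₁ + d * b₁| * |(P' : ℝ) - (E s u' v' : ℝ) * y| ≤
        C1 * (r : ℝ) ^ w * |(P' : ℝ) - (E s u' v' : ℝ) * y| :=
      mul_le_mul_of_nonneg_right e3 (abs_nonneg _)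
    have h4 : 4 * (C1 * (r : ℝ) ^ w * |(P' : ℝ) - (E s u' v' : ℝ) * y|) ≤
        |(P' : ℝ) - (E s u' v' : ℝ) * y| * ((C0 : ℝ) * (r : ℝ) ^ w) := by
      have h5 : 0 ≤ (r : ℝ) ^ w * |(P' : ℝ) - (E s u' v' : ℝ) * y| := by positivity
      nlinarith [mul_le_mul_of_nonneg_right hC0a h5]
    linarith
  have t2 : |(E s u' v' : ℝ) * (y * ((c : ℝ) * a₁ + d * b₁) - (a * a₁ + b * b₁))| ≤ 1 / 4 := by
    rw [e4, abs_mul, abs_div, abs_mul]
    have hE' : (E s u' v' : ℝ) ≤ s * C0 * (r : ℝ) ^ w * (s : ℝ) ^ t := by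
      have : E s u' v' ≤ s * C0 * r ^ w * s ^ t := (E_lt hs).le.trans hs'
      exact_mod_cast this
    have hE'0 : (0 : ℝ) ≤ E s u' v' := by positivity
    rw [abs_of_nonneg hE'0]
    have hNw : w ≤ N := by omega
    have hexp : (s + c2) * (t + 1) ≤ N - w := by
      have h1 : 100 * ((s + c2) * (t + 1)) ≤ w := by
        calc 100 * ((s + c2) * (t + 1)) = 100 * (s + c2) * (t + 1) := by ring
          _ ≤ C * (t + 1) := Nat.mul_le_mul_right _ (by omega)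
          _ ≤ w := hCt
      omega
    have h2 : (s : ℝ) ^ t * (4 * C2) ≤ (r : ℝ) ^ (N - w) := by
      have a1 : (s : ℝ) ^ t ≤ (2 : ℝ) ^ (s * t) := by
        have : s ^ t ≤ 2 ^ (s * t) := by
          rw [pow_mul]
          exact Nat.pow_le_pow_left (le_two_pow s) t
        exact_mod_cast this
      calc (s : ℝ) ^ t * (4 * C2) ≤ (2 : ℝ) ^ (s * t) * 2 ^ c2 :=
            mul_le_mul a1 hc2.le (by positivity) (by positivity)
        _ = 2 ^ (s * t + c2) := by rw [pow_add]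
        _ ≤ 2 ^ (N - w) := by
            refine pow_le_pow_right₀ (by norm_num) ?_
            nlinarith
        _ ≤ (r : ℝ) ^ (N - w) := pow_le_pow_left₀ (by norm_num) hrR _
    have h3 : (r : ℝ) ^ N = (r : ℝ) ^ w * (r : ℝ) ^ (N - w) := by
      rw [← pow_add]
      congr 1
      omega
    have hgpos : 0 < |g| := abs_pos.mpr hg
    have h4 : (E s u' v' : ℝ) * (|Δ| * |x * b₁ - a₁| / |g|) * (r : ℝ) ^ N ≤
        C2 * (r : ℝ) ^ w * (s : ℝ) ^ t := by
      calc (E s u' v' : ℝ) * (|Δ| * |x * b₁ - a₁| / |g|) * (r : ℝ) ^ N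
          = (E s u' v' : ℝ) * (|Δ| / |g|) * (|x * b₁ - a₁| * (r : ℝ) ^ N) := by ring
        _ ≤ (s * C0 * (r : ℝ) ^ w * (s : ℝ) ^ t) * (|Δ| / |g|) * 1 := by
            refine mul_le_mul ?_ e2 (by positivity) (by positivity)
            exact mul_le_mul_of_nonneg_right hE' (by positivity)
        _ = C2 * (r : ℝ) ^ w * (s : ℝ) ^ t := by
            rw [hC2]
            ring
    have h5 : 4 * (C2 * (r : ℝ) ^ w * (s : ℝ) ^ t) ≤ (r : ℝ) ^ N := by
      rw [h3]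
      calc 4 * (C2 * (r : ℝ) ^ w * (s : ℝ) ^ t) = (r : ℝ) ^ w * ((s : ℝ) ^ t * (4 * C2)) := by
            ring
        _ ≤ (r : ℝ) ^ w * (r : ℝ) ^ (N - w) := mul_le_mul_of_nonneg_left h2 hrw.le
    have h6 : (E s u' v' : ℝ) * (|Δ| * |x * b₁ - a₁| / |g|) * (r : ℝ) ^ N ≤
        1 / 4 * (r : ℝ) ^ N := by linarith
    exact le_of_mul_le_mul_right h6 hrN
  have t3 : ((P' * (c * a₁ + d * b₁) - (E s u' v' : ℤ) * (a * a₁ + b * b₁) : ℤ) : ℝ) =
      ((c : ℝ) * a₁ + d * b₁) * (P' - (E s u' v' : ℝ) * y) +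
        (E s u' v' : ℝ) * (y * ((c : ℝ) * a₁ + d * b₁) - (a * a₁ + b * b₁)) := by
    push_cast
    ring
  have t4 : |((P' * (c * a₁ + d * b₁) - (E s u' v' : ℤ) * (a * a₁ + b * b₁) : ℤ) : ℝ)| < 1 := by
    rw [t3]
    refine lt_of_le_of_lt (abs_add_le _ _) ?_
    linarith
  have t5 : P' * (c * a₁ + d * b₁) - (E s u' v' : ℤ) * (a * a₁ + b * b₁) = 0 := by
    rw [← Int.cast_abs] at t4
    have : |P' * (c * a₁ + d * b₁) - (E s u' v' : ℤ) * (a * a₁ + b * b₁)| < 1 := by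
      exact_mod_cast t4
    exact Int.abs_lt_one_iff.mp this
  exact sub_eq_zero.mp t5

end Pool.Agent.TWB
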