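import Pool.Agent.TWB.Stmts

/-!
# Multiplicatively dependent integers are powers of a common integer
-/

set_option autoImplicit false

namespace Pool.Agent.TWB

namespace DEP_

lemma pow_of_coprime {r s i j : ℕ} (hr : 0 < r) (hi : 0 < i) (hj : 0 < j) (hij : Nat.Coprime i j)
    (h : r ^ i = s ^ j) : ∃ g : ℕ, r = g ^ j ∧ s = g ^ i := by
  have hs : 0 < s := by
    rcases Nat.eq_zero_or_pos s with h0 | h0
    · rw [h0, zero_pow hj.ne'] at h
      have := Nat.pow_pos (n := i) hr
      omega
    · exact h0
  have hfac : ∀ p, i * r.factorization p = j * s.factorization p := by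
    intro p
    have h1 := congrArg (fun m => m.factorization p) h
    simpa [Nat.factorization_pow] using h1
  have hdvd : ∀ p, j ∣ r.factorization p := by
    intro p
    have h1 : j ∣ i * r.factorization p := ⟨_, hfac p⟩
    exact (Nat.Coprime.dvd_of_dvd_mul_left hij.symm h1)
  -- g
  obtain ⟨g, hg0, hg⟩ : ∃ g : ℕ, 0 < g ∧ ∀ p, j * g.factorization p = r.factorization p := by
    refine ⟨r.factorization.prod (fun p k => p ^ (k / j)), ?_, ?_⟩
    · apply Finset.prod_pos
      intro p hp
      exact Nat.pow_pos (Nat.prime_of_mem_primeFactors (by simpa using hp)).pos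
    · intro p
      have h2 : (r.factorization.prod (fun p k => p ^ (k / j))).factorization p
          = r.factorization p / j := by
        have h3 : r.factorization.prod (fun p k => p ^ (k / j))
            = (r.factorization.mapRange (fun k => k / j) (by simp)).prod (fun p k => p ^ k) := by
          rw [Finsupp.prod_mapRange_index]
          intro a
          simp
        rw [h3, Nat.prod_pow_factorization_eq_self]
        · simp
        · intro q hq
          have h4 : q ∈ r.factorization.support := Finsupp.support_mapRange hq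
          exact Nat.prime_of_mem_primeFactors (by simpa using h4)
      rw [h2]
      exact Nat.mul_div_cancel' (hdvd p)
  refine ⟨g, ?_, ?_⟩
  · apply Nat.eq_of_factorization_eq hr.ne' (Nat.pow_pos hg0).ne'
    intro p
    simp [Nat.factorization_pow, hg p]
  · apply Nat.eq_of_factorization_eq hs.ne' (Nat.pow_pos hg0).ne'
    intro p
    have h1 := hfac p
    rw [← hg p] at h1
    have h2 : j * (i * g.factorization p) = j * s.factorization p := by
      rw [← h1]
      ring
    have h3 := Nat.eq_of_mul_eq_mul_left hj h2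
    simp [Nat.factorization_pow, h3]

end DEP_

open DEP_ in
theorem exists_common_base {r s : ℕ} (hr : 2 ≤ r) (hs : 2 ≤ s) (h : ¬ Indep r s) :
    ∃ g i j : ℕ, 2 ≤ g ∧ 1 ≤ i ∧ 1 ≤ j ∧ r = g ^ i ∧ s = g ^ j := by
  unfold Indep at h
  push Not at h
  obtain ⟨i, j, hi, hij⟩ := h
  have hj : 0 < j := by
    rcases Nat.eq_zero_or_pos j with h0 | h0
    · rw [h0, pow_zero] at hij
      have h1 : 1 < r ^ i := Nat.one_lt_pow hi.ne' (by omega)
      omega
    · exact h0
  set k := Nat.gcd i j with hk
  have hk0 : 0 < k := Nat.gcd_pos_of_pos_left _ hi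
  obtain ⟨i', hi'⟩ : k ∣ i := Nat.gcd_dvd_left i j
  obtain ⟨j', hj'⟩ : k ∣ j := Nat.gcd_dvd_right i j
  have hi'0 : 0 < i' := by
    rcases Nat.eq_zero_or_pos i' with h0 | h0
    · rw [h0, Nat.mul_zero] at hi'
      omega
    · exact h0
  have hj'0 : 0 < j' := by
    rcases Nat.eq_zero_or_pos j' with h0 | h0
    · rw [h0, Nat.mul_zero] at hj'
      omega
    · exact h0
  have hcop : Nat.Coprime i' j' := by
    have h1 : k * Nat.gcd i' j' = k * 1 := by
      rw [← Nat.gcd_mul_left, ← hi', ← hj', mul_one]
    exact Nat.eq_of_mul_eq_mul_left hk0 h1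
  have h1 : r ^ i' = s ^ j' := by
    have h2 : (r ^ i') ^ k = (s ^ j') ^ k := by
      rw [← pow_mul, ← pow_mul, mul_comm i' k, mul_comm j' k, ← hi', ← hj']
      exact hij
    exact Nat.pow_left_injective hk0.ne' h2
  obtain ⟨g, hg1, hg2⟩ := pow_of_coprime (by omega) hi'0 hj'0 hcop h1
  refine ⟨g, j', i', ?_, hj'0, hi'0, hg1, hg2⟩
  by_contra hlt
  have h5 : g = 0 ∨ g = 1 := by omega
  rcases h5 with h5 | h5
  · rw [h5, zero_pow hj'0.ne'] at hg1
    omega
  · rw [h5, one_pow] at hg1
    omega

end Pool.Agent.TWB
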