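import Mathlib

/-!
# Block complexity of two expansions (MP_57632f_nt): definitions
-/

set_option autoImplicit false

namespace Pool.Agent.TWB

/-- the `i`-th digit after the point (`i ≥ 1`) of `x` in base `b` -/
noncomputable def dig (b : ℕ) (x : ℝ) (i : ℕ) : ℤ := ⌊x * (b : ℝ) ^ i⌋ % b

/-- the number of different blocks of `n` consecutive digits of `x` (after the point) in base `b` -/
noncomputable def blk (b : ℕ) (x : ℝ) (n : ℕ) : ℕ :=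
  Set.ncard {w : Fin n → ℤ | ∃ m : ℕ, ∀ j : Fin n, w j = dig b x (m + 1 + j)}

/-- `r` and `s` are multiplicatively independent -/
def Indep (r s : ℕ) : Prop := ∀ i j : ℕ, 0 < i → r ^ i ≠ s ^ j

/-- the denominators `r^u (r^v - 1)` of eventually periodic expansions -/
def E (r u v : ℕ) : ℕ := r ^ u * (r ^ v - 1)

/-- `|E x - P| ≤ r^(-m)` with `E = r^u (r^v - 1)`, `v ≥ 1` -/
def Near (r : ℕ) (x : ℝ) (m u v : ℕ) (P : ℤ) : Prop :=
  1 ≤ v ∧ |(E r u v : ℝ) * x - P| * (r : ℝ) ^ m ≤ 1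

/-- the least `u + v` with `Near r x m u v P` -/
noncomputable def W (r : ℕ) (x : ℝ) (m : ℕ) : ℕ :=
  sInf {s | ∃ (u v : ℕ) (P : ℤ), u + v = s ∧ Near r x m u v P}

/-- `x` has irrationality exponent at most `μ` -/
def Meas (x : ℝ) (μ : ℕ) : Prop :=
  ∃ c : ℝ, 0 < c ∧ ∀ (q : ℕ) (P : ℤ), 0 < q → c ≤ |x - P / q| * (q : ℝ) ^ μ

/-- almost coinciding multiples of `r^w` and `s^w'` -/
def Sol (r s w K : ℕ) : Prop :=
  ∃ X Y w' : ℕ, 0 < X ∧ 0 < Y ∧ r ^ w ∣ X ∧ s ^ w' ∣ Y ∧ X ≠ Y ∧ X ≤ Y + K ∧ Y ≤ X + K ∧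
    X ≤ K * r ^ w ∧ Y ≤ K * r ^ w ∧ r ^ w ≤ K * s ^ w' ∧ s ^ w' ≤ K * r ^ w

end Pool.Agent.TWB
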