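import Pool.Agent.TWB.Stmts

/-!
# FIN: assembly
-/

set_option autoImplicit false

namespace Pool.Agent.TWB

open Filter

namespace FIN_

theorem den_ne {x : ℝ} (hx : Irrational x) {c d : ℤ} (h : c ≠ 0 ∨ d ≠ 0) :
    (c : ℝ) * x + d ≠ 0 := by
  intro h0
  by_cases hc : c = 0
  · subst hc
    have hd : d ≠ 0 := by
      rcases h with h | h
      · exact absurd rfl h
      · exact h
    rw [Int.cast_zero, zero_mul, zero_add] at h0
    exact hd (by exact_mod_cast h0)
  · have hc' : (c : ℝ) ≠ 0 := by exact_mod_cast hc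
    apply hx
    refine ⟨-(d : ℚ) / (c : ℚ), ?_⟩
    push_cast
    rw [div_eq_iff hc']
    linarith

theorem irr {x : ℝ} (hx : Irrational x) {a b c d : ℤ} (h : a * d - b * c ≠ 0) :
    Irrational (((a : ℝ) * x + b) / (c * x + d)) := by
  have hcd : c ≠ 0 ∨ d ≠ 0 := by
    by_contra hcon
    push Not at hcon
    apply h
    rw [hcon.1, hcon.2]
    ring
  have hden := den_ne hx hcd
  rintro ⟨p, hp⟩
  have h1 : (a : ℝ) * x + b = p * (c * x + d) := by
    rw [hp, div_mul_cancel₀ _ hden]
  have h2 : ((a : ℝ) - p * c) * x = p * d - b := by linarith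
  by_cases h3 : (a : ℝ) - p * c = 0
  · rw [h3, zero_mul] at h2
    apply h
    have h4 : (a : ℝ) * d - b * c = 0 := by
      have h5 : (a : ℝ) = p * c := by linarith
      have h6 : (b : ℝ) = p * d := by linarith
      rw [h5, h6]
      ring
    exact_mod_cast h4
  · apply hx
    refine ⟨(p * d - b) / (a - p * c), ?_⟩
    push_cast
    rw [div_eq_iff h3]
    linarith

theorem key {D n K : ℕ} (hD : 1 ≤ D) (h : (K : ℝ) < (2 + 1 / (D : ℝ)) * n) :
    K ≤ 2 * n + n / D := by
  by_contra hcon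
  push Not at hcon
  have hD' : (0 : ℝ) < D := by exact_mod_cast hD
  have h1 : n < D * (n / D + 1) := by
    have h2 := Nat.div_add_mod n D
    have h3 := Nat.mod_lt n (show D > 0 from hD)
    rw [mul_add, mul_one]
    omega
  have h2 : (n : ℝ) < D * (((n / D : ℕ) : ℝ) + 1) := by exact_mod_cast h1
  have h3 : (n : ℝ) / D < ((n / D : ℕ) : ℝ) + 1 := by
    rw [div_lt_iff₀ hD']
    linarith
  have h4 : 2 * (n : ℝ) + ((n / D : ℕ) : ℝ) + 1 ≤ K := by exact_mod_cast hcon
  have h5 : (2 + 1 / (D : ℝ)) * n = 2 * n + n / D := by ring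
  linarith

end FIN_

theorem fin_proof (h1 : Stmt_HYP) (h2 : Stmt_MEAS) (h3 : Stmt_TA) (h4 : Stmt_TB) : Stmt_FIN := by
  intro r s a b c d hr hs hdet hcase
  have hpi := irrational_pi
  have hy := FIN_.irr hpi hdet
  -- the common conclusion
  have main : ∃ D : ℕ, 1 ≤ D ∧ ∀ n t : ℕ, D ≤ n → D * t ≤ n →
      (∀ m ≤ n, W r Real.pi m ≤ m + t) →
      (∀ m ≤ n, W s (((a : ℝ) * Real.pi + b) / (c * Real.pi + d)) m ≤ m + t) → False := by
    rcases hcase with ⟨hc, hind⟩ | ⟨hc, hrs⟩
    · subst hc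
      have ha : a ≠ 0 := by
        rintro rfl
        apply hdet
        ring
      have hd : d ≠ 0 := by
        rintro rfl
        apply hdet
        ring
      obtain ⟨D, hD, hD2⟩ := h3 Real.pi 9 r s a b d hpi (by norm_num) h2 hr hs hind ha hd
      refine ⟨D, hD, fun n t hn ht hx hyy => hD2 n t hn ht hx ?_⟩
      intro m hm
      have h5 := hyy m hm
      rw [Int.cast_zero, zero_mul, zero_add] at h5
      exact h5
    · subst hrs
      exact h4 Real.pi 9 r a b c d hpi (by norm_num) h2 hr hc hdet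
  obtain ⟨D, hD, hmain⟩ := main
  have hD' : (0 : ℝ) < D := by exact_mod_cast hD
  refine ⟨1 / (D : ℝ), by positivity, ?_⟩
  filter_upwards [eventually_ge_atTop D] with n hn
  by_contra hcon
  push Not at hcon
  have h5 : blk r Real.pi n + blk s (((a : ℝ) * Real.pi + b) / (c * Real.pi + d)) n ≤
      2 * n + n / D := by
    apply FIN_.key hD
    push_cast
    exact hcon
  obtain ⟨h6, h7⟩ := h1 r s Real.pi _ hr hs hpi hy n (n / D) h5
  exact hmain n (n / D) hn (Nat.mul_div_le n D) h6 h7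

end Pool.Agent.TWB
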