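import Pool.Agent.TWB.DEP

/-!
# TWB, module TBG: the case `c ≠ 0` for multiplicatively dependent bases
-/

set_option autoImplicit false

namespace Pool.Agent.TWB

/-- TBG. -/
def Stmt_TBG : Prop :=
  ∀ (x : ℝ) (μ r s : ℕ) (a b c d : ℤ), Irrational x → 1 ≤ μ → Meas x μ → 2 ≤ r → 2 ≤ s →
    ¬ Indep r s → c ≠ 0 →
    a * d - b * c ≠ 0 → ∃ D : ℕ, 1 ≤ D ∧ ∀ n t : ℕ, D ≤ n → D * t ≤ n →
      (∀ m ≤ n, W r x m ≤ m + t) → (∀ m ≤ n, W s ((a * x + b) / (c * x + d)) m ≤ m + t) → False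

namespace TBG_

lemma E_pow (g i u v : ℕ) : E (g ^ i) u v = E g (i * u) (i * v) := by
  unfold E
  rw [← pow_mul, ← pow_mul]

end TBG_

open TBG_ in
theorem tbg_proof (hMW : Stmt_MW) (hGOOD : Stmt_GOOD) (hCOIN : Stmt_COIN) (hTBC : Stmt_TBC) :
    Stmt_TBG := by
  intro x μ r s a b c d hx hμ hM hr hs hdep hc hdet
  obtain ⟨g, i, j, hg, hi, hj, hrg, hsg⟩ := exists_common_base hr hs hdep
  obtain ⟨C₁, hC₁⟩ := hMW x μ r hr hμ hM
  obtain ⟨M₀, hM₀⟩ := hGOOD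
  obtain ⟨C₂, hC₂⟩ := hCOIN r s x a b c d hr hs hx hdet
  obtain ⟨D₁, hD₁⟩ := hTBC x μ g C₂ a b c d hx hμ hM hg hc hdet
  -- constants
  obtain ⟨D₂, hD₂⟩ : ∃ D₂ : ℕ, ∀ t : ℕ, D₁ * ((i + j) * (t + 1) + 1) ≤ D₂ * (t + 1) := by
    refine ⟨D₁ * (i + j + 1), fun t => ?_⟩
    rw [mul_assoc]
    apply Nat.mul_le_mul_left
    nlinarith
  obtain ⟨X, hX1, hX2, hX3, hX4⟩ : ∃ X : ℕ, 1000 ≤ X ∧ M₀ ≤ X ∧ μ * C₂ + C₁ + 1 ≤ X ∧
      μ * D₂ + C₁ + 1 ≤ X :=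
    ⟨1000 + M₀ + (μ * C₂ + C₁ + 1) + (μ * D₂ + C₁ + 1), by omega, by omega, by omega, by omega⟩
  obtain ⟨c₀, hc₀⟩ : ∃ c₀ : ℕ, c₀ = 2 * C₂ + 2 := ⟨_, rfl⟩
  refine ⟨2 * (c₀ * X), by nlinarith [Nat.zero_le C₂], ?_⟩
  intro n t hn hnt hWr hWs
  have h1 : c₀ * (X * (t + 1)) ≤ n := by nlinarith
  obtain ⟨M, hMdef⟩ : ∃ M, M = n / c₀ := ⟨_, rfl⟩
  have hc₀0 : 0 < c₀ := by omega
  have hMlow : X * (t + 1) ≤ M := by
    rw [hMdef, Nat.le_div_iff_mul_le hc₀0]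
    linarith [mul_comm (X * (t + 1)) c₀]
  have hMup : c₀ * M ≤ n := by
    rw [hMdef]
    exact Nat.mul_div_le n c₀
  have hXt : X ≤ X * (t + 1) := Nat.le_mul_of_pos_right _ (by omega)
  have h2M : 2 * M ≤ n := by nlinarith
  obtain ⟨N, hN1, hN2, hN3⟩ := hM₀ r x hr n t M hWr (by omega) (by nlinarith) (by omega)
  have hNn : N ≤ n := by omega
  obtain ⟨w, hw⟩ : ∃ w, w = W r x N := ⟨_, rfl⟩
  rw [← hw] at hN3
  have hw1 : N ≤ μ * w + C₁ := by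
    have := hC₁ N
    rw [← hw] at this
    exact this
  have hwN : w ≤ N := by omega
  have hw2 : C₂ * (t + 1) ≤ w := by
    by_contra hlt
    push Not at hlt
    have h3 : μ * w ≤ μ * (C₂ * (t + 1)) := Nat.mul_le_mul_left _ hlt.le
    have h4 : (μ * C₂ + C₁ + 1) * (t + 1) ≤ X * (t + 1) := Nat.mul_le_mul_right _ hX3
    nlinarith
  have hw3 : C₂ * w ≤ n := by nlinarith
  obtain ⟨u, v, u', v', a₁, b₁, P', hv, hv', huv, hb₁, hcop, hdvd, happ, hpow, hpow', heq⟩ :=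
    hC₂ n t N hWr hWs hNn (by rw [← hw]; exact hN3) (by rw [← hw]; exact hw2)
      (by rw [← hw]; exact hw3)
  have hg0 : 0 < g := by omega
  have hfin := hD₁ ((i + j) * (t + 1)) (i * N) (i * u) (i * v) (j * u') (j * v') a₁ b₁ P'
    (Nat.mul_pos hi hv) (Nat.mul_pos hj hv') hb₁ hcop
    (by rw [← E_pow, ← hrg]; exact hdvd)
    (by rw [← mul_add, huv, ← hw]; exact Nat.mul_le_mul_left _ hwN)
    (by
      rw [← E_pow, ← hrg]
      have h5 : (g : ℝ) ^ (i * N) = (r : ℝ) ^ N := by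
        rw [hrg]
        push_cast
        rw [← pow_mul]
      rw [h5]
      exact happ)
    (by
      have h6 : r ^ (u + v) = g ^ (i * u + i * v) := by rw [hrg, ← pow_mul, mul_add]
      have h7 : r ^ (t + 1) ≤ g ^ ((i + j) * (t + 1) + 1) := by
        rw [hrg, ← pow_mul]
        exact Nat.pow_le_pow_right hg0 (by nlinarith)
      rw [← h6]
      exact hpow.trans (Nat.mul_le_mul_left _ h7))
    (by
      have h6 : r ^ (u + v) = g ^ (i * u + i * v) := by rw [hrg, ← pow_mul, mul_add]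
      have h7 : s ^ (u' + v') = g ^ (j * u' + j * v') := by rw [hsg, ← pow_mul, mul_add]
      have h8 : s ^ t ≤ g ^ ((i + j) * (t + 1)) := by
        rw [hsg, ← pow_mul]
        exact Nat.pow_le_pow_right hg0 (by nlinarith)
      rw [← h6, ← h7]
      exact hpow'.trans (Nat.mul_le_mul_left _ h8))
    (by
      rw [← E_pow, ← hsg]
      exact heq)
  have h9 : w ≤ D₂ * (t + 1) := by
    have h10 : w ≤ i * u + i * v := by
      rw [← mul_add, huv, ← hw]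
      exact Nat.le_mul_of_pos_left _ hi
    exact (h10.trans hfin).trans (hD₂ t)
  have h11 : μ * w ≤ μ * (D₂ * (t + 1)) := Nat.mul_le_mul_left _ h9
  have h12 : (μ * D₂ + C₁ + 1) * (t + 1) ≤ X * (t + 1) := Nat.mul_le_mul_right _ hX4
  nlinarith

end Pool.Agent.TWB
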