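import Pool.Agent.TWB.FIN
import Pool.Agent.TWB.TBG

/-!
# FING: assembly, multiplicatively dependent bases included
-/

set_option autoImplicit false

namespace Pool.Agent.TWB

open Filter

/-- FING. -/
def Stmt_FING : Prop :=
  ∀ (r s : ℕ) (a b c d : ℤ), 2 ≤ r → 2 ≤ s → a * d - b * c ≠ 0 → (c = 0 ↔ Indep r s) →
    ∃ δ : ℝ, 0 < δ ∧ ∀ᶠ n : ℕ in atTop,
      (2 + δ) * n ≤ blk r Real.pi n + blk s ((a * Real.pi + b) / (c * Real.pi + d)) n

theorem fing_proof (h1 : Stmt_HYP) (h2 : Stmt_MEAS) (h3 : Stmt_TA) (h4 : Stmt_TBG) :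
    Stmt_FING := by
  intro r s a b c d hr hs hdet hcase
  have hpi := irrational_pi
  have hy := FIN_.irr hpi hdet
  -- the common conclusion
  have main : ∃ D : ℕ, 1 ≤ D ∧ ∀ n t : ℕ, D ≤ n → D * t ≤ n →
      (∀ m ≤ n, W r Real.pi m ≤ m + t) →
      (∀ m ≤ n, W s (((a : ℝ) * Real.pi + b) / (c * Real.pi + d)) m ≤ m + t) → False := by
    by_cases hc : c = 0
    · have hind := hcase.mp hc
      subst hc
      have ha : a ≠ 0 := by
        rintro rfl
        apply hdet
        ring
      have hd : d ≠ 0 := by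
        rintro rfl
        apply hdet
        ring
      obtain ⟨D, hD, hD2⟩ := h3 Real.pi 9 r s a b d hpi (by norm_num) h2 hr hs hind ha hd
      refine ⟨D, hD, fun n t hn ht hx hyy => hD2 n t hn ht hx ?_⟩
      intro m hm
      have h5 := hyy m hm
      rw [Int.cast_zero, zero_mul, zero_add] at h5
      exact h5
    · exact h4 Real.pi 9 r s a b c d hpi (by norm_num) h2 hr hs (fun h => hc (hcase.mpr h)) hc hdet
  obtain ⟨D, hD, hmain⟩ := main
  have hD' : (0 : ℝ) < D := by exact_mod_cast hD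
  refine ⟨1 / (D : ℝ), by positivity, ?_⟩
  filter_upwards [eventually_ge_atTop D] with n hn
  by_contra hcon
  push Not at hcon
  have h5 : blk r Real.pi n + blk s (((a : ℝ) * Real.pi + b) / (c * Real.pi + d)) n ≤
      2 * n + n / D := by
    apply FIN_.key hD
    push_cast
    exact hcon
  obtain ⟨h6, h7⟩ := h1 r s Real.pi _ hr hs hpi hy n (n / D) h5
  exact hmain n (n / D) hn (Nat.mul_div_le n D) h6 h7

end Pool.Agent.TWB
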