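import Pool.Agent.TWB.Stmts

/-!
# TWB, module GOOD
-/

set_option autoImplicit false

namespace Pool.Agent.TWB

namespace GOOD_

variable {r : ℕ} {x : ℝ}

theorem W_mono (hP : Stmt_PIG) (hr : 2 ≤ r) {m m' : ℕ} (h : m ≤ m') : W r x m ≤ W r x m' := by
  obtain ⟨u, v, P, h1, h2⟩ := (hP r x hr m').2
  rw [← h1]
  exact W_le (h2.mono hr h)

theorem small (hr : 2 ≤ r) {N u v : ℕ} {P : ℤ} (h : Near r x N u v P) {A : ℝ} (k e : ℕ)
    (_hA : 0 ≤ A) (hA' : A ≤ (r : ℝ) ^ k) (hk : k + e ≤ N) :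
    A * |(E r u v : ℝ) * x - P| * 2 ^ e ≤ 1 := by
  have r2 : (2 : ℝ) ≤ r := by exact_mod_cast hr
  have h0 := abs_nonneg ((E r u v : ℝ) * x - P)
  calc A * |(E r u v : ℝ) * x - P| * 2 ^ e ≤ (r : ℝ) ^ k * |(E r u v : ℝ) * x - P| * (r : ℝ) ^ e := by
        gcongr
    _ = |(E r u v : ℝ) * x - P| * (r : ℝ) ^ (k + e) := by rw [pow_add]; ring
    _ ≤ |(E r u v : ℝ) * x - P| * (r : ℝ) ^ N := by
        refine mul_le_mul_of_nonneg_left ?_ h0
        exact pow_le_pow_right₀ (by linarith) hk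
    _ ≤ 1 := h.2

/-- different fractions -/
theorem diff (hr : 2 ≤ r) {N N' u v u' v' : ℕ} {P P' : ℤ} (h : Near r x N u v P)
    (h' : Near r x N' u' v' P') (hw : u + v < u' + v') (hW : W r x N' = u' + v') :
    P * (E r u' v' : ℤ) ≠ P' * (E r u v : ℤ) := by
  intro he
  have hE := E_pos (u := u) hr h.1
  have hE' := E_pos (u := u') hr h'.1
  have hle : E r u v ≤ E r u' v' := E_le_of_lt hr h'.1 hw
  have her : (P : ℝ) * (E r u' v' : ℝ) = P' * (E r u v : ℝ) := by exact_mod_cast he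
  have hEr : (0 : ℝ) < (E r u v : ℝ) := by exact_mod_cast hE
  have hEr' : (0 : ℝ) < (E r u' v' : ℝ) := by exact_mod_cast hE'
  have hler : (E r u v : ℝ) ≤ (E r u' v' : ℝ) := by exact_mod_cast hle
  have h1 : (E r u' v' : ℝ) * |(E r u v : ℝ) * x - P| = (E r u v : ℝ) * |(E r u' v' : ℝ) * x - P'| := by
    rw [← abs_of_pos hEr', ← abs_mul, abs_of_pos hEr', ← abs_of_pos hEr, ← abs_mul, abs_of_pos hEr]
    congr 1
    linear_combination -her
  have h2 : (E r u' v' : ℝ) * |(E r u v : ℝ) * x - P| ≤ (E r u' v' : ℝ) * |(E r u' v' : ℝ) * x - P'| := by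
    rw [h1]
    exact mul_le_mul_of_nonneg_right hler (abs_nonneg _)
  have h3 := le_of_mul_le_mul_left h2 hEr'
  have h4 : Near r x N' u v P := by
    refine ⟨h.1, le_trans ?_ h'.2⟩
    exact mul_le_mul_of_nonneg_right h3 (by positivity)
  have h5 := W_le h4
  omega

theorem one_le_abs {z : ℤ} (h : z ≠ 0) : (1 : ℝ) ≤ |(z : ℝ)| := by
  have := Int.one_le_abs h
  exact_mod_cast this

theorem minb (hr : 2 ≤ r) {N N' u v u' v' : ℕ} {P P' : ℤ} (h : Near r x N u v P)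
    (h' : Near r x N' u' v' P') (hN : N + 1 ≤ N') (hw : u + v + 1 ≤ u' + v')
    (hne : P * (E r u' v' : ℤ) ≠ P' * (E r u v : ℤ)) : min u u' + N ≤ u' + v' := by
  by_contra hc
  push Not at hc
  obtain ⟨mn, mx, hmn, hmx1, hmx2, e1, e2, hmn1, hmn2⟩ : ∃ mn mx : ℕ, min u u' = mn ∧ u ≤ mx ∧ u' ≤ mx ∧
      mx - u + v' = u' + v' - mn ∧ mx - u' + v = u + v - mn ∧ mn ≤ u ∧ mn ≤ u' := by
    rcases le_total u u' with hu | hu
    · exact ⟨u, u', min_eq_left hu, hu, le_rfl, by omega, by omega, le_rfl, hu⟩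
    · exact ⟨u', u, min_eq_right hu, le_rfl, hu, by omega, by omega, hu, le_rfl⟩
  rw [hmn] at hc
  have hv := one_le_pow' (v := v) hr
  have hv' := one_le_pow' (v := v') hr
  obtain ⟨A, hA⟩ : ∃ A : ℕ, A = r ^ (mx - u) * (r ^ v' - 1) := ⟨_, rfl⟩
  obtain ⟨A', hA'⟩ : ∃ A' : ℕ, A' = r ^ (mx - u') * (r ^ v - 1) := ⟨_, rfl⟩
  have hp1 : r ^ u * r ^ (mx - u) = r ^ mx := by
    rw [← pow_add, Nat.add_sub_cancel' hmx1]
  have hp2 : r ^ u' * r ^ (mx - u') = r ^ mx := by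
    rw [← pow_add, Nat.add_sub_cancel' hmx2]
  have hEA : E r u v * A = E r u' v' * A' := by
    rw [hA, hA']
    unfold E
    calc r ^ u * (r ^ v - 1) * (r ^ (mx - u) * (r ^ v' - 1))
        = (r ^ u * r ^ (mx - u)) * ((r ^ v - 1) * (r ^ v' - 1)) := by ring
      _ = (r ^ u' * r ^ (mx - u')) * ((r ^ v - 1) * (r ^ v' - 1)) := by rw [hp1, hp2]
      _ = _ := by ring
  have hE := E_pos (u := u) hr h.1
  have hE' := E_pos (u := u') hr h'.1
  have hAp : 0 < A := by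
    rw [hA]
    have h1 : r ^ 1 ≤ r ^ v' := Nat.pow_le_pow_right (by omega) h'.1
    rw [pow_one] at h1
    exact Nat.mul_pos (Nat.pow_pos (by omega)) (by omega)
  have hAle : A ≤ r ^ (u' + v' - mn) := by
    rw [hA, ← e1, pow_add]
    exact Nat.mul_le_mul_left _ (Nat.sub_le _ _)
  have hAle' : A' ≤ r ^ (u + v - mn) := by
    rw [hA', ← e2, pow_add]
    exact Nat.mul_le_mul_left _ (Nat.sub_le _ _)
  have hZ : P * A - P' * A' ≠ 0 := by
    intro h0
    apply hne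
    have h1 : ((E r u v : ℤ)) * A = (E r u' v' : ℤ) * A' := by exact_mod_cast hEA
    have h2 : ((E r u v : ℤ) * A) ≠ 0 := by positivity
    apply mul_right_cancel₀ h2
    calc P * (E r u' v' : ℤ) * ((E r u v : ℤ) * A) = (P * A) * ((E r u v : ℤ) * (E r u' v' : ℤ)) := by ring
      _ = (P' * A') * ((E r u v : ℤ) * (E r u' v' : ℤ)) := by
          have : P * A = P' * A' := by linarith
          rw [this]
      _ = P' * (E r u v : ℤ) * ((E r u' v' : ℤ) * A') := by ring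
      _ = _ := by rw [h1]
  have h1 := one_le_abs hZ
  have h2 : ((P * A - P' * A' : ℤ) : ℝ) = -((A : ℝ) * ((E r u v : ℝ) * x - P)) +
      (A' : ℝ) * ((E r u' v' : ℝ) * x - P') := by
    have h3 : (E r u v : ℝ) * A = (E r u' v' : ℝ) * A' := by exact_mod_cast hEA
    push_cast
    linear_combination x * h3
  have h3 : |((P * A - P' * A' : ℤ) : ℝ)| ≤ (A : ℝ) * |(E r u v : ℝ) * x - P| +
      (A' : ℝ) * |(E r u' v' : ℝ) * x - P'| := by
    rw [h2]
    refine le_trans (abs_add_le _ _) ?_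
    rw [abs_neg, abs_mul, abs_mul, abs_of_nonneg (show (0 : ℝ) ≤ (A : ℝ) from Nat.cast_nonneg A),
      abs_of_nonneg (show (0 : ℝ) ≤ (A' : ℝ) from Nat.cast_nonneg A')]
  have h4 := small hr h (A := (A : ℝ)) (u' + v' - mn) 1 (Nat.cast_nonneg _) (by exact_mod_cast hAle)
    (by omega)
  have h5 := small hr h' (A := (A' : ℝ)) (u + v - mn) 2 (Nat.cast_nonneg _) (by exact_mod_cast hAle')
    (by omega)
  linarith

theorem sameV (hr : 2 ≤ r) {N N' u v u' : ℕ} {P P' : ℤ} (h : Near r x N u v P)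
    (h' : Near r x N' u' v P') (hN' : 2 ≤ N') (hu : u < u')
    (hne : P * (E r u' v : ℤ) ≠ P' * (E r u v : ℤ)) : N + u ≤ u' + 1 := by
  by_contra hc
  push Not at hc
  have hp : r ^ u * r ^ (u' - u) = r ^ u' := by
    rw [← pow_add, Nat.add_sub_cancel' hu.le]
  have hE : E r u' v = r ^ (u' - u) * E r u v := by
    unfold E
    rw [← hp]
    ring
  have hZ : P * (r ^ (u' - u) : ℕ) - P' ≠ 0 := by
    intro h0
    apply hne
    rw [hE]
    push_cast
    push_cast at h0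
    linear_combination (E r u v : ℤ) * h0
  have h1 := one_le_abs hZ
  have h2 : ((P * (r ^ (u' - u) : ℕ) - P' : ℤ) : ℝ) = -(((r ^ (u' - u) : ℕ) : ℝ) *
      ((E r u v : ℝ) * x - P)) + 1 * ((E r u' v : ℝ) * x - P') := by
    rw [hE]
    push_cast
    ring
  have h3 : |((P * (r ^ (u' - u) : ℕ) - P' : ℤ) : ℝ)| ≤ ((r ^ (u' - u) : ℕ) : ℝ) *
      |(E r u v : ℝ) * x - P| + 1 * |(E r u' v : ℝ) * x - P'| := by
    rw [h2]
    refine le_trans (abs_add_le _ _) ?_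
    rw [abs_neg, abs_mul, abs_of_nonneg (show (0 : ℝ) ≤ ((r ^ (u' - u) : ℕ) : ℝ) from Nat.cast_nonneg _),
      one_mul, one_mul]
  have h4 := small hr h (A := ((r ^ (u' - u) : ℕ) : ℝ)) (u' - u) 2 (Nat.cast_nonneg _)
    (by push_cast; exact le_rfl) (by omega)
  have h5 := small hr h' (A := (1 : ℝ)) 0 2 zero_le_one (by rw [pow_zero]) (by omega)
  linarith

theorem sub (hr : 2 ≤ r) {N u1 v1 u2 v2 U d : ℕ} {P1 P2 : ℤ} (h1 : Near r x N u1 v1 P1)
    (h2 : Near r x N u2 v2 P2) (hU1 : u1 ≤ U) (hU2 : u2 ≤ U) (hv : v1 = v2 + d) (hd : 1 ≤ d)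
    (hN : U + d + 1 ≤ N) : ∃ P : ℤ, Near r x (N - U - d - 1) U d P := by
  have r2 : (2 : ℝ) ≤ r := by exact_mod_cast hr
  refine ⟨P1 * (r : ℤ) ^ (U - u1) - (r : ℤ) ^ d * (P2 * (r : ℤ) ^ (U - u2)), hd, ?_⟩
  have hp1 : (r : ℝ) ^ u1 * (r : ℝ) ^ (U - u1) = (r : ℝ) ^ U := by
    rw [← pow_add, Nat.add_sub_cancel' hU1]
  have hp2 : (r : ℝ) ^ u2 * (r : ℝ) ^ (U - u2) = (r : ℝ) ^ U := by
    rw [← pow_add, Nat.add_sub_cancel' hU2]
  have e : (E r U d : ℝ) * x - ((P1 * (r : ℤ) ^ (U - u1) - (r : ℤ) ^ d * (P2 * (r : ℤ) ^ (U - u2)) : ℤ) : ℝ) =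
      (r : ℝ) ^ (U - u1) * ((E r u1 v1 : ℝ) * x - P1) +
        -((r : ℝ) ^ d * (r : ℝ) ^ (U - u2) * ((E r u2 v2 : ℝ) * x - P2)) := by
    rw [E_cast hr, E_cast hr, E_cast hr, hv, pow_add]
    push_cast
    linear_combination (-(((r : ℝ) ^ v2 * (r : ℝ) ^ d - 1) * x)) * hp1 +
      ((r : ℝ) ^ d * ((r : ℝ) ^ v2 - 1) * x) * hp2
  rw [e]
  have hle1 : (r : ℝ) ^ (U - u1) ≤ (r : ℝ) ^ U := pow_le_pow_right₀ (by linarith) (Nat.sub_le _ _)
  have hle2 : (r : ℝ) ^ d * (r : ℝ) ^ (U - u2) ≤ (r : ℝ) ^ (U + d) := by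
    rw [← pow_add]
    exact pow_le_pow_right₀ (by linarith) (by omega)
  have hM : (r : ℝ) ^ (N - U - d - 1) * (r : ℝ) ^ (U + d + 1) = (r : ℝ) ^ N := by
    rw [← pow_add]
    congr 1
    omega
  have hq : 2 * (r : ℝ) ^ (U + d) ≤ (r : ℝ) ^ (U + d + 1) := by
    rw [pow_succ]
    have : 0 < (r : ℝ) ^ (U + d) := by positivity
    nlinarith
  have hUd : (r : ℝ) ^ U ≤ (r : ℝ) ^ (U + d) := pow_le_pow_right₀ (by linarith) (by omega)
  have a1 := abs_nonneg ((E r u1 v1 : ℝ) * x - P1)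
  have a2 := abs_nonneg ((E r u2 v2 : ℝ) * x - P2)
  have hab : |(r : ℝ) ^ (U - u1) * ((E r u1 v1 : ℝ) * x - P1) +
        -((r : ℝ) ^ d * (r : ℝ) ^ (U - u2) * ((E r u2 v2 : ℝ) * x - P2))| ≤
      (r : ℝ) ^ (U + d) * |(E r u1 v1 : ℝ) * x - P1| + (r : ℝ) ^ (U + d) * |(E r u2 v2 : ℝ) * x - P2| := by
    refine le_trans (abs_add_le _ _) ?_
    rw [abs_neg, abs_mul, abs_mul, abs_of_nonneg (by positivity : (0 : ℝ) ≤ (r : ℝ) ^ (U - u1)),
      abs_of_nonneg (by positivity : (0 : ℝ) ≤ (r : ℝ) ^ d * (r : ℝ) ^ (U - u2))]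
    exact add_le_add (mul_le_mul_of_nonneg_right (hle1.trans hUd) a1)
      (mul_le_mul_of_nonneg_right hle2 a2)
  have hpos : 0 < (r : ℝ) ^ (N - U - d - 1) := by positivity
  calc _ ≤ ((r : ℝ) ^ (U + d) * |(E r u1 v1 : ℝ) * x - P1| +
        (r : ℝ) ^ (U + d) * |(E r u2 v2 : ℝ) * x - P2|) * (r : ℝ) ^ (N - U - d - 1) :=
        mul_le_mul_of_nonneg_right hab hpos.le
    _ = (2 * (r : ℝ) ^ (U + d) * (r : ℝ) ^ (N - U - d - 1)) * |(E r u1 v1 : ℝ) * x - P1| / 2 +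
        (2 * (r : ℝ) ^ (U + d) * (r : ℝ) ^ (N - U - d - 1)) * |(E r u2 v2 : ℝ) * x - P2| / 2 := by ring
    _ ≤ (r : ℝ) ^ N * |(E r u1 v1 : ℝ) * x - P1| / 2 + (r : ℝ) ^ N * |(E r u2 v2 : ℝ) * x - P2| / 2 := by
        have hq2 : 2 * (r : ℝ) ^ (U + d) * (r : ℝ) ^ (N - U - d - 1) ≤ (r : ℝ) ^ N := by
          rw [← hM]
          nlinarith
        have b1 := mul_le_mul_of_nonneg_right hq2 a1
        have b2 := mul_le_mul_of_nonneg_right hq2 a2
        linarith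
    _ ≤ 1 := by
        have c1 := h1.2
        have c2 := h2.2
        linarith

/-- the contradiction from two fractions with small `u` -/
theorem final (hr : 2 ≤ r) {M t : ℕ}
    (hM : 10000 ≤ M) (ht : 1000 * t ≤ M)
    (H : ∀ N, M ≤ N → 10 * N ≤ 11 * M → 100 * N < 101 * W r x N)
    {N N' u v u' v' : ℕ} {P P' : ℤ} (h : Near r x N u v P) (h' : Near r x N' u' v' P')
    (hN : 100 * N + 200 ≥ 105 * M) (hN1 : 10 * N ≤ 11 * M) (hNN : N < N')
    (hu : u ≤ t + 1) (hu' : u' ≤ t + 1) (hw : u + v < u' + v')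
    (hW : W r x N = u + v) (hW' : W r x N' = u' + v')
    (hup : 100 * (u' + v') ≤ 101 * (N + 1 + t) + 100 + 100 * t) : False := by
  have hne := diff hr h h' hw hW'
  have hNear : Near r x N u' v' P' := h'.mono hr hNN.le
  have hWN := H N (by omega) hN1
  by_cases hv : v = v'
  · subst hv
    have := sameV hr h h' (by omega) (by omega) hne
    omega
  · obtain ⟨U, d, hU1, hU2, hUt, hd, hdv⟩ : ∃ U d : ℕ, u ≤ U ∧ u' ≤ U ∧ U ≤ t + 1 ∧ 1 ≤ d ∧
        (v = v' + d ∨ v' = v + d) := by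
      rcases lt_or_gt_of_ne hv with h1 | h1
      · exact ⟨t + 1, v' - v, hu, hu', le_rfl, by omega, Or.inr (by omega)⟩
      · exact ⟨t + 1, v - v', hu, hu', le_rfl, by omega, Or.inl (by omega)⟩
    have hdle : 100 * d ≤ 101 * (N + 1 + t) + 100 + 100 * t - 100 * (u + v) + 100 * (t + 1) := by
      omega
    have hlow : 100 * N < 101 * (u + v) := by omega
    have hD : 1000 * (U + d + 1) ≤ 25 * N + 7000 := by omega
    have hN2 : U + d + 1 ≤ N := by omega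
    obtain ⟨Q, hQ⟩ : ∃ Q : ℤ, Near r x (N - U - d - 1) U d Q := by
      rcases hdv with h1 | h1
      · exact sub hr h hNear hU1 hU2 h1 hd hN2
      · exact sub hr hNear h hU2 hU1 h1 hd hN2
    have h1 := W_le hQ
    have h2 := H (N - U - d - 1) (by omega) (by omega)
    omega

end GOOD_

open GOOD_

theorem good_proof (hP : Stmt_PIG) : Stmt_GOOD := by
  refine ⟨10000, ?_⟩
  intro r x hr n t M hW hM ht hn
  by_contra hc
  push Not at hc
  have H : ∀ N, M ≤ N → 10 * N ≤ 11 * M → 100 * N < 101 * W r x N := hc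
  have hJ : ∀ m, M ≤ m → 1000 * m ≤ 1080 * M + 4500 → ∃ J, m < J ∧ 100 * J ≤ 101 * (m + t) + 100 ∧
      W r x m < W r x J ∧ W r x (J - 1) = W r x m := by
    intro m hm hm2
    have h1 : W r x m < W r x (101 * (m + t) / 100 + 1) := by
      have h2 := H (101 * (m + t) / 100 + 1) (by omega) (by omega)
      have h3 := hW m (by omega)
      omega
    have hex : ∃ J, W r x m < W r x J := ⟨_, h1⟩
    classical
    obtain ⟨J, hJ1, hJ2⟩ : ∃ J, W r x m < W r x J ∧ ∀ k < J, ¬ (W r x m < W r x k) :=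
      ⟨Nat.find hex, Nat.find_spec hex, fun k hk => Nat.find_min hex hk⟩
    have hmJ : m < J := by
      by_contra h2
      push Not at h2
      have := W_mono (x := x) hP hr h2
      omega
    refine ⟨J, hmJ, ?_, hJ1, ?_⟩
    · by_contra h2
      push Not at h2
      exact hJ2 (101 * (m + t) / 100 + 1) (by omega) h1
    · have h2 := hJ2 (J - 1) (by omega)
      have h3 := W_mono (x := x) hP hr (show m ≤ J - 1 by omega)
      omega
  obtain ⟨m0, hm0a, hm0b⟩ : ∃ m0 : ℕ, 105 * M ≤ 100 * m0 ∧ 100 * m0 ≤ 105 * M + 100 :=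
    ⟨(105 * M + 99) / 100, by omega, by omega⟩
  obtain ⟨m1, a1, b1, c1, d1⟩ := hJ m0 (by omega) (by omega)
  obtain ⟨m2, a2, b2, c2, d2⟩ := hJ m1 (by omega) (by omega)
  obtain ⟨m3, a3, b3, c3, d3⟩ := hJ m2 (by omega) (by omega)
  obtain ⟨u0, v0, P0, e0, f0⟩ := (hP r x hr (m1 - 1)).2
  obtain ⟨u1, v1, P1, e1, f1⟩ := (hP r x hr (m2 - 1)).2
  obtain ⟨u2, v2, P2, e2, f2⟩ := (hP r x hr (m3 - 1)).2
  obtain ⟨u3, v3, P3, e3, f3⟩ := (hP r x hr m3).2
  have w1 := hW m1 (by omega)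
  have w2 := hW m2 (by omega)
  have w3 := hW m3 (by omega)
  have n01 := diff hr f0 f1 (by omega) e1.symm
  have n12 := diff hr f1 f2 (by omega) e2.symm
  have n23 := diff hr f2 f3 (by omega) e3.symm
  have k01 := minb hr f0 f1 (by omega) (by omega) n01
  have k12 := minb hr f1 f2 (by omega) (by omega) n12
  have k23 := minb hr f2 f3 (by omega) (by omega) n23
  have l01 : u0 ≤ t + 1 ∨ u1 ≤ t + 1 := by
    rcases min_choice u0 u1 with h | h <;> rw [h] at k01 <;> omega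
  have l12 : u1 ≤ t + 1 ∨ u2 ≤ t + 1 := by
    rcases min_choice u1 u2 with h | h <;> rw [h] at k12 <;> omega
  have l23 : u2 ≤ t + 1 ∨ u3 ≤ t + 1 := by
    rcases min_choice u2 u3 with h | h <;> rw [h] at k23 <;> omega
  by_cases hu1 : u1 ≤ t + 1
  · rcases l23 with h2 | h3
    · exact final hr hM ht H f1 f2 (by omega) (by omega) (by omega) hu1 h2 (by omega) e1.symm e2.symm
        (by omega)
    · exact final hr hM ht H f1 f3 (by omega) (by omega) (by omega) hu1 h3 (by omega) e1.symm e3.symm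
        (by omega)
  · have hu0 : u0 ≤ t + 1 := by
      rcases l01 with h | h
      · exact h
      · exact absurd h hu1
    have hu2 : u2 ≤ t + 1 := by
      rcases l12 with h | h
      · exact absurd h hu1
      · exact h
    exact final hr hM ht H f0 f2 (by omega) (by omega) (by omega) hu0 hu2 (by omega) e0.symm e2.symm
      (by omega)

end Pool.Agent.TWB
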