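import Pool.Agent.TWB.Stmts

/-!
# HYP: small block complexities give small `W` at all levels
-/

set_option autoImplicit false

namespace Pool.Agent.TWB

open Filter

namespace HYP_

theorem blk_add (hMH : Stmt_MH) {r : ℕ} {x : ℝ} (hr : 2 ≤ r) (hx : Irrational x) (m k : ℕ) :
    blk r x m + k ≤ blk r x (m + k) := by
  induction k with
  | zero => simp
  | succ k ih =>
    have h := hMH r x hr hx (m + k)
    have e : m + (k + 1) = m + k + 1 := by ring
    rw [e]
    omega

theorem one (hPIG : Stmt_PIG) (hMH : Stmt_MH) {r s : ℕ} {x y : ℝ} (hr : 2 ≤ r) (hs : 2 ≤ s)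
    (hx : Irrational x) (hy : Irrational y) {n t : ℕ} (h : blk r x n + blk s y n ≤ 2 * n + t) :
    ∀ m ≤ n, W r x m ≤ m + t := by
  intro m hm
  have h1 := blk_add hMH hs hy 0 n
  rw [zero_add] at h1
  have h2 := blk_add hMH hr hx m (n - m)
  rw [Nat.add_sub_cancel' hm] at h2
  have h3 := (hPIG r x hr m).1
  omega

end HYP_

theorem hyp_proof (hPIG : Stmt_PIG) (hMH : Stmt_MH) : Stmt_HYP := by
  intro r s x y hr hs hx hy n t h
  exact ⟨HYP_.one hPIG hMH hr hs hx hy h,
    HYP_.one hPIG hMH hs hr hy hx (by rw [add_comm]; exact h)⟩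

end Pool.Agent.TWB
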