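import Pool.Agent.TWB.Defs

/-!
# Kit
-/

set_option autoImplicit false

namespace Pool.Agent.TWB

lemma one_le_pow' {r v : ℕ} (hr : 2 ≤ r) : 1 ≤ r ^ v := Nat.one_le_pow _ _ (by omega)

lemma E_pos {r u v : ℕ} (hr : 2 ≤ r) (hv : 1 ≤ v) : 0 < E r u v := by
  unfold E
  have h1 : r ^ 1 ≤ r ^ v := Nat.pow_le_pow_right (by omega) hv
  have h2 : 0 < r ^ u := Nat.pow_pos (by omega)
  exact Nat.mul_pos h2 (by rw [pow_one] at h1; omega)

lemma E_lt {r u v : ℕ} (hr : 2 ≤ r) : E r u v < r ^ (u + v) := by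
  unfold E
  rw [pow_add]
  exact Nat.mul_lt_mul_of_pos_left (by have := one_le_pow' (v := v) hr; omega)
    (Nat.pow_pos (by omega))

lemma pow_le_two_E {r u v : ℕ} (hr : 2 ≤ r) (hv : 1 ≤ v) : r ^ (u + v) ≤ 2 * E r u v := by
  unfold E
  have h1 : r ^ 1 ≤ r ^ v := Nat.pow_le_pow_right (by omega) hv
  rw [pow_one] at h1
  rw [pow_add]
  have h2 : r ^ v ≤ 2 * (r ^ v - 1) := by omega
  calc r ^ u * r ^ v ≤ r ^ u * (2 * (r ^ v - 1)) := Nat.mul_le_mul_left _ h2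
    _ = _ := by ring

lemma pow_le_E {r u v : ℕ} (hr : 2 ≤ r) (hv : 1 ≤ v) : r ^ (u + v - 1) ≤ E r u v := by
  have h1 := pow_le_two_E (u := u) hr hv
  have h2 : r ^ (u + v) = r ^ (u + v - 1) * r := by
    rw [← pow_succ]
    congr 1
    omega
  have h3 : r ^ (u + v - 1) * 2 ≤ r ^ (u + v - 1) * r := Nat.mul_le_mul_left _ hr
  omega

lemma E_le_of_lt {r u v u' v' : ℕ} (hr : 2 ≤ r) (hv' : 1 ≤ v') (h : u + v < u' + v') :
    E r u v ≤ E r u' v' := by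
  calc E r u v ≤ r ^ (u + v) := (E_lt hr).le
    _ ≤ r ^ (u' + v' - 1) := Nat.pow_le_pow_right (by omega) (by omega)
    _ ≤ _ := pow_le_E hr hv'

lemma E_cast {r u v : ℕ} (hr : 2 ≤ r) : (E r u v : ℝ) = (r : ℝ) ^ u * ((r : ℝ) ^ v - 1) := by
  unfold E
  push_cast [Nat.cast_sub (one_le_pow' (v := v) hr)]
  ring

lemma Near.mono {r : ℕ} {x : ℝ} {m m' u v : ℕ} {P : ℤ} (hr : 2 ≤ r) (hm : m ≤ m')
    (h : Near r x m' u v P) : Near r x m u v P := by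
  refine ⟨h.1, le_trans ?_ h.2⟩
  refine mul_le_mul_of_nonneg_left ?_ (abs_nonneg _)
  exact pow_le_pow_right₀ (by have : (2 : ℝ) ≤ r := by exact_mod_cast hr
                              linarith) hm

lemma W_le {r : ℕ} {x : ℝ} {m u v : ℕ} {P : ℤ} (h : Near r x m u v P) : W r x m ≤ u + v :=
  Nat.sInf_le ⟨u, v, P, rfl, h⟩

lemma W_zero_le {r : ℕ} {x : ℝ} (_hr : 2 ≤ r) : W r x 0 ≤ 1 := by
  have h : Near r x 0 0 1 ⌊(E r 0 1 : ℝ) * x⌋ := by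
    refine ⟨le_rfl, ?_⟩
    rw [pow_zero, mul_one, abs_of_nonneg (by linarith [Int.floor_le ((E r 0 1 : ℝ) * x)])]
    linarith [Int.lt_floor_add_one ((E r 0 1 : ℝ) * x)]
  exact W_le h

end Pool.Agent.TWB
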