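import Pool.Agent.TWB.Stmts

/-!
# TWB, module LVL
-/

set_option autoImplicit false

namespace Pool.Agent.TWB

namespace LVL_

lemma W_mono (hPIG : Stmt_PIG) {r : ℕ} {x : ℝ} (hr : 2 ≤ r) {m m' : ℕ} (h : m ≤ m') :
    W r x m ≤ W r x m' := by
  obtain ⟨-, u, v, P, huv, hN⟩ := hPIG r x hr m'
  rw [← huv]
  exact W_le (hN.mono hr h)

/-- two different fractions `a/b ≠ P'/E'` are at distance at least `1/(b E')` -/
lemma one_le_diff {a P' : ℤ} {b E' : ℕ} (hb : 0 < b) (hE' : 0 < E')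
    (hne : (P' : ℝ) / E' ≠ (a : ℝ) / b) (x : ℝ) :
    1 ≤ |x - a / b| * (b * E') + |x - P' / E'| * (b * E') := by
  have hb' : (0 : ℝ) < b := by exact_mod_cast hb
  have hE'' : (0 : ℝ) < E' := by exact_mod_cast hE'
  have hint : P' * (b : ℤ) - a * (E' : ℤ) ≠ 0 := by
    intro h0
    apply hne
    rw [div_eq_div_iff hE''.ne' hb'.ne']
    have h1 : P' * (b : ℤ) = a * (E' : ℤ) := by linarith
    exact_mod_cast h1
  have h1 : (1 : ℝ) ≤ |((P' * (b : ℤ) - a * (E' : ℤ) : ℤ) : ℝ)| := by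
    rw [← Int.cast_abs]
    exact_mod_cast Int.one_le_abs hint
  have h2 : ((P' * (b : ℤ) - a * (E' : ℤ) : ℤ) : ℝ)
      = (x - a / b) * (b * E') - (x - P' / E') * (b * E') := by
    push_cast
    field_simp
    ring
  rw [h2] at h1
  have h3 := abs_sub ((x - a / b) * (b * E')) ((x - P' / E') * (b * E'))
  rw [abs_mul (x - (a : ℝ) / b), abs_mul (x - (P' : ℝ) / E'), abs_of_pos (mul_pos hb' hE'')] at h3
  linarith

end LVL_

open LVL_ in
theorem lvl_proof (hPIG : Stmt_PIG) : Stmt_LVL := by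
  intro r x hr n t N hn hNn hW
  have hr1 : (1 : ℝ) ≤ r := by
    have : (2 : ℝ) ≤ r := by exact_mod_cast hr
    linarith
  have hr0 : (0 : ℝ) < r := by linarith
  obtain ⟨-, u, v, P, huv, hNear⟩ := hPIG r x hr N
  have hEpos : 0 < E r u v := E_pos hr hNear.1
  have hE0 : (0 : ℝ) < (E r u v : ℝ) := by exact_mod_cast hEpos
  -- lowest terms
  set g : ℕ := Int.gcd P (E r u v : ℤ) with hg
  have hgpos : 0 < g := Int.gcd_pos_of_ne_zero_right _ (by exact_mod_cast hEpos.ne')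
  obtain ⟨a, ha⟩ : (g : ℤ) ∣ P := Int.gcd_dvd_left _ _
  have hgE : g ∣ E r u v := by
    have h1 : (g : ℤ) ∣ (E r u v : ℤ) := Int.gcd_dvd_right _ _
    exact_mod_cast h1
  obtain ⟨b, hb⟩ := hgE
  have hbpos : 0 < b := by
    rcases Nat.eq_zero_or_pos b with h0 | h0
    · rw [h0, Nat.mul_zero] at hb
      omega
    · exact h0
  have hcop : IsCoprime a (b : ℤ) := by
    rw [Int.isCoprime_iff_gcd_eq_one]
    have h1 : Int.gcd ((g : ℤ) * a) ((g : ℤ) * b) = g * Int.gcd a b := by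
      rw [Int.gcd_mul_left]
      simp
    have h2 : (E r u v : ℤ) = (g : ℤ) * b := by exact_mod_cast hb
    have h3 : g = g * Int.gcd a b := by
      rw [← h1, ← ha, ← h2]
    have h4 : g * 1 = g * Int.gcd a b := by omega
    exact (Nat.eq_of_mul_eq_mul_left hgpos h4).symm
  have hb0 : (0 : ℝ) < b := by exact_mod_cast hbpos
  have hg0 : (0 : ℝ) < g := by exact_mod_cast hgpos
  have hPE : (P : ℝ) / (E r u v : ℝ) = (a : ℝ) / b := by
    rw [ha, hb]
    push_cast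
    rw [mul_div_mul_left _ _ hg0.ne']
  have hdist : |x - a / b| * (E r u v : ℝ) = |(E r u v : ℝ) * x - P| := by
    rw [← hPE]
    have h1 : (E r u v : ℝ) * x - P = (x - P / (E r u v : ℝ)) * (E r u v : ℝ) := by
      field_simp
    rw [h1, abs_mul, abs_of_pos hE0]
  have hdist1 : |x - a / b| * (E r u v : ℝ) * (r : ℝ) ^ N ≤ 1 := by
    rw [hdist]
    exact hNear.2
  have hbE : b ≤ E r u v := Nat.le_of_dvd hEpos ⟨g, by rw [hb]; ring⟩
  refine ⟨u, v, a, b, hNear.1, huv, hbpos, hcop, ⟨g, by rw [hb]; ring⟩, hdist1, ?_⟩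
  -- the least level with value w
  classical
  have hex : ∃ m, W r x N ≤ W r x m := ⟨N, le_rfl⟩
  set nb := Nat.find hex with hnb
  have hnb1 : W r x N ≤ W r x nb := Nat.find_spec hex
  have hnbN : nb ≤ N := Nat.find_min' hex le_rfl
  have hnb0 : nb ≠ 0 := by
    intro h0
    rw [h0] at hnb1
    have := W_zero_le (x := x) hr
    omega
  obtain ⟨N1, hN1⟩ : ∃ N1, nb = N1 + 1 := ⟨nb - 1, by omega⟩
  have hlt : W r x N1 < W r x N := by
    have := Nat.find_min hex (m := N1) (by omega)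
    omega
  obtain ⟨-, u', v', P', huv', hNear'⟩ := hPIG r x hr N1
  have hE'pos : 0 < E r u' v' := E_pos hr hNear'.1
  have hE'0 : (0 : ℝ) < (E r u' v' : ℝ) := by exact_mod_cast hE'pos
  have hEE : E r u' v' ≤ E r u v := E_le_of_lt hr hNear.1 (by omega)
  have hEE' : (E r u' v' : ℝ) ≤ (E r u v : ℝ) := by exact_mod_cast hEE
  have hne : (P' : ℝ) / (E r u' v' : ℝ) ≠ (a : ℝ) / b := by
    intro heq
    have h1 : Near r x N u' v' P' := by
      refine ⟨hNear'.1, ?_⟩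
      have h2 : (E r u' v' : ℝ) * x - P' = (x - a / b) * (E r u' v' : ℝ) := by
        rw [← heq]
        field_simp
      rw [h2, abs_mul, abs_of_pos hE'0]
      calc |x - a / b| * (E r u' v' : ℝ) * (r : ℝ) ^ N
          ≤ |x - a / b| * (E r u v : ℝ) * (r : ℝ) ^ N := by gcongr
        _ ≤ 1 := hdist1
    have := W_le h1
    omega
  have h1 := one_le_diff hbpos hE'pos hne x
  have hdist' : |x - P' / (E r u' v' : ℝ)| * (E r u' v' : ℝ) * (r : ℝ) ^ N1 ≤ 1 := by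
    have h2 : (E r u' v' : ℝ) * x - P' = (x - P' / (E r u' v' : ℝ)) * (E r u' v' : ℝ) := by
      field_simp
    have h3 := hNear'.2
    rw [h2, abs_mul, abs_of_pos hE'0] at h3
    exact h3
  have hN1N : N1 ≤ N := by omega
  have hpw : (r : ℝ) ^ N1 ≤ (r : ℝ) ^ N := pow_le_pow_right₀ hr1 hN1N
  have hpw0 : (0 : ℝ) < (r : ℝ) ^ N1 := by positivity
  -- multiply by r^N1
  have hA : |x - a / b| * (b * (E r u' v' : ℝ)) * (r : ℝ) ^ N1 ≤ b := by
    calc |x - a / b| * (b * (E r u' v' : ℝ)) * (r : ℝ) ^ N1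
        ≤ |x - a / b| * (b * (E r u v : ℝ)) * (r : ℝ) ^ N := by gcongr
      _ = b * (|x - a / b| * (E r u v : ℝ) * (r : ℝ) ^ N) := by ring
      _ ≤ b * 1 := by gcongr
      _ = b := mul_one _
  have hB : |x - P' / (E r u' v' : ℝ)| * (b * (E r u' v' : ℝ)) * (r : ℝ) ^ N1 ≤ b := by
    calc |x - P' / (E r u' v' : ℝ)| * (b * (E r u' v' : ℝ)) * (r : ℝ) ^ N1
        = b * (|x - P' / (E r u' v' : ℝ)| * (E r u' v' : ℝ) * (r : ℝ) ^ N1) := by ring
      _ ≤ b * 1 := by gcongr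
      _ = b := mul_one _
  have hC : (r : ℝ) ^ N1 ≤ 2 * b := by
    calc (r : ℝ) ^ N1 = 1 * (r : ℝ) ^ N1 := (one_mul _).symm
      _ ≤ (|x - a / b| * (b * (E r u' v' : ℝ)) + |x - P' / (E r u' v' : ℝ)| * (b * (E r u' v' : ℝ)))
          * (r : ℝ) ^ N1 := by gcongr
      _ ≤ 2 * b := by
        rw [add_mul]
        linarith
  have hC' : r ^ N1 ≤ 2 * b := by exact_mod_cast hC
  have hw : W r x N ≤ N1 + (t + 1) := by
    have h5 := hn nb (by omega)
    have h6 : W r x nb ≤ W r x N := W_mono hPIG hr hnbN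
    omega
  calc r ^ (W r x N) ≤ r ^ (N1 + (t + 1)) := Nat.pow_le_pow_right (by omega) hw
    _ = r ^ N1 * r ^ (t + 1) := pow_add _ _ _
    _ ≤ 2 * b * r ^ (t + 1) := Nat.mul_le_mul_right _ hC'

end Pool.Agent.TWB
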