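import Pool.Agent.TWB.Stmts

/-!
# Module MH (Morse-Hedlund)
-/

set_option autoImplicit false

namespace Pool.Agent.TWB

namespace MH_

/-- the block of `n` digits after the position `m` -/
noncomputable def B (r : ℕ) (x : ℝ) (m n : ℕ) : Fin n → ℤ := fun j => dig r x (m + 1 + j)

/-- the set of blocks -/
def S (r : ℕ) (x : ℝ) (n : ℕ) : Set (Fin n → ℤ) := Set.range (fun m => B r x m n)

lemma blk_eq (r : ℕ) (x : ℝ) (n : ℕ) : blk r x n = (S r x n).ncard := by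
  unfold blk
  congr 1
  ext w
  constructor
  · rintro ⟨m, hm⟩
    exact ⟨m, (funext hm).symm⟩
  · rintro ⟨m, rfl⟩
    exact ⟨m, fun j => rfl⟩

lemma dig_mem {r : ℕ} (hr : 2 ≤ r) (x : ℝ) (i : ℕ) : dig r x i ∈ Set.Icc (0 : ℤ) r := by
  unfold dig
  have h : (0 : ℤ) < r := by exact_mod_cast (by omega : 0 < r)
  exact ⟨Int.emod_nonneg _ h.ne', (Int.emod_lt_of_pos _ h).le⟩

lemma S_finite {r : ℕ} (hr : 2 ≤ r) (x : ℝ) (n : ℕ) : (S r x n).Finite := by
  have h : (Set.pi Set.univ (fun _ : Fin n => Set.Icc (0 : ℤ) r)).Finite :=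
    Set.Finite.pi fun _ => Set.finite_Icc _ _
  refine h.subset ?_
  rintro w ⟨m, rfl⟩
  intro j _
  exact dig_mem hr x _

lemma image_S (r : ℕ) (x : ℝ) (n : ℕ) :
    (fun w : Fin (n + 1) → ℤ => fun j : Fin n => w j.castSucc) '' S r x (n + 1) = S r x n := by
  ext w
  constructor
  · rintro ⟨_, ⟨m, rfl⟩, rfl⟩
    exact ⟨m, rfl⟩
  · rintro ⟨m, rfl⟩
    exact ⟨_, ⟨m, rfl⟩, rfl⟩

/-- `⌊x r^(i+1)⌋ = r ⌊x r^i⌋ + dig (i+1)` -/
lemma floor_succ {r : ℕ} (hr : 2 ≤ r) (x : ℝ) (i : ℕ) :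
    ⌊x * (r : ℝ) ^ (i + 1)⌋ = r * ⌊x * (r : ℝ) ^ i⌋ + dig r x (i + 1) := by
  unfold dig
  have hrpos : (0 : ℤ) < r := by exact_mod_cast (by omega : 0 < r)
  have hrr : (0 : ℝ) < r := by exact_mod_cast (by omega : 0 < r)
  have hdiv : ⌊x * (r : ℝ) ^ (i + 1)⌋ / (r : ℤ) = ⌊x * (r : ℝ) ^ i⌋ := by
    rw [← Int.floor_div_natCast]
    congr 1
    rw [pow_succ]
    field_simp
  have h := Int.mul_ediv_add_emod ⌊x * (r : ℝ) ^ (i + 1)⌋ (r : ℤ)
  rw [hdiv] at h
  exact h.symm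

/-- eventually periodic digits: `x` is rational -/
lemma rational {r : ℕ} (hr : 2 ≤ r) (x : ℝ) (a p : ℕ) (hp : 0 < p)
    (h : ∀ k : ℕ, dig r x (a + k + 1 + p) = dig r x (a + k + 1)) : ¬ Irrational x := by
  have hr1 : (1 : ℝ) < r := by exact_mod_cast (by omega : 1 < r)
  have hrp : (1 : ℝ) < (r : ℝ) ^ p := one_lt_pow₀ hr1 hp.ne'
  have hD : ∀ k : ℕ, ⌊x * (r : ℝ) ^ (a + k + p)⌋ - ⌊x * (r : ℝ) ^ (a + k)⌋ =
      (r : ℤ) ^ k * (⌊x * (r : ℝ) ^ (a + p)⌋ - ⌊x * (r : ℝ) ^ a⌋) := by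
    intro k
    induction k with
    | zero => rw [pow_zero, one_mul]; rfl
    | succ k ih =>
      have e1 : a + (k + 1) + p = a + k + p + 1 := by ring
      have e2 : a + (k + 1) = a + k + 1 := by ring
      rw [e1, e2, floor_succ hr, floor_succ hr]
      have h1 : dig r x (a + k + p + 1) = dig r x (a + k + 1) := by
        rw [← h k]
        congr 1
        ring
      rw [h1, pow_succ]
      linear_combination (r : ℤ) * ih
  set Δ : ℤ := ⌊x * (r : ℝ) ^ (a + p)⌋ - ⌊x * (r : ℝ) ^ a⌋ with hΔ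
  have hbound : ∀ k : ℕ, |(Δ : ℝ) - x * (r : ℝ) ^ a * ((r : ℝ) ^ p - 1)| * (r : ℝ) ^ k ≤ 1 := by
    intro k
    have hk : (0 : ℝ) < (r : ℝ) ^ k := by positivity
    have h1 : ((⌊x * (r : ℝ) ^ (a + k + p)⌋ : ℝ)) - ⌊x * (r : ℝ) ^ (a + k)⌋ =
        (r : ℝ) ^ k * Δ := by
      have := hD k
      exact_mod_cast this
    have h2 : (Δ : ℝ) - x * (r : ℝ) ^ a * ((r : ℝ) ^ p - 1) =
        ((r : ℝ) ^ k * Δ - (x * (r : ℝ) ^ (a + k + p) - x * (r : ℝ) ^ (a + k))) / (r : ℝ) ^ k := by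
      rw [eq_div_iff hk.ne']
      rw [pow_add, pow_add]
      ring
    rw [h2, ← h1, abs_div, abs_of_pos hk, div_mul_cancel₀ _ hk.ne']
    have f1 := Int.floor_le (x * (r : ℝ) ^ (a + k + p))
    have f2 := Int.lt_floor_add_one (x * (r : ℝ) ^ (a + k + p))
    have f3 := Int.floor_le (x * (r : ℝ) ^ (a + k))
    have f4 := Int.lt_floor_add_one (x * (r : ℝ) ^ (a + k))
    rw [abs_le]
    constructor <;> linarith
  have hzero : (Δ : ℝ) - x * (r : ℝ) ^ a * ((r : ℝ) ^ p - 1) = 0 := by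
    by_contra hne
    have hpos : 0 < |(Δ : ℝ) - x * (r : ℝ) ^ a * ((r : ℝ) ^ p - 1)| := abs_pos.2 hne
    obtain ⟨k, hk⟩ := pow_unbounded_of_one_lt
      (1 / |(Δ : ℝ) - x * (r : ℝ) ^ a * ((r : ℝ) ^ p - 1)|) hr1
    have h1 := hbound k
    rw [div_lt_iff₀ hpos] at hk
    linarith
  have hE : (r : ℝ) ^ a * ((r : ℝ) ^ p - 1) ≠ 0 :=
    mul_ne_zero (by positivity) (by linarith)
  have hx : x = ((Δ : ℚ) / ((r : ℚ) ^ a * ((r : ℚ) ^ p - 1)) : ℚ) := by
    push_cast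
    rw [eq_div_iff hE]
    linarith
  rw [hx]
  exact Rat.not_irrational _

end MH_

open MH_ in
theorem mh_proof : Stmt_MH := by
  intro r x hr hx n
  by_contra hcon
  push Not at hcon
  rw [blk_eq, blk_eq] at hcon
  have hle : (S r x (n + 1)).ncard ≤ (S r x n).ncard := by omega
  rw [← image_S r x n] at hle
  have heq := le_antisymm (Set.ncard_image_le (S_finite hr x (n + 1))
    (f := fun w : Fin (n + 1) → ℤ => fun j : Fin n => w j.castSucc)) hle
  have hinj := (Set.ncard_image_iff (S_finite hr x (n + 1))).1 heq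
  have hext : ∀ m m', B r x m n = B r x m' n → B r x m (n + 1) = B r x m' (n + 1) := by
    intro m m' h
    exact hinj ⟨m, rfl⟩ ⟨m', rfl⟩ h
  have hnext : ∀ m m', B r x m n = B r x m' n → B r x (m + 1) n = B r x (m' + 1) n := by
    intro m m' h
    have h1 := hext m m' h
    funext j
    have h2 := congrFun h1 j.succ
    unfold B at h2 ⊢
    rw [Fin.val_succ] at h2
    have e1 : m + 1 + 1 + (j : ℕ) = m + 1 + ((j : ℕ) + 1) := by ring
    have e2 : m' + 1 + 1 + (j : ℕ) = m' + 1 + ((j : ℕ) + 1) := by ring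
    rw [e1, e2]
    exact h2
  have hall : ∀ k m m', B r x m n = B r x m' n → B r x (m + k) n = B r x (m' + k) n := by
    intro k
    induction k with
    | zero => intro m m' h; exact h
    | succ k ih =>
      intro m m' h
      exact hnext _ _ (ih m m' h)
  have hdig : ∀ k m m', B r x m n = B r x m' n →
      dig r x (m + k + 1 + n) = dig r x (m' + k + 1 + n) := by
    intro k m m' h
    have h1 := hext _ _ (hall k m m' h)
    have h2 := congrFun h1 (Fin.last n)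
    exact h2
  -- pigeonhole
  obtain ⟨m, m', hne, hmm⟩ : ∃ m m' : ℕ, m ≠ m' ∧ B r x m n = B r x m' n := by
    have hfin := S_finite hr x n
    haveI : Finite (S r x n) := hfin
    obtain ⟨a, b, hab, h⟩ := Finite.exists_ne_map_eq_of_infinite
      (fun m : ℕ => (⟨B r x m n, m, rfl⟩ : S r x n))
    exact ⟨a, b, hab, congrArg Subtype.val h⟩
  wlog hlt : m < m' generalizing m m' with H
  · exact H m' m hne.symm hmm.symm (by omega)
  refine rational hr x (m + n) (m' - m) (by omega) (fun k => ?_) hx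
  have h1 := hdig k m m' hmm
  have e1 : m + n + k + 1 + (m' - m) = m' + k + 1 + n := by omega
  have e2 : m + n + k + 1 = m + k + 1 + n := by omega
  rw [e1, e2, h1]

end Pool.Agent.TWB
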