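import Pool.Agent.TWB.Stmts

/-!
# MW: `m ≤ μ W(m) + C`
-/

set_option autoImplicit false

namespace Pool.Agent.TWB

theorem mw_proof (h1 : Stmt_PIG) : Stmt_MW := by
  intro x μ r hr hμ hM
  obtain ⟨c, hc, hq⟩ := hM
  have hr2 : (2 : ℝ) ≤ r := by exact_mod_cast hr
  have hr0 : (0 : ℝ) < r := by linarith
  have hr1 : (1 : ℝ) ≤ r := by linarith
  obtain ⟨C, hC⟩ := pow_unbounded_of_one_lt (1 / c) (by linarith : (1 : ℝ) < r)
  refine ⟨C, fun m => ?_⟩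
  obtain ⟨_, u, v, P, huv, hN⟩ := h1 r x hr m
  obtain ⟨hv, hn⟩ := hN
  have hE : 0 < E r u v := E_pos hr hv
  have hER : (0 : ℝ) < (E r u v : ℝ) := by exact_mod_cast hE
  have hlt : (E r u v : ℝ) ≤ (r : ℝ) ^ (W r x m) := by
    rw [← huv]
    exact_mod_cast (E_lt (u := u) (v := v) hr).le
  have h2 := hq (E r u v) P hE
  obtain ⟨ν, rfl⟩ : ∃ ν, μ = ν + 1 := ⟨μ - 1, by omega⟩
  have h3 : |x - P / (E r u v : ℝ)| * (E r u v : ℝ) ^ (ν + 1) =
      |(E r u v : ℝ) * x - P| * (E r u v : ℝ) ^ ν := by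
    have : (E r u v : ℝ) * x - P = (E r u v : ℝ) * (x - P / (E r u v : ℝ)) := by
      field_simp
    rw [this, abs_mul, abs_of_pos hER, pow_succ]
    ring
  rw [h3] at h2
  have h4 : (E r u v : ℝ) ^ ν ≤ (r : ℝ) ^ (W r x m * ν) := by
    rw [pow_mul]
    exact pow_le_pow_left₀ hER.le hlt ν
  have h5 : c * (r : ℝ) ^ m ≤ (r : ℝ) ^ (W r x m * ν) := by
    calc c * (r : ℝ) ^ m ≤ (|(E r u v : ℝ) * x - P| * (E r u v : ℝ) ^ ν) * (r : ℝ) ^ m :=
          mul_le_mul_of_nonneg_right h2 (by positivity)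
      _ = (|(E r u v : ℝ) * x - P| * (r : ℝ) ^ m) * (E r u v : ℝ) ^ ν := by ring
      _ ≤ 1 * (E r u v : ℝ) ^ ν := mul_le_mul_of_nonneg_right hn (by positivity)
      _ ≤ _ := by rw [one_mul]; exact h4
  have h6 : (r : ℝ) ^ m < (r : ℝ) ^ (W r x m * ν + C + 0) ∨
      (r : ℝ) ^ m ≤ (r : ℝ) ^ (W r x m * ν + C) := by
    right
    have h7 : (r : ℝ) ^ m ≤ (1 / c) * (r : ℝ) ^ (W r x m * ν) := by
      rw [div_mul_eq_mul_div, one_mul, le_div_iff₀ hc]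
      linarith [h5, mul_comm c ((r : ℝ) ^ m)]
    calc (r : ℝ) ^ m ≤ (1 / c) * (r : ℝ) ^ (W r x m * ν) := h7
      _ ≤ (r : ℝ) ^ C * (r : ℝ) ^ (W r x m * ν) :=
          mul_le_mul_of_nonneg_right hC.le (by positivity)
      _ = _ := by rw [pow_add]; ring
  have h8 : (r : ℝ) ^ m ≤ (r : ℝ) ^ (W r x m * ν + C) := by
    rcases h6 with h | h
    · simpa using h.le
    · exact h
  have h9 : m ≤ W r x m * ν + C := (pow_le_pow_iff_right₀ (by linarith : (1 : ℝ) < r)).1 h8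
  have h10 : W r x m * ν ≤ (ν + 1) * W r x m := by
    rw [mul_comm]
    exact Nat.mul_le_mul_right _ (by omega)
  omega

end Pool.Agent.TWB
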