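import Pool.Agent.TWB.Stmts

/-!
# PIG: two equal blocks give a good approximation
-/

set_option autoImplicit false

namespace Pool.Agent.TWB

namespace PIG_

lemma floor_step {r : ℕ} (hr : 2 ≤ r) (x : ℝ) (i : ℕ) :
    ⌊x * (r : ℝ) ^ (i + 1)⌋ = r * ⌊x * (r : ℝ) ^ i⌋ + dig r x (i + 1) := by
  unfold dig
  have hr0 : (r : ℝ) ≠ 0 := by
    have : (2 : ℝ) ≤ r := by exact_mod_cast hr
    linarith
  have h1 : x * (r : ℝ) ^ i = x * (r : ℝ) ^ (i + 1) / r := by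
    rw [pow_succ]
    field_simp
  have h2 : ⌊x * (r : ℝ) ^ i⌋ = ⌊x * (r : ℝ) ^ (i + 1)⌋ / (r : ℤ) := by
    rw [h1]
    exact Int.floor_div_natCast _ _
  rw [h2]
  exact (Int.mul_ediv_add_emod _ _).symm

lemma same {r : ℕ} (hr : 2 ≤ r) (x : ℝ) (j j' m : ℕ)
    (h : ∀ i : ℕ, i < m → dig r x (j + 1 + i) = dig r x (j' + 1 + i)) :
    ⌊x * (r : ℝ) ^ (j + m)⌋ - (r : ℤ) ^ m * ⌊x * (r : ℝ) ^ j⌋ =
      ⌊x * (r : ℝ) ^ (j' + m)⌋ - (r : ℤ) ^ m * ⌊x * (r : ℝ) ^ j'⌋ := by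
  induction m with
  | zero => simp
  | succ m ih =>
    have h1 := ih (fun i hi => h i (by omega))
    have h2 := h m (by omega)
    have e1 := floor_step hr x (j + m)
    have e2 := floor_step hr x (j' + m)
    have a1 : j + (m + 1) = j + m + 1 := by omega
    have a2 : j' + (m + 1) = j' + m + 1 := by omega
    have a3 : j + 1 + m = j + m + 1 := by omega
    have a4 : j' + 1 + m = j' + m + 1 := by omega
    rw [a3, a4] at h2
    rw [a1, a2, e1, e2, h2]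
    have e3 : (r : ℤ) ^ (m + 1) = r * (r : ℤ) ^ m := by ring
    rw [e3]
    linear_combination (r : ℤ) * h1

lemma finite_blocks {r : ℕ} (hr : 2 ≤ r) (x : ℝ) (m : ℕ) :
    {w : Fin m → ℤ | ∃ k : ℕ, ∀ j : Fin m, w j = dig r x (k + 1 + j)}.Finite := by
  have h1 : (Set.pi Set.univ (fun _ : Fin m => Set.Icc (0 : ℤ) r)).Finite :=
    Set.Finite.pi' (fun _ => Set.finite_Icc _ _) |>.subset (by
      intro f hf i
      exact hf i (Set.mem_univ i))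
  refine h1.subset ?_
  rintro w ⟨k, hk⟩ i -
  rw [hk i]
  unfold dig
  have hr' : (0 : ℤ) < r := by
    have : (2 : ℤ) ≤ r := by exact_mod_cast hr
    linarith
  exact ⟨Int.emod_nonneg _ hr'.ne', (Int.emod_lt_of_pos _ hr').le⟩

lemma exists_near {r : ℕ} (hr : 2 ≤ r) (x : ℝ) (m : ℕ) :
    ∃ (u v : ℕ) (P : ℤ), u + v ≤ blk r x m ∧ Near r x m u v P := by
  set S : Set (Fin m → ℤ) :=
    {w : Fin m → ℤ | ∃ k : ℕ, ∀ j : Fin m, w j = dig r x (k + 1 + j)} with hS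
  have hfin : S.Finite := finite_blocks hr x m
  have hblk : blk r x m = S.ncard := rfl
  let f : ℕ → (Fin m → ℤ) := fun k j => dig r x (k + 1 + j)
  have hf : ∀ k, f k ∈ S := fun k => ⟨k, fun j => rfl⟩
  have hc : S.ncard < (Set.Iic S.ncard : Set ℕ).ncard := by
    rw [Set.ncard_eq_toFinset_card' (Set.Iic S.ncard)]
    simp
  obtain ⟨j, hj, j', hj', hne, he⟩ :=
    Set.exists_ne_map_eq_of_ncard_lt_of_maps_to hc (f := f) (fun k _ => hf k) hfin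
  have key : ∀ j j' : ℕ, j < j' → j' ≤ S.ncard → f j = f j' →
      ∃ (u v : ℕ) (P : ℤ), u + v ≤ blk r x m ∧ Near r x m u v P := by
    intro j j' hlt hle he
    have hs := same hr x j j' m (fun i hi => by
      have := congrFun he ⟨i, hi⟩
      exact this)
    refine ⟨j, j' - j, ⌊x * (r : ℝ) ^ j'⌋ - ⌊x * (r : ℝ) ^ j⌋, by rw [hblk]; omega, by omega, ?_⟩
    have hE : (E r j (j' - j) : ℝ) = (r : ℝ) ^ j' - (r : ℝ) ^ j := by
      rw [E_cast hr]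
      have : (r : ℝ) ^ j' = (r : ℝ) ^ j * (r : ℝ) ^ (j' - j) := by
        rw [← pow_add]
        congr 1
        omega
      rw [this]
      ring
    rw [hE]
    have hs' : (⌊x * (r : ℝ) ^ (j + m)⌋ : ℝ) - (r : ℝ) ^ m * ⌊x * (r : ℝ) ^ j⌋ =
      ⌊x * (r : ℝ) ^ (j' + m)⌋ - (r : ℝ) ^ m * ⌊x * (r : ℝ) ^ j'⌋ := by exact_mod_cast hs
    have hrm : (0 : ℝ) ≤ (r : ℝ) ^ m := by positivity
    have h1 : |((r : ℝ) ^ j' - (r : ℝ) ^ j) * x -
        ((⌊x * (r : ℝ) ^ j'⌋ - ⌊x * (r : ℝ) ^ j⌋ : ℤ) : ℝ)| * (r : ℝ) ^ m =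
        |(x * (r : ℝ) ^ (j' + m) - ⌊x * (r : ℝ) ^ (j' + m)⌋) -
          (x * (r : ℝ) ^ (j + m) - ⌊x * (r : ℝ) ^ (j + m)⌋)| := by
      rw [← abs_of_nonneg hrm, ← abs_mul]
      congr 1
      push_cast
      have b1 : (r : ℝ) ^ (j' + m) = (r : ℝ) ^ j' * (r : ℝ) ^ m := pow_add _ _ _
      have b2 : (r : ℝ) ^ (j + m) = (r : ℝ) ^ j * (r : ℝ) ^ m := pow_add _ _ _
      linear_combination -hs' - x * b1 + x * b2
    rw [h1]
    have a1 := Int.floor_le (x * (r : ℝ) ^ (j' + m))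
    have a2 := Int.lt_floor_add_one (x * (r : ℝ) ^ (j' + m))
    have a3 := Int.floor_le (x * (r : ℝ) ^ (j + m))
    have a4 := Int.lt_floor_add_one (x * (r : ℝ) ^ (j + m))
    rw [abs_le]
    constructor <;> linarith
  rcases lt_or_gt_of_ne hne with h | h
  · exact key j j' h hj' he
  · exact key j' j h hj he.symm

end PIG_

theorem pig_proof : Stmt_PIG := by
  intro r x hr m
  obtain ⟨u, v, P, hle, hN⟩ := PIG_.exists_near hr x m
  refine ⟨(W_le hN).trans hle, ?_⟩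
  have hne : {s | ∃ (u v : ℕ) (P : ℤ), u + v = s ∧ Near r x m u v P}.Nonempty :=
    ⟨u + v, u, v, P, rfl, hN⟩
  obtain ⟨u', v', P', h1, h2⟩ := Nat.sInf_mem hne
  exact ⟨u', v', P', h1, h2⟩

end Pool.Agent.TWB
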