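import Pool.Agent.TWB.Stmts

/-!
# Almost coinciding multiples of `r ^ w` and `s ^ w'`
-/

set_option autoImplicit false

namespace Pool.Agent.TWB

namespace SOL_

/-- the arithmetic of the proof of `SOL` -/
theorem arith (r s C1 C2 n t w u v u' v' α b₁ e₀ B : ℕ) (hr : 2 ≤ r) (hs : 2 ≤ s)
    (hind : Indep r s) (hα : 1 ≤ α) (hw : u + v = w) (hv : 1 ≤ v) (hv' : 1 ≤ v') (hb : 0 < b₁)
    (he : E r u v = b₁ * e₀) (hB : α * E s u' v' = b₁ * B)
    (hrw : r ^ w ≤ 2 * b₁ * r ^ (t + 1)) (hsw : s ^ (u' + v') ≤ C1 * r ^ w * s ^ t)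
    (hval : u + u' ≤ C2 * (Nat.log 2 (α * e₀) + Nat.log 2 B + Nat.log 2 v + Nat.log 2 v' + 1))
    (C : ℕ) (hC : C = (α + C1 + 2 + s + r) + s + (C1 + 2) +
      (r + s) * C2 * (2 * (α + C1 + 2 + s + r) + 1) + (C1 + r + s) * ((r + s) * C2) +
      2 * ((r + s) * C2) + C1 + 1)
    (hCt : C * (t + 1) ≤ w) : Sol r s w (2 ^ (C * (t + 1)) * w ^ C) := by
  have hE := E_pos (u := u) hr hv
  have hE' := E_pos (u := u') hs hv'
  have hr0 : 0 < r := by omega
  have hs0 : 0 < s := by omega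
  have he0 : 0 < e₀ := by
    rcases Nat.eq_zero_or_pos e₀ with h | h
    · rw [h, mul_zero] at he
      omega
    · exact h
  have hBpos : 0 < B := by
    rcases Nat.eq_zero_or_pos B with h | h
    · rw [h, mul_zero] at hB
      have := Nat.mul_pos hα hE'
      omega
    · exact h
  have hA : 0 < α * e₀ := Nat.mul_pos hα he0
  have htw : t + 1 ≤ w := by
    refine le_trans ?_ hCt
    calc t + 1 = 1 * (t + 1) := by ring
      _ ≤ C * (t + 1) := Nat.mul_le_mul_right _ (by omega)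
  have hw1 : 1 ≤ w := by omega
  -- the main identity
  have hkey : (α * e₀) * E s u' v' = B * E r u v := by
    calc (α * e₀) * E s u' v' = e₀ * (α * E s u' v') := by ring
      _ = e₀ * (b₁ * B) := by rw [hB]
      _ = B * (b₁ * e₀) := by ring
      _ = B * E r u v := by rw [he]
  have hEr : E r u v + r ^ u = r ^ w := by
    unfold E
    rw [← hw, pow_add]
    have := one_le_pow' (v := v) hr
    obtain ⟨k, hk⟩ := Nat.exists_eq_add_of_le this
    rw [hk]
    simp only [Nat.add_sub_cancel_left]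
    ring
  have hEs : E s u' v' + s ^ u' = s ^ (u' + v') := by
    unfold E
    rw [pow_add]
    have := one_le_pow' (v := v') hs
    obtain ⟨k, hk⟩ := Nat.exists_eq_add_of_le this
    rw [hk]
    simp only [Nat.add_sub_cancel_left]
    ring
  have hid : B * r ^ w + (α * e₀) * s ^ u' = (α * e₀) * s ^ (u' + v') + B * r ^ u := by
    rw [← hEr, ← hEs, mul_add, mul_add, hkey]
    ring
  -- bounds
  have he_le : e₀ ≤ 2 * r ^ (t + 1) := by
    have h1 : b₁ * e₀ ≤ b₁ * (2 * r ^ (t + 1)) := by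
      rw [← he]
      calc E r u v ≤ r ^ (u + v) := (E_lt hr).le
        _ = r ^ w := by rw [hw]
        _ ≤ 2 * b₁ * r ^ (t + 1) := hrw
        _ = b₁ * (2 * r ^ (t + 1)) := by ring
    exact Nat.le_of_mul_le_mul_left h1 hb
  have hB_le : B ≤ α * (C1 * (2 * r ^ (t + 1) * s ^ t)) := by
    have h1 : b₁ * B ≤ b₁ * (α * (C1 * (2 * r ^ (t + 1) * s ^ t))) := by
      rw [← hB]
      calc α * E s u' v' ≤ α * s ^ (u' + v') := Nat.mul_le_mul_left _ (E_lt hs).le
        _ ≤ α * (C1 * r ^ w * s ^ t) := Nat.mul_le_mul_left _ hsw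
        _ ≤ α * (C1 * (2 * b₁ * r ^ (t + 1)) * s ^ t) :=
            Nat.mul_le_mul_left _ (Nat.mul_le_mul_right _ (Nat.mul_le_mul_left _ hrw))
        _ = _ := by ring
    exact Nat.le_of_mul_le_mul_left h1 hb
  have two_pow_r : r ≤ 2 ^ r := Nat.lt_two_pow_self.le
  have two_pow_s : s ≤ 2 ^ s := Nat.lt_two_pow_self.le
  have two_pow_α : α ≤ 2 ^ α := Nat.lt_two_pow_self.le
  have two_pow_C : C1 ≤ 2 ^ C1 := Nat.lt_two_pow_self.le
  obtain ⟨c3, hc3⟩ : ∃ c3, c3 = α + C1 + 2 + s + r := ⟨_, rfl⟩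
  have hrt : r ^ (t + 1) ≤ 2 ^ (r * (t + 1)) := by
    rw [pow_mul]
    exact Nat.pow_le_pow_left two_pow_r _
  have hst : s ^ t ≤ 2 ^ (s * (t + 1)) := by
    calc s ^ t ≤ s ^ (t + 1) := Nat.pow_le_pow_right hs0 (by omega)
      _ ≤ 2 ^ (s * (t + 1)) := by
          rw [pow_mul]
          exact Nat.pow_le_pow_left two_pow_s _
  have hA2 : α * e₀ ≤ 2 ^ (c3 * (t + 1)) := by
    calc α * e₀ ≤ 2 ^ α * (2 * 2 ^ (r * (t + 1))) :=
          Nat.mul_le_mul two_pow_α (he_le.trans (Nat.mul_le_mul_left _ hrt))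
      _ = 2 ^ (α + (1 + r * (t + 1))) := by
          rw [pow_add, pow_add, pow_one]
      _ ≤ 2 ^ (c3 * (t + 1)) := by
          apply Nat.pow_le_pow_right (by norm_num)
          rw [hc3]
          nlinarith [Nat.zero_le (α * t), Nat.zero_le (C1 * t), Nat.zero_le (s * t), Nat.zero_le t]
  have hB2 : B ≤ 2 ^ (c3 * (t + 1)) := by
    calc B ≤ 2 ^ α * (2 ^ C1 * (2 * 2 ^ (r * (t + 1)) * 2 ^ (s * (t + 1)))) :=
          hB_le.trans (Nat.mul_le_mul two_pow_α (Nat.mul_le_mul two_pow_C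
            (Nat.mul_le_mul (Nat.mul_le_mul_left _ hrt) hst)))
      _ = 2 ^ (α + (C1 + ((1 + r * (t + 1)) + s * (t + 1)))) := by
          rw [pow_add, pow_add, pow_add, pow_add, pow_one]
      _ ≤ 2 ^ (c3 * (t + 1)) := by
          apply Nat.pow_le_pow_right (by norm_num)
          rw [hc3]
          nlinarith [Nat.zero_le (α * t), Nat.zero_le (C1 * t), Nat.zero_le (s * t), Nat.zero_le t]
  have hlA : Nat.log 2 (α * e₀) ≤ c3 * (t + 1) :=
    (Nat.log_mono_right hA2).trans (by rw [Nat.log_pow (by norm_num)])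
  have hlB : Nat.log 2 B ≤ c3 * (t + 1) :=
    (Nat.log_mono_right hB2).trans (by rw [Nat.log_pow (by norm_num)])
  have hw' : u' + v' ≤ (C1 + r + s) * w := by
    have h1 : 2 ^ (u' + v') ≤ 2 ^ ((C1 + r + s) * w) := by
      calc 2 ^ (u' + v') ≤ s ^ (u' + v') := Nat.pow_le_pow_left hs _
        _ ≤ C1 * r ^ w * s ^ t := hsw
        _ ≤ 2 ^ C1 * 2 ^ (r * w) * 2 ^ (s * (t + 1)) := by
            apply Nat.mul_le_mul (Nat.mul_le_mul two_pow_C ?_) hst
            rw [pow_mul]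
            exact Nat.pow_le_pow_left two_pow_r _
        _ = 2 ^ (C1 + r * w + s * (t + 1)) := by rw [pow_add, pow_add]
        _ ≤ 2 ^ ((C1 + r + s) * w) := by
            apply Nat.pow_le_pow_right (by norm_num)
            have a1 : C1 ≤ C1 * w := Nat.le_mul_of_pos_right _ (by omega)
            have a2 : s * (t + 1) ≤ s * w := Nat.mul_le_mul_left _ htw
            calc C1 + r * w + s * (t + 1) ≤ C1 * w + r * w + s * w := by omega
              _ = _ := by ring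
    exact (Nat.pow_le_pow_iff_right (by norm_num)).1 h1
  have hlv : 2 ^ Nat.log 2 v ≤ w :=
    (Nat.pow_log_le_self 2 (by omega)).trans (by omega)
  have hlv' : 2 ^ Nat.log 2 v' ≤ 2 ^ (C1 + r + s) * w :=
    (Nat.pow_log_le_self 2 (by omega)).trans ((Nat.le_add_left v' u').trans (hw'.trans
      (Nat.mul_le_mul_right _ Nat.lt_two_pow_self.le)))
  -- the main bound
  obtain ⟨q, hq⟩ : ∃ q, q = r + s := ⟨_, rfl⟩
  have hU : 2 ^ (q * (u + u')) ≤
      2 ^ (q * C2 * (2 * c3 + 1) * (t + 1) + (C1 + r + s) * (q * C2)) * w ^ (2 * (q * C2)) := by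
    calc 2 ^ (q * (u + u'))
        ≤ 2 ^ (q * (C2 * (c3 * (t + 1) + c3 * (t + 1) + Nat.log 2 v + Nat.log 2 v' + 1))) := by
          apply Nat.pow_le_pow_right (by norm_num)
          apply Nat.mul_le_mul_left
          refine hval.trans (Nat.mul_le_mul_left _ ?_)
          omega
      _ = 2 ^ (q * C2 * (2 * (c3 * (t + 1)) + 1)) * (2 ^ Nat.log 2 v) ^ (q * C2) *
          (2 ^ Nat.log 2 v') ^ (q * C2) := by
          rw [← pow_mul, ← pow_mul, ← pow_add, ← pow_add]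
          congr 1
          ring
      _ ≤ 2 ^ (q * C2 * (2 * (c3 * (t + 1)) + 1)) * w ^ (q * C2) *
          (2 ^ (C1 + r + s) * w) ^ (q * C2) :=
          Nat.mul_le_mul (Nat.mul_le_mul_left _ (Nat.pow_le_pow_left hlv _))
            (Nat.pow_le_pow_left hlv' _)
      _ = 2 ^ (q * C2 * (2 * (c3 * (t + 1)) + 1) + (C1 + r + s) * (q * C2)) *
          w ^ (2 * (q * C2)) := by
          have e1 : (2 ^ (C1 + r + s)) ^ (q * C2) = 2 ^ ((C1 + r + s) * (q * C2)) :=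
            (pow_mul _ _ _).symm
          have e2 : w ^ (2 * (q * C2)) = w ^ (q * C2) * w ^ (q * C2) := by
            rw [two_mul, pow_add]
          rw [mul_pow, e1, e2, pow_add 2 (q * C2 * (2 * (c3 * (t + 1)) + 1)), mul_assoc, mul_assoc,
            Nat.mul_left_comm (w ^ (q * C2))]
          exact (mul_assoc _ _ _).symm
      _ ≤ _ := by
          apply Nat.mul_le_mul_right
          apply Nat.pow_le_pow_right (by norm_num)
          apply Nat.add_le_add_right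
          calc q * C2 * (2 * (c3 * (t + 1)) + 1) ≤ q * C2 * ((2 * c3 + 1) * (t + 1)) := by
                apply Nat.mul_le_mul_left
                nlinarith [Nat.zero_le t]
            _ = _ := by ring
  have hK : 2 ^ (c3 * (t + 1)) * 2 ^ (s * (t + 1)) * 2 ^ (C1 + 2) * 2 ^ (q * (u + u')) ≤
      2 ^ (C * (t + 1)) * w ^ C := by
    calc 2 ^ (c3 * (t + 1)) * 2 ^ (s * (t + 1)) * 2 ^ (C1 + 2) * 2 ^ (q * (u + u'))
        ≤ 2 ^ (c3 * (t + 1)) * 2 ^ (s * (t + 1)) * 2 ^ (C1 + 2) *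
          (2 ^ (q * C2 * (2 * c3 + 1) * (t + 1) + (C1 + r + s) * (q * C2)) *
            w ^ (2 * (q * C2))) := Nat.mul_le_mul_left _ hU
      _ = 2 ^ (c3 * (t + 1) + s * (t + 1) + (C1 + 2) +
          (q * C2 * (2 * c3 + 1) * (t + 1) + (C1 + r + s) * (q * C2))) *
            w ^ (2 * (q * C2)) := by
          rw [pow_add, pow_add, pow_add]
          ring
      _ ≤ 2 ^ (C * (t + 1)) * w ^ C := by
          apply Nat.mul_le_mul
          · apply Nat.pow_le_pow_right (by norm_num)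
            rw [hC, ← hc3, ← hq]
            have a1 : (C1 + 2) ≤ (C1 + 2) * (t + 1) := Nat.le_mul_of_pos_right _ (by omega)
            have a2 : (C1 + r + s) * (q * C2) ≤ (C1 + r + s) * (q * C2) * (t + 1) :=
              Nat.le_mul_of_pos_right _ (by omega)
            calc c3 * (t + 1) + s * (t + 1) + (C1 + 2) +
                (q * C2 * (2 * c3 + 1) * (t + 1) + (C1 + r + s) * (q * C2))
                ≤ c3 * (t + 1) + s * (t + 1) + (C1 + 2) * (t + 1) +
                (q * C2 * (2 * c3 + 1) * (t + 1) + (C1 + r + s) * (q * C2) * (t + 1)) := by omega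
              _ = (c3 + s + (C1 + 2) + q * C2 * (2 * c3 + 1) + (C1 + r + s) * (q * C2)) *
                  (t + 1) := by ring
              _ ≤ _ := Nat.mul_le_mul_right _ (by omega)
          · apply Nat.pow_le_pow_right hw1
            rw [hC, ← hc3, ← hq]
            omega
  obtain ⟨K, hKdef⟩ : ∃ K, K = 2 ^ (C * (t + 1)) * w ^ C := ⟨_, rfl⟩
  rw [← hKdef] at hK ⊢
  have p1 : 1 ≤ 2 ^ (c3 * (t + 1)) := Nat.one_le_two_pow
  have p2 : 1 ≤ 2 ^ (s * (t + 1)) := Nat.one_le_two_pow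
  have p3 : 4 ≤ 2 ^ (C1 + 2) := by
    calc 4 = 2 ^ 2 := by norm_num
      _ ≤ 2 ^ (C1 + 2) := Nat.pow_le_pow_right (by norm_num) (by omega)
  have p3' : C1 ≤ 2 ^ (C1 + 2) := Nat.lt_two_pow_self.le.trans
    (Nat.pow_le_pow_right (by norm_num) (by omega))
  have p4 : 1 ≤ 2 ^ (q * (u + u')) := Nat.one_le_two_pow
  have hru : r ^ u ≤ 2 ^ (q * (u + u')) := by
    calc r ^ u ≤ (2 ^ r) ^ u := Nat.pow_le_pow_left two_pow_r _
      _ = 2 ^ (r * u) := by rw [← pow_mul]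
      _ ≤ _ := Nat.pow_le_pow_right (by norm_num) (Nat.mul_le_mul (by omega) (by omega))
  have hsu : s ^ u' ≤ 2 ^ (q * (u + u')) := by
    calc s ^ u' ≤ (2 ^ s) ^ u' := Nat.pow_le_pow_left two_pow_s _
      _ = 2 ^ (s * u') := by rw [← pow_mul]
      _ ≤ _ := Nat.pow_le_pow_right (by norm_num) (Nat.mul_le_mul (by omega) (by omega))
  have k1 : 2 ^ (c3 * (t + 1)) * 2 ^ (q * (u + u')) ≤ K := by
    refine le_trans ?_ hK
    calc 2 ^ (c3 * (t + 1)) * 2 ^ (q * (u + u'))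
        = 2 ^ (c3 * (t + 1)) * 1 * 1 * 2 ^ (q * (u + u')) := by ring
      _ ≤ _ := Nat.mul_le_mul_right _ (Nat.mul_le_mul (Nat.mul_le_mul_left _ p2) (by omega))
  have k2 : 2 * 2 ^ (c3 * (t + 1)) ≤ K := by
    refine le_trans ?_ hK
    calc 2 * 2 ^ (c3 * (t + 1)) = 2 ^ (c3 * (t + 1)) * 1 * 2 * 1 := by ring
      _ ≤ _ := Nat.mul_le_mul (Nat.mul_le_mul (Nat.mul_le_mul_left _ p2) (by omega)) p4
  have k3 : 2 ^ (c3 * (t + 1)) * (C1 * s ^ t) ≤ K := by
    refine le_trans ?_ hK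
    calc 2 ^ (c3 * (t + 1)) * (C1 * s ^ t) = 2 ^ (c3 * (t + 1)) * s ^ t * C1 * 1 := by ring
      _ ≤ _ := Nat.mul_le_mul (Nat.mul_le_mul (Nat.mul_le_mul_left _ hst) p3') p4
  refine ⟨B * r ^ w, (α * e₀) * s ^ (u' + v'), u' + v', Nat.mul_pos hBpos (Nat.pow_pos hr0),
    Nat.mul_pos hA (Nat.pow_pos hs0), Dvd.intro_left _ rfl, Dvd.intro_left _ rfl, ?_, ?_, ?_, ?_,
    ?_, ?_, ?_⟩
  · intro hXY
    have h1 : B * r ^ u = (α * e₀) * s ^ u' := by omega
    rw [← hw, pow_add, pow_add, ← mul_assoc, ← mul_assoc, h1] at hXY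
    have h2 : 0 < (α * e₀) * s ^ u' := Nat.mul_pos hA (Nat.pow_pos hs0)
    exact hind v v' hv (Nat.eq_of_mul_eq_mul_left h2 hXY)
  · have h1 : B * r ^ u ≤ K := (Nat.mul_le_mul hB2 hru).trans k1
    omega
  · have h1 : (α * e₀) * s ^ u' ≤ K := (Nat.mul_le_mul hA2 hsu).trans k1
    omega
  · apply Nat.mul_le_mul_right
    calc B ≤ 2 ^ (c3 * (t + 1)) := hB2
      _ ≤ 2 * 2 ^ (c3 * (t + 1)) := by omega
      _ ≤ K := k2
  · calc (α * e₀) * s ^ (u' + v') ≤ 2 ^ (c3 * (t + 1)) * (C1 * r ^ w * s ^ t) :=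
          Nat.mul_le_mul hA2 hsw
      _ = 2 ^ (c3 * (t + 1)) * (C1 * s ^ t) * r ^ w := by ring
      _ ≤ K * r ^ w := Nat.mul_le_mul_right _ k3
  · calc r ^ w = r ^ (u + v) := by rw [hw]
      _ ≤ 2 * E r u v := pow_le_two_E hr hv
      _ ≤ 2 * (B * E r u v) := Nat.mul_le_mul_left _ (Nat.le_mul_of_pos_left _ hBpos)
      _ = 2 * ((α * e₀) * E s u' v') := by rw [hkey]
      _ ≤ 2 * (2 ^ (c3 * (t + 1)) * s ^ (u' + v')) :=
          Nat.mul_le_mul_left _ (Nat.mul_le_mul hA2 (E_lt hs).le)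
      _ = 2 * 2 ^ (c3 * (t + 1)) * s ^ (u' + v') := by ring
      _ ≤ K * s ^ (u' + v') := Nat.mul_le_mul_right _ k2
  · calc s ^ (u' + v') ≤ 2 * E s u' v' := pow_le_two_E hs hv'
      _ ≤ 2 * ((α * e₀) * E s u' v') := Nat.mul_le_mul_left _ (Nat.le_mul_of_pos_left _ hA)
      _ = 2 * (B * E r u v) := by rw [hkey]
      _ ≤ 2 * (2 ^ (c3 * (t + 1)) * r ^ (u + v)) :=
          Nat.mul_le_mul_left _ (Nat.mul_le_mul hB2 (E_lt hr).le)
      _ = 2 * 2 ^ (c3 * (t + 1)) * r ^ w := by rw [hw]; ring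
      _ ≤ K * r ^ w := Nat.mul_le_mul_right _ k2

end SOL_

theorem sol_proof (hCOIN : Stmt_COIN) (hVAL : Stmt_VAL) : Stmt_SOL := by
  intro r s x a b d hr hs hind hx ha hd
  obtain ⟨C1, h1⟩ := hCOIN r s x a b 0 d hr hs hx (by
    rw [mul_zero, sub_zero]
    exact mul_ne_zero ha hd)
  obtain ⟨C2, h2⟩ := hVAL r s hr hs hind
  obtain ⟨C, hC⟩ : ∃ C, C = (a.natAbs + C1 + 2 + s + r) + s + (C1 + 2) +
      (r + s) * C2 * (2 * (a.natAbs + C1 + 2 + s + r) + 1) + (C1 + r + s) * ((r + s) * C2) +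
      2 * ((r + s) * C2) + C1 + 1 := ⟨_, rfl⟩
  refine ⟨C, ?_⟩
  intro n t N hW hW' hNn h101 hCt hCn
  have hC1 : C1 ≤ C := by omega
  obtain ⟨u, v, u', v', a₁, b₁, P', hv, hv', huv, hb, hcop, hdvd, -, hrw, hsw, hP⟩ :=
    h1 n t N hW (by
      intro m hm
      have := hW' m hm
      simpa using this) hNn h101 ((Nat.mul_le_mul_right _ hC1).trans hCt)
      ((Nat.mul_le_mul_right _ hC1).trans hCn)
  have hα : 1 ≤ a.natAbs := Int.natAbs_pos.2 ha
  obtain ⟨e₀, he⟩ := hdvd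
  have hbdvd : (b₁ : ℤ) ∣ (E s u' v' : ℤ) * a := by
    have h3 : (b₁ : ℤ) ∣ (E s u' v' : ℤ) * a * a₁ := by
      refine ⟨P' * d - (E s u' v' : ℤ) * b, ?_⟩
      linear_combination -hP
    exact hcop.symm.dvd_of_dvd_mul_right h3
  have hbn : b₁ ∣ a.natAbs * E s u' v' := by
    have h4 := Int.natAbs_dvd_natAbs.2 hbdvd
    rw [Int.natAbs_natCast, Int.natAbs_mul, Int.natAbs_natCast, mul_comm] at h4
    exact h4
  obtain ⟨B, hB⟩ := hbn
  rw [huv] at hrw hsw
  have hE := E_pos (u := u) hr hv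
  have hE' := E_pos (u := u') hs hv'
  have he0 : 0 < e₀ := by
    rcases Nat.eq_zero_or_pos e₀ with h | h
    · rw [h, mul_zero] at he
      omega
    · exact h
  have hBpos : 0 < B := by
    rcases Nat.eq_zero_or_pos B with h | h
    · rw [h, mul_zero] at hB
      have := Nat.mul_pos hα hE'
      omega
    · exact h
  have hval := h2 (a.natAbs * e₀) B u v u' v' (Nat.mul_pos hα he0) hBpos hv hv' (by
    calc (a.natAbs * e₀) * E s u' v' = e₀ * (a.natAbs * E s u' v') := by ring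
      _ = e₀ * (b₁ * B) := by rw [hB]
      _ = B * (b₁ * e₀) := by ring
      _ = B * E r u v := by rw [he])
  exact SOL_.arith r s C1 C2 n t (W r x N) u v u' v' a.natAbs b₁ e₀ B hr hs hind hα huv hv hv' hb
    he hB hrw hsw hval C hC hCt

end Pool.Agent.TWB
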