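import Pool.Agent.TWB.Stmts

/-!
# TA: parameter bookkeeping for affine images in multiplicatively independent bases
-/

set_option autoImplicit false

namespace Pool.Agent.TWB

open Filter Topology

namespace TA_

/-- exponential beats polynomial -/
lemma expo (L k : ℕ) : ∃ W₀ : ℕ, ∀ w : ℕ, W₀ ≤ w → (L * w) ^ k < 2 ^ w := by
  have h := tendsto_pow_const_div_const_pow_of_one_lt k (one_lt_two : (1 : ℝ) < 2)
  have hpos : (0 : ℝ) < 1 / ((L : ℝ) ^ k + 1) := by positivity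
  have h2 := (h.eventually (gt_mem_nhds hpos))
  obtain ⟨W₀, hW⟩ := Filter.eventually_atTop.1 h2
  refine ⟨W₀, fun w hw => ?_⟩
  have h3 := hW w hw
  have h4 : (0 : ℝ) < 2 ^ w := by positivity
  have h5 : (0 : ℝ) < (L : ℝ) ^ k + 1 := by positivity
  rw [div_lt_div_iff₀ h4 h5, one_mul] at h3
  have h6 : ((L : ℝ) * w) ^ k < 2 ^ w := by
    rw [mul_pow]
    have h7 : (0 : ℝ) ≤ (w : ℝ) ^ k := by positivity
    nlinarith
  exact_mod_cast h6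

/-- `Sol` is monotone in `K` -/
lemma sol_mono {r s w K K' : ℕ} (hK : K ≤ K') (h : Sol r s w K) : Sol r s w K' := by
  obtain ⟨X, Y, w', h1, h2, h3, h4, h5, h6, h7, h8, h9, h10, h11⟩ := h
  refine ⟨X, Y, w', h1, h2, h3, h4, h5, by omega, by omega,
    h8.trans (Nat.mul_le_mul_right _ hK), h9.trans (Nat.mul_le_mul_right _ hK),
    h10.trans (Nat.mul_le_mul_right _ hK), h11.trans (Nat.mul_le_mul_right _ hK)⟩

/-- the size condition of THUE -/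
lemma size {L C P t w w₂ W₀ : ℕ} (hP : P = 3 * L + 6)
    (hW : ∀ w : ℕ, W₀ ≤ w → (L * w) ^ (2 * (C * P)) < 2 ^ w) (h1 : W₀ ≤ w)
    (h2 : 2 * (P + C * P) * (t + 1) ≤ w) (h3 : w₂ ≤ L * w) :
    4 ^ (L + 2) * (2 ^ (C * (t + 1)) * w₂ ^ C) ^ P < 2 ^ w := by
  have k1 := hW w h1
  have k2 : (w₂ : ℕ) ^ C ≤ (L * w) ^ C := Nat.pow_le_pow_left h3 _
  have k3 : 4 ^ (L + 2) ≤ 2 ^ P := by
    have : (4 : ℕ) = 2 ^ 2 := by norm_num
    rw [this, ← pow_mul]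
    exact Nat.pow_le_pow_right (by norm_num) (by omega)
  have k4 : 4 ^ (L + 2) * (2 ^ (C * (t + 1)) * w₂ ^ C) ^ P ≤
      2 ^ (P + C * (t + 1) * P) * (L * w) ^ (C * P) := by
    calc 4 ^ (L + 2) * (2 ^ (C * (t + 1)) * w₂ ^ C) ^ P
        ≤ 2 ^ P * (2 ^ (C * (t + 1)) * (L * w) ^ C) ^ P :=
          Nat.mul_le_mul k3 (Nat.pow_le_pow_left (Nat.mul_le_mul_left _ k2) _)
      _ = 2 ^ (P + C * (t + 1) * P) * (L * w) ^ (C * P) := by
          rw [mul_pow, ← pow_mul, ← pow_mul, pow_add]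
          ring
  have k5 : (2 ^ (P + C * (t + 1) * P) * (L * w) ^ (C * P)) ^ 2 < (2 ^ w) ^ 2 := by
    have k6 : (2 ^ (P + C * (t + 1) * P)) ^ 2 ≤ 2 ^ w := by
      rw [← pow_mul]
      refine Nat.pow_le_pow_right (by norm_num) (le_trans ?_ h2)
      have : (P + C * (t + 1) * P) * 2 ≤ 2 * (P + C * P) * (t + 1) := by
        have e1 : 2 * (P + C * P) * (t + 1) = (P + C * (t + 1) * P) * 2 + 2 * P * t := by ring
        omega
      exact this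
    have k7 : ((L * w) ^ (C * P)) ^ 2 < 2 ^ w := by
      rw [← pow_mul, mul_comm (C * P) 2]
      exact k1
    rw [mul_pow, sq (2 ^ w)]
    calc (2 ^ (P + C * (t + 1) * P)) ^ 2 * ((L * w) ^ (C * P)) ^ 2
        ≤ 2 ^ w * ((L * w) ^ (C * P)) ^ 2 := Nat.mul_le_mul_right _ k6
      _ < 2 ^ w * 2 ^ w := Nat.mul_lt_mul_of_pos_left k7 (by positivity)
  exact lt_of_le_of_lt k4 (lt_of_pow_lt_pow_left₀ 2 (by positivity) k5)

/-- size of `n / c₀` -/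
lemma size2 {n t c₀ Q D : ℕ} (hc : 0 < c₀) (hD : D = 2 * c₀ * Q) (h1 : D ≤ n) (h2 : D * t ≤ n) :
    Q * (t + 1) ≤ n / c₀ := by
  rw [Nat.le_div_iff_mul_le hc]
  have h3 : D * (t + 1) ≤ 2 * n := by
    rw [mul_add, mul_one]
    omega
  have h4 : D * (t + 1) = 2 * (Q * (t + 1) * c₀) := by
    rw [hD]
    ring
  omega

end TA_

open TA_

theorem ta_proof (hMW : Stmt_MW) (hGOOD : Stmt_GOOD) (hSOL : Stmt_SOL) (hTHUE : Stmt_THUE) :
    Stmt_TA := by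
  intro x μ r s a b d hx hμ hm hr hs hind ha hd
  obtain ⟨C₁, hC₁⟩ := hMW x μ r hr hμ hm
  obtain ⟨M₀, hM₀⟩ := hGOOD
  obtain ⟨C₂, hC₂⟩ := hSOL r s x a b d hr hs hind hx ha hd
  obtain ⟨L, hL⟩ : ∃ L : ℕ, L = 44 * μ * μ := ⟨_, rfl⟩
  obtain ⟨P, hP⟩ : ∃ P : ℕ, P = 3 * L + 6 := ⟨_, rfl⟩
  obtain ⟨W₀, hW₀⟩ := expo L (2 * (C₂ * P))
  obtain ⟨R, hR⟩ : ∃ R : ℕ, R = 2 * (P + C₂ * P) := ⟨_, rfl⟩
  have hc0 : 0 < 22 * μ * (C₂ + 1) := Nat.mul_pos (by omega) (by omega)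
  refine ⟨2 * (22 * μ * (C₂ + 1)) * (M₀ + 1000 + μ * C₂ + 2 * C₁ + μ * W₀ + μ * R + 2), ?_, ?_⟩
  · exact Nat.mul_pos (by omega) (by omega)
  intro n t hn hnt h1 h2
  obtain ⟨M, hMdef⟩ : ∃ M : ℕ, M = n / (22 * μ * (C₂ + 1)) := ⟨_, rfl⟩
  obtain ⟨Q, hQdef⟩ : ∃ Q : ℕ, Q = M₀ + 1000 + μ * C₂ + 2 * C₁ + μ * W₀ + μ * R + 2 := ⟨_, rfl⟩
  rw [← hQdef] at hn hnt
  have hM : Q * (t + 1) ≤ M := by
    rw [hMdef]
    exact size2 hc0 rfl hn hnt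
  have hMn : M * (22 * μ * (C₂ + 1)) ≤ n := by
    rw [hMdef]
    exact Nat.div_mul_le_self _ _
  obtain ⟨μM, hμM⟩ : ∃ z : ℕ, z = μ * M := ⟨_, rfl⟩
  have hMμ : M ≤ μM := by
    rw [hμM]
    exact Nat.le_mul_of_pos_left _ (by omega)
  have hMn3 : 22 * μM + C₂ * (22 * μM) ≤ n := by
    have : 22 * μM + C₂ * (22 * μM) = M * (22 * μ * (C₂ + 1)) := by
      rw [hμM]
      ring
    omega
  have hMn2 : 22 * μM ≤ n := by omega
  have hQt : Q * (t + 1) = M₀ * (t + 1) + 1000 * (t + 1) + μ * C₂ * (t + 1) +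
      2 * (C₁ * (t + 1)) + μ * W₀ * (t + 1) + μ * R * (t + 1) + 2 * (t + 1) := by
    rw [hQdef]
    ring
  have hM0t : M₀ ≤ M₀ * (t + 1) := Nat.le_mul_of_pos_right _ (by omega)
  have hC1t : C₁ ≤ C₁ * (t + 1) := Nat.le_mul_of_pos_right _ (by omega)
  have hW0t : μ * W₀ ≤ μ * W₀ * (t + 1) := Nat.le_mul_of_pos_right _ (by omega)
  obtain ⟨N₁, hN1, hN2, hN3⟩ := hM₀ r x hr n t M h1 (by omega) (by omega) (by omega)
  obtain ⟨N₂, hN4, hN5, hN6⟩ := hM₀ r x hr n t (20 * μM) h1 (by omega) (by omega) (by omega)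
  obtain ⟨w₁, hw₁⟩ : ∃ z : ℕ, z = W r x N₁ := ⟨_, rfl⟩
  obtain ⟨w₂, hw₂⟩ : ∃ z : ℕ, z = W r x N₂ := ⟨_, rfl⟩
  have e1 := hC₁ N₁
  have e2 := hC₁ N₂
  rw [← hw₁] at e1 hN3
  rw [← hw₂] at e2 hN6
  have hμw1 : μ * w₁ ≤ μ * N₁ := Nat.mul_le_mul_left _ (by omega)
  have hμN1 : 10 * (μ * N₁) ≤ 11 * μM := by
    have : μ * (10 * N₁) ≤ μ * (11 * M) := Nat.mul_le_mul_left _ hN2
    have e3 : μ * (10 * N₁) = 10 * (μ * N₁) := by ring
    have e4 : μ * (11 * M) = 11 * μM := by rw [hμM]; ring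
    omega
  have hww : 6 * w₁ ≤ w₂ := by
    have h3 : μ * (6 * w₁) ≤ μ * w₂ := by
      have e5 : μ * (6 * w₁) = 6 * (μ * w₁) := by ring
      omega
    exact Nat.le_of_mul_le_mul_left h3 (by omega)
  have hM2w : M ≤ 2 * (μ * w₁) := by omega
  have hwL : w₂ ≤ L * w₁ := by
    have h3 : w₂ ≤ 22 * μM := by omega
    have h4 : μ * M ≤ μ * (2 * (μ * w₁)) := Nat.mul_le_mul_left _ hM2w
    have h5 : L * w₁ = 22 * (μ * (2 * (μ * w₁))) := by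
      rw [hL]
      ring
    rw [h5]
    rw [← hμM] at h4
    omega
  have hw1C : C₂ * (t + 1) ≤ w₁ := by
    have h3 : μ * (C₂ * (t + 1)) ≤ μ * w₁ := by
      rw [← mul_assoc]
      omega
    exact Nat.le_of_mul_le_mul_left h3 (by omega)
  have hw1W : W₀ ≤ w₁ := by
    have h3 : μ * W₀ ≤ μ * w₁ := by omega
    exact Nat.le_of_mul_le_mul_left h3 (by omega)
  have hw1R : R * (t + 1) ≤ w₁ := by
    have h3 : μ * (R * (t + 1)) ≤ μ * w₁ := by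
      rw [← mul_assoc]
      omega
    exact Nat.le_of_mul_le_mul_left h3 (by omega)
  have hw1n : C₂ * w₁ ≤ n := by
    have h3 : C₂ * w₁ ≤ C₂ * (22 * μM) := Nat.mul_le_mul_left _ (by omega)
    omega
  have hw2n : C₂ * w₂ ≤ n := by
    have h3 : C₂ * w₂ ≤ C₂ * (22 * μM) := Nat.mul_le_mul_left _ (by omega)
    omega
  have s1 := hC₂ n t N₁ h1 h2 (by omega) (by rw [← hw₁]; exact hN3) (by rw [← hw₁]; exact hw1C)
    (by rw [← hw₁]; exact hw1n)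
  have s2 := hC₂ n t N₂ h1 h2 (by omega) (by rw [← hw₂]; exact hN6)
    (by rw [← hw₂]; omega) (by rw [← hw₂]; exact hw2n)
  rw [← hw₁] at s1
  rw [← hw₂] at s2
  have hle : w₁ ≤ w₂ := by omega
  have s1' := sol_mono (Nat.mul_le_mul_left _ (Nat.pow_le_pow_left hle C₂)) s1
  have hsize := size hP hW₀ hw1W (by rw [← hR]; exact hw1R) hwL
  have hK : 1 ≤ 2 ^ (C₂ * (t + 1)) * w₂ ^ C₂ := by
    rcases Nat.eq_zero_or_pos w₂ with h0 | h0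
    · exfalso
      have hw10 : w₁ = 0 := by omega
      rw [hw10] at e1
      omega
    · exact Nat.mul_pos (by positivity) (Nat.pow_pos h0)
  refine hTHUE r s L (2 ^ (C₂ * (t + 1)) * w₂ ^ C₂) w₁ w₂ hr hs hK hww hwL ?_ s1' s2
  rw [← hP]
  exact lt_of_lt_of_le hsize (Nat.pow_le_pow_left hr _)

end Pool.Agent.TWB
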