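import Pool.Agent.TWB.Stmts

/-!
# TBC: the arithmetic contradiction behind TB
-/

set_option autoImplicit false

namespace Pool.Agent.TWB

namespace TBC_

lemma min_le_of {a b c : ℝ} (ha : 1 ≤ a) (hb : 1 ≤ b) (h : a * b ≤ c * (2 * b + a)) (hc : 0 ≤ c) :
    min a b ≤ 3 * c := by
  rcases le_total a b with hab | hab
  · rw [min_eq_left hab]
    have h1 : a * b ≤ 3 * c * b := by
      calc a * b ≤ c * (2 * b + a) := h
        _ ≤ c * (2 * b + b) := by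
          apply mul_le_mul_of_nonneg_left _ hc
          linarith
        _ = 3 * c * b := by ring
    exact le_of_mul_le_mul_right h1 (by linarith)
  · rw [min_eq_right hab]
    have h1 : b * a ≤ 3 * c * a := by
      calc b * a = a * b := mul_comm _ _
        _ ≤ c * (2 * b + a) := h
        _ ≤ c * (2 * a + a) := by
          apply mul_le_mul_of_nonneg_left _ hc
          linarith
        _ = 3 * c * a := by ring
    exact le_of_mul_le_mul_right h1 (by linarith)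

lemma fin_real (μ : ℕ) (H Ru Rv Ru' Rv' RN G1 G2 P1 P2 : ℝ) (hH : 1 ≤ H) (hu : 1 ≤ Ru)
    (hv : 1 ≤ Rv) (hu' : 1 ≤ Ru') (hv' : 1 ≤ Rv') (hRN : Ru * Rv ≤ RN)
    (_r1 : Ru * Rv ≤ H * (Ru' * Rv')) (r2 : Ru' * Rv' ≤ H * (Ru * Rv))
    (I1 : Ru * Rv ≤ H * (2 * H ^ 2 * Ru + H * Ru') * H * (H ^ 3) ^ μ)
    (I2 : ∀ G, 1 ≤ G → Rv ≤ G → Ru ≤ H * (H * Ru' + H ^ 2 / RN) * H * (H ^ 3 * G) ^ μ)
    (I3 : ∀ G, 1 ≤ G → Rv' ≤ G → Ru * Rv ≤ H * (2 * H ^ 2 * Ru) * (H * G) * (H ^ 3 * G) ^ μ)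
    (I4 : ∀ G, 1 ≤ G → Rv ≤ G → Rv' ≤ G →
      Ru ≤ H * (H ^ 2 / RN) * (H * G) * (H ^ 3 * G ^ 2) ^ μ)
    (hP1 : P1 = (H ^ 3) ^ μ) (hG1 : G1 = 3 * (P1 * H ^ 4)) (hP2 : P2 = (H ^ 3 * G1) ^ μ)
    (hG2 : G2 = 2 * P2 * H ^ 5 * G1) :
    RN ≤ H ^ 4 * G2 * (H ^ 3 * G2 ^ 2) ^ μ := by
  have hH0 : 0 < H := by linarith
  have hu0 : 0 < Ru := by linarith
  have hv0 : 0 < Rv := by linarith
  have hu0' : 0 < Ru' := by linarith
  have hv0' : 0 < Rv' := by linarith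
  have hRN0 : 0 < RN := lt_of_lt_of_le (mul_pos hu0 hv0) hRN
  have hP1' : 1 ≤ P1 := by rw [hP1]; exact one_le_pow₀ (one_le_pow₀ hH)
  have hP10 : 0 < P1 := by linarith
  have hG1' : 1 ≤ G1 := by
    have h4 : 1 ≤ H ^ 4 := one_le_pow₀ hH
    rw [hG1]
    nlinarith
  have hG10 : 0 < G1 := by linarith
  have hP2' : 1 ≤ P2 := by
    rw [hP2]
    apply one_le_pow₀
    have h3 : 1 ≤ H ^ 3 := one_le_pow₀ hH
    nlinarith
  have hP20 : 0 < P2 := by linarith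
  have hH5 : 1 ≤ H ^ 5 := one_le_pow₀ hH
  have hPH : 1 ≤ P2 * H ^ 5 := by nlinarith
  have hG12 : G1 ≤ G2 := by
    rw [hG2]
    have : 1 * G1 ≤ (2 * P2 * H ^ 5) * G1 := by
      apply mul_le_mul_of_nonneg_right _ hG10.le
      nlinarith
    linarith
  have hG2' : 1 ≤ G2 := le_trans hG1' hG12
  -- step (i)
  have hmin : min Rv Rv' ≤ G1 := by
    rw [hG1]
    apply min_le_of hv hv' _ (by positivity)
    rw [← hP1] at I1
    have h1 : Ru * Rv * Rv' ≤ P1 * H ^ 2 * (2 * H ^ 2 * (Ru * Rv') + H * (Ru' * Rv')) := by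
      calc Ru * Rv * Rv' ≤ (H * (2 * H ^ 2 * Ru + H * Ru') * H * P1) * Rv' :=
            mul_le_mul_of_nonneg_right I1 hv0'.le
        _ = _ := by ring
    have h2 : P1 * H ^ 2 * (2 * H ^ 2 * (Ru * Rv') + H * (Ru' * Rv')) ≤
        P1 * H ^ 2 * (2 * H ^ 2 * (Ru * Rv') + H * (H * (Ru * Rv))) := by
      apply mul_le_mul_of_nonneg_left _ (by positivity)
      have := mul_le_mul_of_nonneg_left r2 hH0.le
      linarith
    have h3 : Ru * (Rv * Rv') ≤ Ru * (P1 * H ^ 4 * (2 * Rv' + Rv)) := by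
      calc Ru * (Rv * Rv') = Ru * Rv * Rv' := by ring
        _ ≤ _ := h1.trans h2
        _ = _ := by ring
    exact le_of_mul_le_mul_left h3 hu0
  -- both are at most G2
  have hboth : Rv ≤ G2 ∧ Rv' ≤ G2 := by
    rcases le_total Rv Rv' with hvv | hvv
    · rw [min_eq_left hvv] at hmin
      refine ⟨hmin.trans hG12, ?_⟩
      have h1 := I2 G1 hG1' hmin
      rw [← hP2] at h1
      have hinv : Rv' / RN ≤ H * Ru := by
        rw [div_le_iff₀ hRN0]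
        calc Rv' = 1 * Rv' := (one_mul _).symm
          _ ≤ Ru' * Rv' := mul_le_mul_of_nonneg_right hu' hv0'.le
          _ ≤ H * (Ru * Rv) := r2
          _ ≤ H * RN := mul_le_mul_of_nonneg_left hRN hH0.le
          _ = H * 1 * RN := by ring
          _ ≤ H * Ru * RN := by
            apply mul_le_mul_of_nonneg_right _ hRN0.le
            exact mul_le_mul_of_nonneg_left hu hH0.le
      have h2 : Ru * Rv' ≤ H ^ 2 * P2 * (H * (Ru' * Rv') + H ^ 2 * (Rv' / RN)) := by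
        calc Ru * Rv' ≤ (H * (H * Ru' + H ^ 2 / RN) * H * P2) * Rv' :=
              mul_le_mul_of_nonneg_right h1 hv0'.le
          _ = _ := by ring
      have h3 : Ru' * Rv' ≤ H * G1 * Ru := by
        calc Ru' * Rv' ≤ H * (Ru * Rv) := r2
          _ ≤ H * (Ru * G1) := by
            apply mul_le_mul_of_nonneg_left _ hH0.le
            exact mul_le_mul_of_nonneg_left hmin hu0.le
          _ = _ := by ring
      have h4 : Ru * Rv' ≤ Ru * (H ^ 2 * P2 * (H ^ 2 * G1 + H ^ 3)) := by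
        calc Ru * Rv' ≤ H ^ 2 * P2 * (H * (Ru' * Rv') + H ^ 2 * (Rv' / RN)) := h2
          _ ≤ H ^ 2 * P2 * (H * (H * G1 * Ru) + H ^ 2 * (H * Ru)) := by
            apply mul_le_mul_of_nonneg_left _ (by positivity)
            have := mul_le_mul_of_nonneg_left h3 hH0.le
            have := mul_le_mul_of_nonneg_left hinv (show (0 : ℝ) ≤ H ^ 2 by positivity)
            linarith
          _ = _ := by ring
      have h5 := le_of_mul_le_mul_left h4 hu0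
      have h6 : H ^ 2 * G1 + H ^ 3 ≤ 2 * (H ^ 3 * G1) := by
        have e1 : H ^ 2 * G1 ≤ H ^ 3 * G1 := by
          apply mul_le_mul_of_nonneg_right _ hG10.le
          exact pow_le_pow_right₀ hH (by norm_num)
        have e2 : H ^ 3 * 1 ≤ H ^ 3 * G1 := mul_le_mul_of_nonneg_left hG1' (by positivity)
        linarith
      calc Rv' ≤ H ^ 2 * P2 * (H ^ 2 * G1 + H ^ 3) := h5
        _ ≤ H ^ 2 * P2 * (2 * (H ^ 3 * G1)) := mul_le_mul_of_nonneg_left h6 (by positivity)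
        _ = G2 := by rw [hG2]; ring
    · rw [min_eq_right hvv] at hmin
      refine ⟨?_, hmin.trans hG12⟩
      have h1 := I3 G1 hG1' hmin
      rw [← hP2] at h1
      have h2 : Ru * Rv ≤ Ru * (2 * P2 * H ^ 4 * G1) := by
        calc Ru * Rv ≤ H * (2 * H ^ 2 * Ru) * (H * G1) * P2 := h1
          _ = _ := by ring
      have h3 := le_of_mul_le_mul_left h2 hu0
      calc Rv ≤ 2 * P2 * H ^ 4 * G1 := h3
        _ ≤ 2 * P2 * H ^ 5 * G1 := by
          apply mul_le_mul_of_nonneg_right _ hG10.le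
          apply mul_le_mul_of_nonneg_left _ (by positivity)
          exact pow_le_pow_right₀ hH (by norm_num)
        _ = G2 := by rw [hG2]
  have h1 := I4 G2 hG2' hboth.1 hboth.2
  have h2 : RN * 1 ≤ RN * Ru := mul_le_mul_of_nonneg_left hu hRN0.le
  calc RN = RN * 1 := (mul_one _).symm
    _ ≤ RN * Ru := h2
    _ ≤ RN * (H * (H ^ 2 / RN) * (H * G2) * (H ^ 3 * G2 ^ 2) ^ μ) :=
      mul_le_mul_of_nonneg_left h1 hRN0.le
    _ = H ^ 4 * G2 * (H ^ 3 * G2 ^ 2) ^ μ := by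
      field_simp

/-- the irrationality measure, applied to an approximation -/
lemma core {r μ : ℕ} {g H : ℝ} (hr : 2 ≤ r) (hH : 0 ≤ H)
    (hg : ∀ (Q : ℕ) (R : ℤ), 0 < Q → 1 ≤ H * (|g * Q - R| * (Q : ℝ) ^ μ))
    (α β σ σ' : ℕ) (B Z : ℤ) (hB : B ≠ 0) (hσ : 0 < σ) (X ε : ℝ) (hX : 1 ≤ X)
    (hαβ : (r : ℝ) ^ α ≤ X * (r : ℝ) ^ β)
    (hε : |g * B * ((r : ℝ) ^ α * σ) - Z * ((r : ℝ) ^ β * σ')| ≤ ε) :
    (r : ℝ) ^ α ≤ H * ε * X * (|(B : ℝ)| * σ * X) ^ μ := by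
  have hr0 : (0 : ℝ) < r := by
    have : 0 < r := by omega
    exact_mod_cast this
  have hε0 : 0 ≤ ε := le_trans (abs_nonneg _) hε
  set m := min α β with hm
  have hmα : m ≤ α := min_le_left _ _
  have hmβ : m ≤ β := min_le_right _ _
  have hrm : (0 : ℝ) < (r : ℝ) ^ m := pow_pos hr0 _
  have e1 : (r : ℝ) ^ α = (r : ℝ) ^ (α - m) * (r : ℝ) ^ m := by
    rw [← pow_add]; congr 1; omega
  have e2 : (r : ℝ) ^ β = (r : ℝ) ^ (β - m) * (r : ℝ) ^ m := by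
    rw [← pow_add]; congr 1; omega
  have hXm : (r : ℝ) ^ α ≤ X * (r : ℝ) ^ m := by
    rcases le_total α β with h | h
    · have : m = α := min_eq_left h
      rw [this]
      have h1 : (0 : ℝ) < (r : ℝ) ^ α := pow_pos hr0 _
      nlinarith
    · have : m = β := min_eq_right h
      rw [this]
      exact hαβ
  have hXd : (r : ℝ) ^ (α - m) ≤ X := by
    rw [e1] at hXm
    exact le_of_mul_le_mul_right hXm hrm
  -- the approximation
  set Q : ℕ := B.natAbs * σ * r ^ (α - m) with hQ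
  set R : ℤ := B.sign * (Z * (r ^ (β - m) * σ')) with hR
  have hQ0 : 0 < Q := by
    have h1 : 0 < B.natAbs := Int.natAbs_pos.2 hB
    have h2 : 0 < r ^ (α - m) := Nat.pow_pos (by omega)
    exact Nat.mul_pos (Nat.mul_pos h1 hσ) h2
  have hQR : (Q : ℝ) = |(B : ℝ)| * σ * (r : ℝ) ^ (α - m) := by
    rw [hQ]
    push_cast
    rw [Nat.cast_natAbs]
    push_cast
    ring
  have hsgn : (B.sign : ℝ) * B = |(B : ℝ)| := by
    have h1 := Int.sign_mul_abs B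
    have h2 : (B.sign : ℤ) * B = |B| := Int.sign_mul_self_eq_abs B
    rw [← Int.cast_abs, ← h2]
    push_cast
    ring
  have hsgn1 : |(B.sign : ℝ)| = 1 := by
    rw [← Int.cast_abs, Int.abs_sign_of_ne_zero hB]
    simp
  have hdiff : |g * Q - R| * (r : ℝ) ^ m ≤ ε := by
    have h1 : (g * Q - R) * (r : ℝ) ^ m =
        (B.sign : ℝ) * (g * B * ((r : ℝ) ^ α * σ) - Z * ((r : ℝ) ^ β * σ')) := by
      rw [hQR, e1, e2, hR]
      push_cast
      rw [← hsgn]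
      ring
    have h2 : |g * Q - R| * (r : ℝ) ^ m = |(g * Q - R) * (r : ℝ) ^ m| := by
      rw [abs_mul, abs_of_pos hrm]
    rw [h2, h1, abs_mul, hsgn1, one_mul]
    exact hε
  have h3 := hg Q R hQ0
  have hQX : (Q : ℝ) ^ μ ≤ (|(B : ℝ)| * σ * X) ^ μ := by
    apply pow_le_pow_left₀ (by positivity)
    rw [hQR]
    apply mul_le_mul_of_nonneg_left hXd
    positivity
  have hQμ : (0 : ℝ) ≤ (Q : ℝ) ^ μ := by positivity
  have hXX : 0 ≤ X := by linarith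
  calc (r : ℝ) ^ α ≤ X * (r : ℝ) ^ m := hXm
    _ = X * (r : ℝ) ^ m * 1 := (mul_one _).symm
    _ ≤ X * (r : ℝ) ^ m * (H * (|g * Q - R| * (Q : ℝ) ^ μ)) := by
      apply mul_le_mul_of_nonneg_left h3
      positivity
    _ = X * H * (Q : ℝ) ^ μ * (|g * Q - R| * (r : ℝ) ^ m) := by ring
    _ ≤ X * H * (Q : ℝ) ^ μ * ε := by
      apply mul_le_mul_of_nonneg_left hdiff
      positivity
    _ = H * ε * X * (Q : ℝ) ^ μ := by ring
    _ ≤ H * ε * X * (|(B : ℝ)| * σ * X) ^ μ := by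
      apply mul_le_mul_of_nonneg_left hQX
      positivity

/-- the measure of `c x + d` -/
lemma meas_g {x : ℝ} {μ : ℕ} (h : Meas x μ) (c d : ℤ) (hc : c ≠ 0) :
    ∃ κ : ℝ, 0 < κ ∧ ∀ (Q : ℕ) (R : ℤ), 0 < Q →
      1 ≤ κ * (|(c * x + d) * Q - R| * (Q : ℝ) ^ μ) := by
  obtain ⟨c₀, hc₀, h1⟩ := h
  have hcR : (c : ℝ) ≠ 0 := by exact_mod_cast hc
  have hca : 0 < |(c : ℝ)| := abs_pos.2 hcR
  refine ⟨|(c : ℝ)| ^ μ / c₀, by positivity, ?_⟩
  intro Q R hQ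
  have hn : 0 < c.natAbs := Int.natAbs_pos.2 hc
  have h2 := h1 (c.natAbs * Q) (c.sign * (R - d * Q)) (Nat.mul_pos hn hQ)
  have hQR : (0 : ℝ) < Q := by exact_mod_cast hQ
  have hQ1 : (1 : ℝ) ≤ Q := by exact_mod_cast hQ
  have hsgn : (c.sign : ℝ) * c = |(c : ℝ)| := by
    have h2 : (c.sign : ℤ) * c = |c| := Int.sign_mul_self_eq_abs c
    rw [← Int.cast_abs, ← h2]
    push_cast
    ring
  have hsgn1 : |(c.sign : ℝ)| = 1 := by
    rw [← Int.cast_abs, Int.abs_sign_of_ne_zero hc]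
    simp
  have hnat : ((c.natAbs * Q : ℕ) : ℝ) = |(c : ℝ)| * Q := by
    push_cast
    rw [Nat.cast_natAbs]
    push_cast
    ring
  have hca1 : (1 : ℝ) ≤ |(c : ℝ)| := by
    rw [← Int.cast_abs]
    exact_mod_cast Int.one_le_abs hc
  have hcQ : (0 : ℝ) < |(c : ℝ)| * Q := by positivity
  have h3 : |x - ((c.sign * (R - d * Q) : ℤ) : ℝ) / ((c.natAbs * Q : ℕ) : ℝ)| * (|(c : ℝ)| * Q) =
      |(c * x + d) * Q - R| := by
    rw [hnat]
    have h4 : (x - ((c.sign * (R - d * Q) : ℤ) : ℝ) / (|(c : ℝ)| * Q)) * (|(c : ℝ)| * Q) =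
        (c.sign : ℝ) * ((c * x + d) * Q - R) := by
      rw [sub_mul, div_mul_cancel₀ _ hcQ.ne']
      push_cast
      rw [← hsgn]
      ring
    have h5 : |x - ((c.sign * (R - d * Q) : ℤ) : ℝ) / (|(c : ℝ)| * Q)| * (|(c : ℝ)| * Q) =
        |(x - ((c.sign * (R - d * Q) : ℤ) : ℝ) / (|(c : ℝ)| * Q)) * (|(c : ℝ)| * Q)| := by
      rw [abs_mul, abs_of_pos hcQ]
    rw [h5, h4, abs_mul, hsgn1, one_mul]
  rw [hnat] at h2
  rw [hnat] at h3
  have h6 : (1 : ℝ) ≤ |(c : ℝ)| * Q := by nlinarith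
  have h7 : c₀ ≤ |(c * x + d) * Q - R| * (|(c : ℝ)| * Q) ^ μ := by
    calc c₀ ≤ |x - ((c.sign * (R - d * Q) : ℤ) : ℝ) / (|(c : ℝ)| * Q)| * (|(c : ℝ)| * Q) ^ μ := h2
      _ = |x - ((c.sign * (R - d * Q) : ℤ) : ℝ) / (|(c : ℝ)| * Q)| * 1 *
          (|(c : ℝ)| * Q) ^ μ := by ring
      _ ≤ |x - ((c.sign * (R - d * Q) : ℤ) : ℝ) / (|(c : ℝ)| * Q)| * (|(c : ℝ)| * Q) *
          (|(c : ℝ)| * Q) ^ μ := by
        apply mul_le_mul_of_nonneg_right _ (by positivity)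
        exact mul_le_mul_of_nonneg_left h6 (abs_nonneg _)
      _ = _ := by rw [h3]
  rw [mul_pow] at h7
  have h8 : |(c : ℝ)| ^ μ / c₀ * (|(c * x + d) * Q - R| * (Q : ℝ) ^ μ) =
      (|(c * x + d) * Q - R| * (|(c : ℝ)| ^ μ * (Q : ℝ) ^ μ)) / c₀ := by ring
  rw [h8, le_div_iff₀ hc₀, one_mul]
  exact h7

/-- the four cases -/
lemma main_real {r μ u v u' v' N : ℕ} {g H : ℝ} (B Z : ℤ) (hr : 2 ≤ r) (hv : 1 ≤ v)
    (hH1 : 1 ≤ H)
    (hgH : ∀ (Q : ℕ) (R : ℤ), 0 < Q → 1 ≤ H * (|g * Q - R| * (Q : ℝ) ^ μ))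
    (hB0 : B ≠ 0) (hBH : |(B : ℝ)| ≤ H ^ 2) (hgBH : |g * B| ≤ H ^ 2) (hZH : |(Z : ℝ)| ≤ H)
    (hstar : |g * B * ((r : ℝ) ^ u * ((r : ℝ) ^ v - 1)) -
      Z * ((r : ℝ) ^ u' * ((r : ℝ) ^ v' - 1))| ≤ H ^ 2 / (r : ℝ) ^ N)
    (r1 : (r : ℝ) ^ u * (r : ℝ) ^ v ≤ H * ((r : ℝ) ^ u' * (r : ℝ) ^ v'))
    (r2 : (r : ℝ) ^ u' * (r : ℝ) ^ v' ≤ H * ((r : ℝ) ^ u * (r : ℝ) ^ v))
    (hRuRN : (r : ℝ) ^ u * (r : ℝ) ^ v ≤ (r : ℝ) ^ N) :
    (r : ℝ) ^ N ≤ H ^ 4 * (2 * ((H ^ 3 * (3 * (((H ^ 3) ^ μ) * H ^ 4))) ^ μ) * H ^ 5 *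
      (3 * (((H ^ 3) ^ μ) * H ^ 4))) * (H ^ 3 * (2 * ((H ^ 3 * (3 * (((H ^ 3) ^ μ) * H ^ 4))) ^ μ) *
      H ^ 5 * (3 * (((H ^ 3) ^ μ) * H ^ 4))) ^ 2) ^ μ := by
  have hr2 : (2 : ℝ) ≤ r := by exact_mod_cast hr
  have hr1 : (1 : ℝ) ≤ r := by linarith
  have hr0 : (0 : ℝ) < r := by linarith
  have hH0 : 0 < H := by linarith
  have hw : (r : ℝ) ^ (u + v) = (r : ℝ) ^ u * (r : ℝ) ^ v := pow_add _ _ _
  have hw' : (r : ℝ) ^ (u' + v') = (r : ℝ) ^ u' * (r : ℝ) ^ v' := pow_add _ _ _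
  have hu1 : 1 ≤ (r : ℝ) ^ u := one_le_pow₀ hr1
  have hv1 : 1 ≤ (r : ℝ) ^ v := one_le_pow₀ hr1
  have hu1' : 1 ≤ (r : ℝ) ^ u' := one_le_pow₀ hr1
  have hv1' : 1 ≤ (r : ℝ) ^ v' := one_le_pow₀ hr1
  have hRN1 : 1 ≤ (r : ℝ) ^ N := one_le_pow₀ hr1
  have hσv : ((r ^ v - 1 : ℕ) : ℝ) = (r : ℝ) ^ v - 1 := by
    push_cast [Nat.cast_sub (one_le_pow' (v := v) hr)]
    rfl
  have hσv' : ((r ^ v' - 1 : ℕ) : ℝ) = (r : ℝ) ^ v' - 1 := by
    push_cast [Nat.cast_sub (one_le_pow' (v := v') hr)]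
    rfl
  have hH2RN : H ^ 2 / (r : ℝ) ^ N ≤ H ^ 2 := div_le_self (by positivity) hRN1
  generalize hRu : (r : ℝ) ^ u = Ru at *
  generalize hRv : (r : ℝ) ^ v = Rv at *
  generalize hRu' : (r : ℝ) ^ u' = Ru' at *
  generalize hRv' : (r : ℝ) ^ v' = Rv' at *
  generalize hRNN : (r : ℝ) ^ N = RN at *
  have hσ0 : 0 < r ^ v - 1 := by
    have h1 : r ^ 1 ≤ r ^ v := Nat.pow_le_pow_right (by omega) hv
    rw [pow_one] at h1
    omega
  have hRvm : 0 ≤ Rv - 1 := by linarith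
  have hRuw : Ru ≤ Ru * Rv := by nlinarith
  refine fin_real μ H Ru Rv Ru' Rv' RN _ _ _ _ hH1 hu1 hv1 hu1' hv1' hRuRN r1 r2
    ?_ ?_ ?_ ?_ rfl rfl rfl rfl
  · -- I1
    have hε : |g * B * ((r : ℝ) ^ (u + v) * ((1 : ℕ) : ℝ)) -
        Z * ((r : ℝ) ^ (u' + v') * ((1 : ℕ) : ℝ))| ≤ 2 * H ^ 2 * Ru + H * Ru' := by
      rw [hw, hw']
      have e : g * B * (Ru * Rv * ((1 : ℕ) : ℝ)) - Z * (Ru' * Rv' * ((1 : ℕ) : ℝ)) =
          (g * B * (Ru * (Rv - 1)) - Z * (Ru' * (Rv' - 1))) + g * B * Ru - Z * Ru' := by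
        push_cast; ring
      rw [e]
      calc |(g * B * (Ru * (Rv - 1)) - Z * (Ru' * (Rv' - 1))) + g * B * Ru - Z * Ru'|
          ≤ |(g * B * (Ru * (Rv - 1)) - Z * (Ru' * (Rv' - 1))) + g * B * Ru| + |Z * Ru'| :=
            abs_sub _ _
        _ ≤ |g * B * (Ru * (Rv - 1)) - Z * (Ru' * (Rv' - 1))| + |g * B * Ru| + |Z * Ru'| := by
            have := abs_add_le (g * B * (Ru * (Rv - 1)) - Z * (Ru' * (Rv' - 1))) (g * B * Ru)
            linarith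
        _ ≤ H ^ 2 + H ^ 2 * Ru + H * Ru' := by
            rw [abs_mul (g * B) Ru, abs_mul (Z : ℝ) Ru', abs_of_pos (show (0 : ℝ) < Ru by linarith),
              abs_of_pos (show (0 : ℝ) < Ru' by linarith)]
            have a1 := mul_le_mul_of_nonneg_right hgBH (show (0 : ℝ) ≤ Ru by linarith)
            have a2 := mul_le_mul_of_nonneg_right hZH (show (0 : ℝ) ≤ Ru' by linarith)
            linarith
        _ ≤ 2 * H ^ 2 * Ru + H * Ru' := by
            have : H ^ 2 * 1 ≤ H ^ 2 * Ru := mul_le_mul_of_nonneg_left hu1 (by positivity)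
            linarith
    have h1 := core hr hH0.le hgH (u + v) (u' + v') 1 1 B Z hB0 (by norm_num) H _ hH1
      (by rw [hw, hw']; exact r1) hε
    rw [hw] at h1
    refine h1.trans ?_
    apply mul_le_mul_of_nonneg_left _ (by positivity)
    apply pow_le_pow_left₀ (by positivity)
    push_cast
    calc |(B : ℝ)| * 1 * H = |(B : ℝ)| * H := by ring
      _ ≤ H ^ 2 * H := mul_le_mul_of_nonneg_right hBH hH0.le
      _ = _ := by ring
  · -- I2
    intro G hG hvG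
    have hε : |g * B * ((r : ℝ) ^ u * ((r ^ v - 1 : ℕ) : ℝ)) -
        Z * ((r : ℝ) ^ (u' + v') * ((1 : ℕ) : ℝ))| ≤ H * Ru' + H ^ 2 / RN := by
      rw [hRu, hw', hσv]
      have e : g * B * (Ru * (Rv - 1)) - Z * (Ru' * Rv' * ((1 : ℕ) : ℝ)) =
          (g * B * (Ru * (Rv - 1)) - Z * (Ru' * (Rv' - 1))) - Z * Ru' := by
        push_cast; ring
      rw [e]
      calc |(g * B * (Ru * (Rv - 1)) - Z * (Ru' * (Rv' - 1))) - Z * Ru'|
          ≤ |g * B * (Ru * (Rv - 1)) - Z * (Ru' * (Rv' - 1))| + |Z * Ru'| := abs_sub _ _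
        _ ≤ H ^ 2 / RN + H * Ru' := by
            rw [abs_mul (Z : ℝ) Ru', abs_of_pos (show (0 : ℝ) < Ru' by linarith)]
            have a2 := mul_le_mul_of_nonneg_right hZH (show (0 : ℝ) ≤ Ru' by linarith)
            linarith
        _ = _ := by ring
    have h1 := core hr hH0.le hgH u (u' + v') (r ^ v - 1) 1 B Z hB0 hσ0 H _ hH1
      (by rw [hRu, hw']; exact hRuw.trans r1) hε
    rw [hRu] at h1
    refine h1.trans ?_
    apply mul_le_mul_of_nonneg_left _ (by positivity)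
    apply pow_le_pow_left₀ (by positivity)
    rw [hσv]
    calc |(B : ℝ)| * (Rv - 1) * H ≤ H ^ 2 * G * H := by
          apply mul_le_mul_of_nonneg_right _ hH0.le
          exact mul_le_mul hBH (by linarith) hRvm (by positivity)
      _ = _ := by ring
  · -- I3
    intro G hG hvG
    have hX : 1 ≤ H * G := by nlinarith
    have hε : |g * B * ((r : ℝ) ^ (u + v) * ((1 : ℕ) : ℝ)) -
        Z * ((r : ℝ) ^ u' * ((r ^ v' - 1 : ℕ) : ℝ))| ≤ 2 * H ^ 2 * Ru := by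
      rw [hw, hσv', hRu']
      have e : g * B * (Ru * Rv * ((1 : ℕ) : ℝ)) - Z * (Ru' * (Rv' - 1)) =
          (g * B * (Ru * (Rv - 1)) - Z * (Ru' * (Rv' - 1))) + g * B * Ru := by
        push_cast; ring
      rw [e]
      calc |(g * B * (Ru * (Rv - 1)) - Z * (Ru' * (Rv' - 1))) + g * B * Ru|
          ≤ |g * B * (Ru * (Rv - 1)) - Z * (Ru' * (Rv' - 1))| + |g * B * Ru| := abs_add_le _ _
        _ ≤ H ^ 2 + H ^ 2 * Ru := by
            rw [abs_mul (g * B) Ru, abs_of_pos (show (0 : ℝ) < Ru by linarith)]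
            have a1 := mul_le_mul_of_nonneg_right hgBH (show (0 : ℝ) ≤ Ru by linarith)
            linarith
        _ ≤ 2 * H ^ 2 * Ru := by
            have : H ^ 2 * 1 ≤ H ^ 2 * Ru := mul_le_mul_of_nonneg_left hu1 (by positivity)
            linarith
    have hαβ : (r : ℝ) ^ (u + v) ≤ H * G * (r : ℝ) ^ u' := by
      rw [hw, hRu']
      calc Ru * Rv ≤ H * (Ru' * Rv') := r1
        _ ≤ H * (Ru' * G) := by
          apply mul_le_mul_of_nonneg_left _ hH0.le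
          exact mul_le_mul_of_nonneg_left hvG (by linarith)
        _ = _ := by ring
    have h1 := core hr hH0.le hgH (u + v) u' 1 (r ^ v' - 1) B Z hB0 (by norm_num) (H * G) _ hX
      hαβ hε
    rw [hw] at h1
    refine h1.trans ?_
    apply mul_le_mul_of_nonneg_left _ (by positivity)
    apply pow_le_pow_left₀ (by positivity)
    push_cast
    calc |(B : ℝ)| * 1 * (H * G) = |(B : ℝ)| * (H * G) := by ring
      _ ≤ H ^ 2 * (H * G) := mul_le_mul_of_nonneg_right hBH (by positivity)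
      _ = _ := by ring
  · -- I4
    intro G hG hvG hvG'
    have hX : 1 ≤ H * G := by nlinarith
    have hε : |g * B * ((r : ℝ) ^ u * ((r ^ v - 1 : ℕ) : ℝ)) -
        Z * ((r : ℝ) ^ u' * ((r ^ v' - 1 : ℕ) : ℝ))| ≤ H ^ 2 / RN := by
      rw [hσv, hσv', hRu, hRu']
      exact hstar
    have hαβ : (r : ℝ) ^ u ≤ H * G * (r : ℝ) ^ u' := by
      rw [hRu, hRu']
      calc Ru ≤ Ru * Rv := hRuw
        _ ≤ H * (Ru' * Rv') := r1
        _ ≤ H * (Ru' * G) := by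
          apply mul_le_mul_of_nonneg_left _ hH0.le
          exact mul_le_mul_of_nonneg_left hvG' (by linarith)
        _ = _ := by ring
    have h1 := core hr hH0.le hgH u u' (r ^ v - 1) (r ^ v' - 1) B Z hB0 hσ0 (H * G) _ hX
      hαβ hε
    rw [hRu] at h1
    refine h1.trans ?_
    apply mul_le_mul_of_nonneg_left _ (by positivity)
    apply pow_le_pow_left₀ (by positivity)
    rw [hσv]
    calc |(B : ℝ)| * (Rv - 1) * (H * G) ≤ H ^ 2 * G * (H * G) := by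
          apply mul_le_mul_of_nonneg_right _ (by positivity)
          exact mul_le_mul hBH (by linarith) hRvm (by positivity)
      _ = _ := by ring

/-- everything is bounded by a power of `h` -/
lemma pows (μ K : ℕ) (h H G1 G2 P1 P2 : ℝ) (hh : 2 ≤ h) (hH : 1 ≤ H) (hHe : H ≤ h ^ (K + 1))
    (hP1 : P1 = (H ^ 3) ^ μ) (hG1 : G1 = 3 * (P1 * H ^ 4)) (hP2 : P2 = (H ^ 3 * G1) ^ μ)
    (hG2 : G2 = 2 * P2 * H ^ 5 * G1) :
    ∃ e3 : ℕ, (e3 = 4 * (K + 1) + (1 + (3 * (K + 1) + (2 + (3 * (K + 1)) * μ + 4 * (K + 1))) * μ +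
      5 * (K + 1) + (2 + (3 * (K + 1)) * μ + 4 * (K + 1))) + (3 * (K + 1) +
      2 * (1 + (3 * (K + 1) + (2 + (3 * (K + 1)) * μ + 4 * (K + 1))) * μ +
      5 * (K + 1) + (2 + (3 * (K + 1)) * μ + 4 * (K + 1)))) * μ) ∧
      H ^ 4 * G2 * (H ^ 3 * G2 ^ 2) ^ μ ≤ h ^ e3 := by
  have h0 : (0 : ℝ) < h := by linarith
  have hH0 : (0 : ℝ) < H := by linarith
  set e := K + 1 with he
  have p3 : H ^ 3 ≤ h ^ (3 * e) := by
    calc H ^ 3 ≤ (h ^ e) ^ 3 := pow_le_pow_left₀ hH0.le hHe 3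
      _ = _ := by rw [← pow_mul]; congr 1; ring
  have p4 : H ^ 4 ≤ h ^ (4 * e) := by
    calc H ^ 4 ≤ (h ^ e) ^ 4 := pow_le_pow_left₀ hH0.le hHe 4
      _ = _ := by rw [← pow_mul]; congr 1; ring
  have p5 : H ^ 5 ≤ h ^ (5 * e) := by
    calc H ^ 5 ≤ (h ^ e) ^ 5 := pow_le_pow_left₀ hH0.le hHe 5
      _ = _ := by rw [← pow_mul]; congr 1; ring
  have c2 : (2 : ℝ) ≤ h ^ 1 := by rw [pow_one]; exact hh
  have c3 : (3 : ℝ) ≤ h ^ 2 := by nlinarith
  have q1 : P1 ≤ h ^ ((3 * e) * μ) := by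
    rw [hP1, pow_mul]
    exact pow_le_pow_left₀ (by positivity) p3 μ
  have hP10 : 0 ≤ P1 := by rw [hP1]; positivity
  have g1 : G1 ≤ h ^ (2 + (3 * e) * μ + 4 * e) := by
    rw [hG1, pow_add, pow_add]
    calc 3 * (P1 * H ^ 4) ≤ h ^ 2 * (h ^ ((3 * e) * μ) * h ^ (4 * e)) := by
          apply mul_le_mul c3 _ (by positivity) (by positivity)
          exact mul_le_mul q1 p4 (by positivity) (by positivity)
      _ = _ := by ring
  have hG10 : 0 ≤ G1 := by rw [hG1]; positivity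
  set e1 := 2 + (3 * e) * μ + 4 * e with he1
  have q2 : P2 ≤ h ^ ((3 * e + e1) * μ) := by
    rw [hP2, pow_mul, pow_add]
    apply pow_le_pow_left₀ (by positivity)
    exact mul_le_mul p3 g1 hG10 (by positivity)
  have hP20 : 0 ≤ P2 := by rw [hP2]; positivity
  have g2 : G2 ≤ h ^ (1 + (3 * e + e1) * μ + 5 * e + e1) := by
    rw [hG2, pow_add, pow_add, pow_add]
    apply mul_le_mul _ g1 hG10 (by positivity)
    apply mul_le_mul _ p5 (by positivity) (by positivity)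
    exact mul_le_mul c2 q2 hP20 (by positivity)
  have hG20 : 0 ≤ G2 := by rw [hG2]; positivity
  set e2 := 1 + (3 * e + e1) * μ + 5 * e + e1 with he2
  refine ⟨4 * e + e2 + (3 * e + 2 * e2) * μ, rfl, ?_⟩
  rw [pow_add, pow_add, pow_mul h (3 * e + 2 * e2) μ]
  have q3 : (H ^ 3 * G2 ^ 2) ^ μ ≤ (h ^ (3 * e + 2 * e2)) ^ μ := by
    apply pow_le_pow_left₀ (by positivity)
    rw [pow_add]
    apply mul_le_mul p3 _ (by positivity) (by positivity)
    calc G2 ^ 2 ≤ (h ^ e2) ^ 2 := pow_le_pow_left₀ hG20 g2 2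
      _ = _ := by rw [← pow_mul]; congr 1; ring
  apply mul_le_mul _ q3 (by positivity) (by positivity)
  exact mul_le_mul p4 g2 hG20 (by positivity)

end TBC_

open TBC_ in
theorem tbc_proof : Stmt_TBC := by
  intro x μ r C a b c d hirr hμ hmeas hr hc hΔ
  obtain ⟨κ, hκ, hg⟩ := meas_g hmeas c d hc
  set g : ℝ := c * x + d with hgdef
  have hcR : (c : ℝ) ≠ 0 := by exact_mod_cast hc
  have hg0 : g ≠ 0 := by
    intro h0
    apply hirr
    refine ⟨(-d : ℤ) / (c : ℤ), ?_⟩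
    push_cast
    rw [hgdef] at h0
    field_simp
    linarith
  have hga : 0 < |g| := abs_pos.2 hg0
  set δ : ℝ := |((a * d - b * c : ℤ) : ℝ)| with hδ
  have hδ1 : 1 ≤ δ := by
    rw [hδ, ← Int.cast_abs]
    exact_mod_cast Int.one_le_abs hΔ
  have hδ0 : 0 < δ := by linarith
  have hcabs : 0 < |(c : ℝ)| := abs_pos.2 hcR
  have hC0 : (0 : ℝ) ≤ C := Nat.cast_nonneg _
  set f1 : ℝ := 4 * δ * C / |g| with hf1
  have hf10 : 0 ≤ f1 := by positivity
  obtain ⟨K, hK⟩ := exists_nat_ge (1 + C + 2 * δ + 4 * δ / |g| + f1 + 4 * δ * C + |(c : ℝ)| * f1 +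
    2 * |(c : ℝ)| / |g| + κ)
  have t1 : 0 ≤ 4 * δ / |g| := by positivity
  have t2 : 0 ≤ 4 * δ * C := by positivity
  have t3 : 0 ≤ |(c : ℝ)| * f1 := by positivity
  have t4 : 0 ≤ 2 * |(c : ℝ)| / |g| := by positivity
  refine ⟨4 * (K + 1) + (1 + (3 * (K + 1) + (2 + (3 * (K + 1)) * μ + 4 * (K + 1))) * μ +
      5 * (K + 1) + (2 + (3 * (K + 1)) * μ + 4 * (K + 1))) + (3 * (K + 1) +
      2 * (1 + (3 * (K + 1) + (2 + (3 * (K + 1)) * μ + 4 * (K + 1))) * μ +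
      5 * (K + 1) + (2 + (3 * (K + 1)) * μ + 4 * (K + 1)))) * μ, ?_⟩
  intro t N u v u' v' a₁ b₁ P' hv hv' hb₁ hcop hdvd huvN hx hrb hCC hP
  have hr2 : (2 : ℝ) ≤ r := by exact_mod_cast hr
  have hr1 : (1 : ℝ) ≤ r := by linarith
  have hr0 : (0 : ℝ) < r := by linarith
  set h : ℝ := (r : ℝ) ^ (t + 1) with hhdef
  have hh2 : 2 ≤ h := by
    calc (2 : ℝ) ≤ r := hr2
      _ = (r : ℝ) ^ 1 := (pow_one _).symm
      _ ≤ _ := pow_le_pow_right₀ hr1 (by omega)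
  have hh0 : 0 < h := by linarith
  have hK1 : (1 : ℝ) ≤ K := by linarith
  set H : ℝ := K * h with hHdef
  have hH1 : 1 ≤ H := by rw [hHdef]; nlinarith
  have hH0 : 0 < H := by linarith
  have hHe : H ≤ h ^ (K + 1) := by
    rw [hHdef, pow_succ]
    apply mul_le_mul_of_nonneg_right _ hh0.le
    calc (K : ℝ) ≤ 2 ^ K := by exact_mod_cast (Nat.lt_two_pow_self).le
      _ ≤ h ^ K := pow_le_pow_left₀ (by norm_num) hh2 K
  obtain ⟨e3, he3, hpows⟩ := pows μ K h H (3 * (((H ^ 3) ^ μ) * H ^ 4))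
    (2 * ((H ^ 3 * (3 * (((H ^ 3) ^ μ) * H ^ 4))) ^ μ) * H ^ 5 * (3 * (((H ^ 3) ^ μ) * H ^ 4)))
    ((H ^ 3) ^ μ) ((H ^ 3 * (3 * (((H ^ 3) ^ μ) * H ^ 4))) ^ μ) hh2 hH1 hHe rfl rfl rfl rfl
  rw [← he3]
  set RN : ℝ := (r : ℝ) ^ N with hRNdef
  have hRN0 : 0 < RN := pow_pos hr0 _
  have hRN1 : 1 ≤ RN := one_le_pow₀ hr1
  -- it suffices to bound RN
  have key : RN ≤ h ^ e3 → u + v ≤ e3 * (t + 1) := by
    intro hle
    have h1 : (r : ℝ) ^ N ≤ (r : ℝ) ^ ((t + 1) * e3) := by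
      rw [pow_mul]; exact hle
    have h2 : r ^ N ≤ r ^ ((t + 1) * e3) := by exact_mod_cast h1
    have h3 : N ≤ (t + 1) * e3 := (Nat.pow_le_pow_iff_right (by omega)).1 h2
    calc u + v ≤ N := huvN
      _ ≤ (t + 1) * e3 := h3
      _ = _ := Nat.mul_comm _ _
  apply key
  by_cases hsmall : RN ≤ 2 * |(c : ℝ)| / |g|
  · calc RN ≤ 2 * |(c : ℝ)| / |g| := hsmall
      _ ≤ K := by linarith
      _ ≤ H := by
        rw [hHdef]
        have h3 : (K : ℝ) * 1 ≤ K * h :=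
          mul_le_mul_of_nonneg_left (by linarith only [hh2]) (by linarith only [hK1])
        linarith only [h3]
      _ ≤ h ^ (K + 1) := hHe
      _ ≤ h ^ e3 := by
        apply pow_le_pow_right₀ (by linarith)
        rw [he3]
        omega
  push Not at hsmall
  -- integers
  have hE'0 : 0 < E r u' v' := E_pos hr hv'
  have hE0 : 0 < E r u v := E_pos hr hv
  have hb₁R : (0 : ℝ) < b₁ := by exact_mod_cast hb₁
  obtain ⟨s₁, s₂, hs⟩ := hcop
  set q₁ : ℤ := c * a₁ + d * b₁ with hq₁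
  set p₁ : ℤ := a * a₁ + b * b₁ with hp₁
  have hid : a * q₁ - c * p₁ = (a * d - b * c) * b₁ := by rw [hq₁, hp₁]; ring
  have hq₁0 : q₁ ≠ 0 := by
    intro hq
    rw [hq, mul_zero] at hP
    have hE'Z : (E r u' v' : ℤ) ≠ 0 := by exact_mod_cast hE'0.ne'
    have hp0 : p₁ = 0 := by
      rcases mul_eq_zero.1 hP.symm with h1 | h1
      · exact absurd h1 hE'Z
      · exact h1
    rw [hq, hp0] at hid
    simp only [mul_zero, sub_zero] at hid
    rcases mul_eq_zero.1 hid.symm with h1 | h1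
    · exact hΔ h1
    · have : (b₁ : ℤ) ≠ 0 := by exact_mod_cast hb₁.ne'
      exact this h1
  set B : ℤ := P' * (s₁ * d - s₂ * c) + (E r u' v' : ℤ) * (s₂ * a - s₁ * b) with hB
  have hΔE : (a * d - b * c) * (E r u' v' : ℤ) = q₁ * B := by
    have h1 : q₁ * B = (P' * q₁) * (s₁ * d - s₂ * c) +
        (E r u' v' : ℤ) * q₁ * (s₂ * a - s₁ * b) := by rw [hB]; ring
    rw [h1, hP]
    have h2 : (a * d - b * c) * (E r u' v' : ℤ) =
        (a * d - b * c) * (E r u' v' : ℤ) * (s₁ * a₁ + s₂ * b₁) := by rw [hs, mul_one]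
    rw [h2, hq₁, hp₁]
    ring
  have hB0 : B ≠ 0 := by
    intro h0
    rw [h0, mul_zero] at hΔE
    rcases mul_eq_zero.1 hΔE with h1 | h1
    · exact hΔ h1
    · have : (E r u' v' : ℤ) ≠ 0 := by exact_mod_cast hE'0.ne'
      exact this h1
  obtain ⟨A, hA⟩ := hdvd
  -- real quantities
  set Ru : ℝ := (r : ℝ) ^ u with hRu
  set Rv : ℝ := (r : ℝ) ^ v with hRv
  set Ru' : ℝ := (r : ℝ) ^ u' with hRu'
  set Rv' : ℝ := (r : ℝ) ^ v' with hRv'
  have hu1 : 1 ≤ Ru := one_le_pow₀ hr1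
  have hv1 : 1 ≤ Rv := one_le_pow₀ hr1
  have hu1' : 1 ≤ Ru' := one_le_pow₀ hr1
  have hv1' : 1 ≤ Rv' := one_le_pow₀ hr1
  have hER : (E r u v : ℝ) = Ru * (Rv - 1) := E_cast hr
  have hER' : (E r u' v' : ℝ) = Ru' * (Rv' - 1) := E_cast hr
  have hEA : (E r u v : ℝ) = b₁ * A := by rw [hA]; push_cast; ring
  have hEpos : (0 : ℝ) < (E r u v : ℝ) := by exact_mod_cast hE0
  have hE1 : (1 : ℝ) ≤ (E r u v : ℝ) := by exact_mod_cast hE0
  have hEpos' : (0 : ℝ) < (E r u' v' : ℝ) := by exact_mod_cast hE'0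
  have hq₁R : (q₁ : ℝ) = c * a₁ + d * b₁ := by rw [hq₁]; push_cast; ring
  have hq₁a : 0 < |(q₁ : ℝ)| := abs_pos.2 (by exact_mod_cast hq₁0)
  have hBR1 : (1 : ℝ) ≤ |(B : ℝ)| := by
    rw [← Int.cast_abs]
    exact_mod_cast Int.one_le_abs hB0
  have hBRq : |(q₁ : ℝ)| * |(B : ℝ)| = δ * (E r u' v' : ℝ) := by
    have e1 : |(((a * d - b * c : ℤ) : ℝ)) * (E r u' v' : ℝ)| = |(q₁ : ℝ) * (B : ℝ)| := by
      congr 1
      exact_mod_cast hΔE
    rw [abs_mul, abs_mul, abs_of_pos hEpos'] at e1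
    rw [hδ]
    exact e1.symm
  -- the distance of q₁ / b₁ to g
  have hx' : |x - a₁ / b₁| * ((E r u v : ℝ) * RN) ≤ 1 := by
    calc |x - a₁ / b₁| * ((E r u v : ℝ) * RN) = |x - a₁ / b₁| * (E r u v : ℝ) * RN := by ring
      _ ≤ 1 := hx
  have hdist : |g - q₁ / b₁| * ((E r u v : ℝ) * RN) ≤ |(c : ℝ)| := by
    have h1 : g - q₁ / b₁ = c * (x - a₁ / b₁) := by
      rw [hgdef, hq₁R]
      field_simp
      ring
    rw [h1, abs_mul, mul_assoc]
    calc |(c : ℝ)| * (|x - a₁ / b₁| * ((E r u v : ℝ) * RN)) ≤ |(c : ℝ)| * 1 :=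
          mul_le_mul_of_nonneg_left hx' hcabs.le
      _ = _ := mul_one _
  have hdist2 : |g - q₁ / b₁| * RN ≤ |(c : ℝ)| := by
    calc |g - q₁ / b₁| * RN = |g - q₁ / b₁| * (1 * RN) := by ring
      _ ≤ |g - q₁ / b₁| * ((E r u v : ℝ) * RN) := by
        apply mul_le_mul_of_nonneg_left _ (abs_nonneg _)
        exact mul_le_mul_of_nonneg_right hE1 hRN0.le
      _ ≤ _ := hdist
  have hhalf : |g - q₁ / b₁| ≤ |g| / 2 := by
    rw [div_lt_iff₀ hga] at hsmall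
    have h1 : |g - q₁ / b₁| * RN ≤ (|g| / 2) * RN := by
      refine hdist2.trans ?_
      have h2 : (|g| / 2) * RN = RN * |g| / 2 := by ring
      rw [h2]
      linarith only [hsmall]
    exact le_of_mul_le_mul_right h1 hRN0
  have hq₁b : |g| / 2 * b₁ ≤ |(q₁ : ℝ)| := by
    have h1 : |g| ≤ |g - q₁ / b₁| + |(q₁ : ℝ) / b₁| := by
      have := abs_add_le (g - q₁ / b₁) ((q₁ : ℝ) / b₁)
      rwa [sub_add_cancel] at this
    have h2 : |g| / 2 ≤ |(q₁ : ℝ) / b₁| := by linarith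
    rw [abs_div, abs_of_pos hb₁R, le_div_iff₀ hb₁R] at h2
    exact h2
  -- powers
  have hw : (r : ℝ) ^ (u + v) = Ru * Rv := pow_add _ _ _
  have hw' : (r : ℝ) ^ (u' + v') = Ru' * Rv' := pow_add _ _ _
  have hrb' : Ru * Rv ≤ 2 * b₁ * h := by
    have e : ((r ^ (u + v) : ℕ) : ℝ) ≤ ((2 * b₁ * r ^ (t + 1) : ℕ) : ℝ) := by exact_mod_cast hrb
    push_cast at e
    rw [hw] at e
    exact e
  have hCC' : Ru' * Rv' ≤ C * (Ru * Rv) * (r : ℝ) ^ t := by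
    have e : ((r ^ (u' + v') : ℕ) : ℝ) ≤ ((C * r ^ (u + v) * r ^ t : ℕ) : ℝ) := by
      exact_mod_cast hCC
    push_cast at e
    rw [hw, hw'] at e
    exact e
  have hrt : (r : ℝ) ^ t ≤ h := pow_le_pow_right₀ hr1 (by omega)
  have hrt0 : (0 : ℝ) < (r : ℝ) ^ t := pow_pos hr0 _
  have hElt' : (E r u' v' : ℝ) ≤ Ru' * Rv' := by
    rw [hER']
    exact mul_le_mul_of_nonneg_left (sub_le_self _ zero_le_one) (by positivity)
  have hElt : (E r u v : ℝ) ≤ Ru * Rv := by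
    rw [hER]
    exact mul_le_mul_of_nonneg_left (sub_le_self _ zero_le_one) (by positivity)
  have hRuv0 : 0 < Ru * Rv := by positivity
  have hRuv0' : 0 < Ru' * Rv' := by positivity
  have hBle : |(B : ℝ)| ≤ f1 * h ^ 2 := by
    have h1 : (|g| / 2 * b₁) * |(B : ℝ)| ≤ δ * (C * (2 * b₁ * h) * h) := by
      calc (|g| / 2 * b₁) * |(B : ℝ)| ≤ |(q₁ : ℝ)| * |(B : ℝ)| :=
            mul_le_mul_of_nonneg_right hq₁b (abs_nonneg _)
        _ = δ * (E r u' v' : ℝ) := hBRq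
        _ ≤ δ * (Ru' * Rv') := mul_le_mul_of_nonneg_left hElt' hδ0.le
        _ ≤ δ * (C * (Ru * Rv) * (r : ℝ) ^ t) := mul_le_mul_of_nonneg_left hCC' hδ0.le
        _ ≤ δ * (C * (2 * b₁ * h) * h) := by
          apply mul_le_mul_of_nonneg_left _ hδ0.le
          apply mul_le_mul _ hrt hrt0.le (by positivity)
          exact mul_le_mul_of_nonneg_left hrb' hC0
    have h2 : (|g| / 2 * b₁) * |(B : ℝ)| ≤ (|g| / 2 * b₁) * (f1 * h ^ 2) := by
      calc (|g| / 2 * b₁) * |(B : ℝ)| ≤ δ * (C * (2 * b₁ * h) * h) := h1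
        _ = (|g| / 2 * b₁) * (f1 * h ^ 2) := by
          rw [hf1]
          field_simp
          ring
    exact le_of_mul_le_mul_left h2 (by positivity)
  have hh22 : 0 < h ^ 2 := by positivity
  have hKH2 : (K : ℝ) * h ^ 2 ≤ H ^ 2 := by
    rw [hHdef, mul_pow]
    apply mul_le_mul_of_nonneg_right _ hh22.le
    exact le_self_pow₀ hK1 two_ne_zero
  have hBH : |(B : ℝ)| ≤ H ^ 2 := by
    calc |(B : ℝ)| ≤ f1 * h ^ 2 := hBle
      _ ≤ K * h ^ 2 := by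
        apply mul_le_mul_of_nonneg_right _ hh22.le
        linarith
      _ ≤ _ := hKH2
  have hgBH : |g * B| ≤ H ^ 2 := by
    calc |g * B| = |g| * |(B : ℝ)| := abs_mul _ _
      _ ≤ |g| * (f1 * h ^ 2) := mul_le_mul_of_nonneg_left hBle hga.le
      _ = 4 * δ * C * h ^ 2 := by
        rw [hf1]
        field_simp
      _ ≤ K * h ^ 2 := by
        apply mul_le_mul_of_nonneg_right _ hh22.le
        linarith
      _ ≤ _ := hKH2
  have hcBH : |(c : ℝ)| * |(B : ℝ)| ≤ H ^ 2 := by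
    calc |(c : ℝ)| * |(B : ℝ)| ≤ |(c : ℝ)| * (f1 * h ^ 2) :=
          mul_le_mul_of_nonneg_left hBle hcabs.le
      _ = (|(c : ℝ)| * f1) * h ^ 2 := by ring
      _ ≤ K * h ^ 2 := by
        apply mul_le_mul_of_nonneg_right _ hh22.le
        linarith
      _ ≤ _ := hKH2
  set Z : ℤ := (a * d - b * c) * A with hZ
  have hA2 : (A : ℝ) ≤ 2 * h := by
    have h1 : (b₁ : ℝ) * A ≤ b₁ * (2 * h) := by
      calc (b₁ : ℝ) * A = (E r u v : ℝ) := hEA.symm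
        _ ≤ Ru * Rv := hElt
        _ ≤ 2 * b₁ * h := hrb'
        _ = _ := by ring
    exact le_of_mul_le_mul_left h1 hb₁R
  have hZH : |(Z : ℝ)| ≤ H := by
    have h1 : |(Z : ℝ)| = δ * A := by
      have hA0 : (0 : ℝ) ≤ (A : ℝ) := Nat.cast_nonneg A
      have e : (Z : ℝ) = ((a * d - b * c : ℤ) : ℝ) * (A : ℝ) := by
        rw [hZ]; push_cast; ring
      rw [e, abs_mul, abs_of_nonneg hA0]
    rw [h1, hHdef]
    calc δ * (A : ℝ) ≤ δ * (2 * h) := mul_le_mul_of_nonneg_left hA2 hδ0.le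
      _ = (2 * δ) * h := by ring
      _ ≤ K * h := by
        apply mul_le_mul_of_nonneg_right _ hh0.le
        linarith
  -- (*)
  have hstar : |g * B * (E r u v : ℝ) - Z * (E r u' v' : ℝ)| ≤ H ^ 2 / RN := by
    have h1 : (Z : ℝ) * (E r u' v' : ℝ) = A * (q₁ * B) := by
      have h2 : (((a * d - b * c) * (E r u' v' : ℤ) : ℤ) : ℝ) = ((q₁ * B : ℤ) : ℝ) := by
        rw [hΔE]
      push_cast at h2
      rw [hZ]
      push_cast
      linear_combination (A : ℝ) * h2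
    have h3 : g * B * (E r u v : ℝ) - Z * (E r u' v' : ℝ) =
        B * ((g - q₁ / b₁) * (E r u v : ℝ)) := by
      rw [h1, hEA]
      field_simp
    rw [h3, abs_mul, abs_mul, abs_of_pos hEpos, le_div_iff₀ hRN0]
    calc |(B : ℝ)| * (|g - q₁ / b₁| * (E r u v : ℝ)) * RN =
          |(B : ℝ)| * (|g - q₁ / b₁| * ((E r u v : ℝ) * RN)) := by ring
      _ ≤ |(B : ℝ)| * |(c : ℝ)| := mul_le_mul_of_nonneg_left hdist (abs_nonneg _)
      _ = |(c : ℝ)| * |(B : ℝ)| := mul_comm _ _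
      _ ≤ _ := hcBH
  rw [hER, hER'] at hstar
  have hH2RN : H ^ 2 / RN ≤ H ^ 2 := div_le_self (by positivity) hRN1
  -- comparison of the two powers
  have r1 : Ru * Rv ≤ H * (Ru' * Rv') := by
    have h1 : |g| / 2 * b₁ ≤ δ * (Ru' * Rv') := by
      calc |g| / 2 * b₁ ≤ |(q₁ : ℝ)| := hq₁b
        _ = |(q₁ : ℝ)| * 1 := (mul_one _).symm
        _ ≤ |(q₁ : ℝ)| * |(B : ℝ)| := mul_le_mul_of_nonneg_left hBR1 hq₁a.le
        _ = δ * (E r u' v' : ℝ) := hBRq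
        _ ≤ _ := mul_le_mul_of_nonneg_left hElt' hδ0.le
    have h2 : (b₁ : ℝ) ≤ 2 * δ / |g| * (Ru' * Rv') := by
      have h3 : (|g| / 2) * b₁ ≤ (|g| / 2) * (2 * δ / |g| * (Ru' * Rv')) := by
        calc (|g| / 2) * b₁ ≤ δ * (Ru' * Rv') := h1
          _ = _ := by field_simp
      exact le_of_mul_le_mul_left h3 (by positivity)
    calc Ru * Rv ≤ 2 * b₁ * h := hrb'
      _ ≤ 2 * (2 * δ / |g| * (Ru' * Rv')) * h := by
        apply mul_le_mul_of_nonneg_right _ hh0.le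
        linarith
      _ = (4 * δ / |g|) * h * (Ru' * Rv') := by ring
      _ ≤ K * h * (Ru' * Rv') := by
        apply mul_le_mul_of_nonneg_right _ hRuv0'.le
        apply mul_le_mul_of_nonneg_right _ hh0.le
        linarith
      _ = _ := by rw [hHdef]
  have r2 : Ru' * Rv' ≤ H * (Ru * Rv) := by
    calc Ru' * Rv' ≤ C * (Ru * Rv) * (r : ℝ) ^ t := hCC'
      _ ≤ C * (Ru * Rv) * h := mul_le_mul_of_nonneg_left hrt (by positivity)
      _ = C * h * (Ru * Rv) := by ring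
      _ ≤ K * h * (Ru * Rv) := by
        apply mul_le_mul_of_nonneg_right _ hRuv0.le
        apply mul_le_mul_of_nonneg_right _ hh0.le
        linarith
      _ = _ := by rw [hHdef]
  have hRuRN : Ru * Rv ≤ RN := by
    rw [← hw]; exact pow_le_pow_right₀ hr1 huvN
  -- the measure
  have hgH : ∀ (Q : ℕ) (R : ℤ), 0 < Q → 1 ≤ H * (|g * Q - R| * (Q : ℝ) ^ μ) := by
    intro Q R hQ
    refine le_trans (hg Q R hQ) ?_
    apply mul_le_mul_of_nonneg_right _ (by positivity)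
    rw [hHdef]
    have h2 : κ ≤ K := by linarith only [hK, t1, t2, t3, t4, hf10, hδ0, hC0]
    have h3 : (K : ℝ) * 1 ≤ K * h :=
      mul_le_mul_of_nonneg_left (by linarith only [hh2]) (by linarith only [hK1])
    linarith only [h2, h3]
  refine le_trans (main_real B Z hr hv hH1 hgH hB0 hBH hgBH hZH hstar r1 r2 hRuRN) hpows

end Pool.Agent.TWB
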