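import Pool.Agent.TWB.Stmts

/-!
# TWB, module THUE: two almost coincidences of multiples of powers contradict each other
-/

set_option autoImplicit false

open scoped BigOperators

namespace Pool.Agent.TWB

namespace THUE_

theorem abs_term (k m : ℕ) (hm : m ≤ 2 * k) (X Y B : ℤ) (hX0 : 0 ≤ X) (hXB : X ≤ B)
    (hY0 : 0 ≤ Y) (hYB : Y ≤ B) :
    |X ^ m * (-Y) ^ (2 * k - m) * ((2 * k).choose m : ℤ)| ≤
      ((2 * k).choose m : ℤ) * B ^ (2 * k) := by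
  rw [abs_mul, abs_mul, abs_pow, abs_pow, abs_neg, abs_of_nonneg hX0, abs_of_nonneg hY0,
    abs_of_nonneg (by positivity : (0 : ℤ) ≤ ((2 * k).choose m : ℤ)), mul_comm]
  refine mul_le_mul_of_nonneg_left ?_ (by positivity)
  calc X ^ m * Y ^ (2 * k - m) ≤ B ^ m * B ^ (2 * k - m) :=
        mul_le_mul (pow_le_pow_left₀ hX0 hXB m) (pow_le_pow_left₀ hY0 hYB _) (by positivity)
          (pow_nonneg (hX0.trans hXB) _)
    _ = B ^ (2 * k) := by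
        rw [← pow_add]
        congr 1
        omega

theorem sum_bound (k : ℕ) (s : Finset ℕ) (hs : s ⊆ Finset.range (2 * k + 1)) (X Y B : ℤ)
    (hX0 : 0 ≤ X) (hXB : X ≤ B) (hY0 : 0 ≤ Y) (hYB : Y ≤ B) :
    |∑ m ∈ s, X ^ m * (-Y) ^ (2 * k - m) * ((2 * k).choose m : ℤ)| ≤ 4 ^ k * B ^ (2 * k) := by
  calc |∑ m ∈ s, X ^ m * (-Y) ^ (2 * k - m) * ((2 * k).choose m : ℤ)|
      ≤ ∑ m ∈ s, |X ^ m * (-Y) ^ (2 * k - m) * ((2 * k).choose m : ℤ)| :=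
        Finset.abs_sum_le_sum_abs _ _
    _ ≤ ∑ m ∈ s, ((2 * k).choose m : ℤ) * B ^ (2 * k) := by
        refine Finset.sum_le_sum fun m hm => ?_
        have h1 := Finset.mem_range.mp (hs hm)
        exact abs_term k m (by omega) X Y B hX0 hXB hY0 hYB
    _ ≤ ∑ m ∈ Finset.range (2 * k + 1), ((2 * k).choose m : ℤ) * B ^ (2 * k) := by
        refine Finset.sum_le_sum_of_subset_of_nonneg hs fun m _ _ => ?_
        have : (0 : ℤ) ≤ B := hX0.trans hXB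
        positivity
    _ = 4 ^ k * B ^ (2 * k) := by
        rw [← Finset.sum_mul]
        have h1 := Nat.sum_range_choose (2 * k)
        have h2 : (∑ m ∈ Finset.range (2 * k + 1), ((2 * k).choose m : ℤ)) = 2 ^ (2 * k) := by
          exact_mod_cast h1
        rw [h2, pow_mul]
        norm_num

/-- The three parts of `(X - Y) ^ (2 k)`. -/
theorem split (k : ℕ) (X Y B : ℤ) (hX0 : 0 ≤ X) (hXB : X ≤ B) (hY0 : 0 ≤ Y) (hYB : Y ≤ B) :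
    ∃ h l : ℤ, (X - Y) ^ (2 * k) = X ^ (k + 1) * h +
      (-1) ^ k * ((2 * k).choose k : ℤ) * X ^ k * Y ^ k + Y ^ (k + 1) * l ∧
      |X ^ (k + 1) * h| ≤ 4 ^ k * B ^ (2 * k) ∧ |Y ^ (k + 1) * l| ≤ 4 ^ k * B ^ (2 * k) := by
  set T : ℕ → ℤ := fun m => X ^ m * (-Y) ^ (2 * k - m) * ((2 * k).choose m : ℤ) with hT
  have e0 : (X - Y) ^ (2 * k) = ∑ m ∈ Finset.range (2 * k + 1), T m := by
    rw [sub_eq_add_neg, add_pow]
  have e1 : ∑ m ∈ Finset.range (2 * k + 1), T m =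
      ∑ m ∈ Finset.range k, T m + T k + ∑ m ∈ Finset.Ico (k + 1) (2 * k + 1), T m := by
    rw [← Finset.sum_range_succ, Finset.sum_range_add_sum_Ico T (by omega)]
  have e2 : ∑ m ∈ Finset.Ico (k + 1) (2 * k + 1), T m = X ^ (k + 1) *
      ∑ m ∈ Finset.Ico (k + 1) (2 * k + 1), X ^ (m - (k + 1)) * (-Y) ^ (2 * k - m) *
        ((2 * k).choose m : ℤ) := by
    rw [Finset.mul_sum]
    refine Finset.sum_congr rfl fun m hm => ?_
    have h1 := (Finset.mem_Ico.mp hm).1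
    have h2 : X ^ m = X ^ (k + 1) * X ^ (m - (k + 1)) := by
      rw [← pow_add]
      congr 1
      omega
    show X ^ m * (-Y) ^ (2 * k - m) * ((2 * k).choose m : ℤ) = _
    rw [h2]
    ring
  have e3 : ∑ m ∈ Finset.range k, T m = Y ^ (k + 1) *
      ((-1) ^ (k + 1) * ∑ m ∈ Finset.range k, X ^ m * (-Y) ^ (k - 1 - m) *
        ((2 * k).choose m : ℤ)) := by
    rw [Finset.mul_sum, Finset.mul_sum]
    refine Finset.sum_congr rfl fun m hm => ?_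
    have h1 := Finset.mem_range.mp hm
    have h2 : (-Y) ^ (2 * k - m) = (-Y) ^ (k + 1) * (-Y) ^ (k - 1 - m) := by
      rw [← pow_add]
      congr 1
      omega
    show X ^ m * (-Y) ^ (2 * k - m) * ((2 * k).choose m : ℤ) = _
    rw [h2, neg_pow Y (k + 1)]
    ring
  have e4 : T k = (-1) ^ k * ((2 * k).choose k : ℤ) * X ^ k * Y ^ k := by
    show X ^ k * (-Y) ^ (2 * k - k) * ((2 * k).choose k : ℤ) = _
    rw [show 2 * k - k = k by omega, neg_pow Y k]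
    ring
  refine ⟨∑ m ∈ Finset.Ico (k + 1) (2 * k + 1), X ^ (m - (k + 1)) * (-Y) ^ (2 * k - m) *
        ((2 * k).choose m : ℤ), (-1) ^ (k + 1) * ∑ m ∈ Finset.range k,
        X ^ m * (-Y) ^ (k - 1 - m) * ((2 * k).choose m : ℤ), ?_, ?_, ?_⟩
  · rw [e0, e1, e2, e3, e4]
    ring
  · rw [← e2]
    refine sum_bound k _ ?_ X Y B hX0 hXB hY0 hYB
    intro m hm
    rw [Finset.mem_range]
    exact (Finset.mem_Ico.mp hm).2
  · rw [← e3]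
    refine sum_bound k _ ?_ X Y B hX0 hXB hY0 hYB
    intro m hm
    rw [Finset.mem_range] at hm ⊢
    omega

/-- The size argument. -/
theorem size (k L K R Z S : ℕ) (hK : 1 ≤ K) (hkL : k ≤ L)
    (hR : 4 ^ (L + 2) * K ^ (3 * L + 6) < R) (hZ : Z ≤ R ^ (2 * k)) (hS : R ≤ K * S) (I : ℤ)
    (hI0 : I ≠ 0) (hdvd : ((R * S : ℕ) : ℤ) ^ (k + 1) ∣ I)
    (hI : |I| ≤ (K : ℤ) ^ (2 * k + 2) * R * (Z + 4 ^ k * (R : ℤ) ^ (2 * k))) : False := by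
  have h1 : ((R * S : ℕ) : ℤ) ^ (k + 1) ≤ |I| := Int.le_of_dvd (abs_pos.mpr hI0)
    ((dvd_abs _ _).mpr hdvd)
  have h2 : ((R * S : ℕ) : ℤ) ^ (k + 1) ≤
      (K : ℤ) ^ (2 * k + 2) * R * (Z + 4 ^ k * (R : ℤ) ^ (2 * k)) := h1.trans hI
  have h3 : (R * S) ^ (k + 1) ≤ K ^ (2 * k + 2) * R * (Z + 4 ^ k * R ^ (2 * k)) := by
    exact_mod_cast h2
  have hRpos : 0 < R := lt_of_le_of_lt (Nat.zero_le _) hR
  have h4 : R ^ (2 * k + 2) ≤ K ^ (k + 1) * (R * S) ^ (k + 1) := by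
    calc R ^ (2 * k + 2) = (R * R) ^ (k + 1) := by ring
      _ ≤ (R * (K * S)) ^ (k + 1) := Nat.pow_le_pow_left (Nat.mul_le_mul_left _ hS) _
      _ = K ^ (k + 1) * (R * S) ^ (k + 1) := by ring
  have h5 : Z + 4 ^ k * R ^ (2 * k) ≤ 2 * 4 ^ k * R ^ (2 * k) := by
    have : 1 ≤ 4 ^ k := Nat.one_le_pow _ _ (by norm_num)
    nlinarith [Nat.zero_le (R ^ (2 * k))]
  have h6 : R ^ (2 * k + 2) ≤ K ^ (3 * k + 3) * R * (2 * 4 ^ k * R ^ (2 * k)) := by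
    calc R ^ (2 * k + 2) ≤ K ^ (k + 1) * (R * S) ^ (k + 1) := h4
      _ ≤ K ^ (k + 1) * (K ^ (2 * k + 2) * R * (Z + 4 ^ k * R ^ (2 * k))) :=
        Nat.mul_le_mul_left _ h3
      _ ≤ K ^ (k + 1) * (K ^ (2 * k + 2) * R * (2 * 4 ^ k * R ^ (2 * k))) :=
        Nat.mul_le_mul_left _ (Nat.mul_le_mul_left _ h5)
      _ = K ^ (3 * k + 3) * R * (2 * 4 ^ k * R ^ (2 * k)) := by ring
  have h7 : R * R ^ (2 * k + 1) ≤ (K ^ (3 * k + 3) * (2 * 4 ^ k)) * R ^ (2 * k + 1) := by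
    calc R * R ^ (2 * k + 1) = R ^ (2 * k + 2) := by ring
      _ ≤ K ^ (3 * k + 3) * R * (2 * 4 ^ k * R ^ (2 * k)) := h6
      _ = (K ^ (3 * k + 3) * (2 * 4 ^ k)) * R ^ (2 * k + 1) := by ring
  have h8 : R ≤ K ^ (3 * k + 3) * (2 * 4 ^ k) :=
    Nat.le_of_mul_le_mul_right h7 (Nat.pow_pos hRpos)
  have h9 : K ^ (3 * k + 3) * (2 * 4 ^ k) ≤ 4 ^ (L + 2) * K ^ (3 * L + 6) := by
    have a1 : K ^ (3 * k + 3) ≤ K ^ (3 * L + 6) := Nat.pow_le_pow_right hK (by omega)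
    have a2 : 2 * 4 ^ k ≤ 4 ^ (L + 2) := by
      calc 2 * 4 ^ k ≤ 4 * 4 ^ k := Nat.mul_le_mul_right _ (by norm_num)
        _ = 4 ^ (k + 1) := by ring
        _ ≤ 4 ^ (L + 2) := Nat.pow_le_pow_right (by norm_num) (by omega)
    calc K ^ (3 * k + 3) * (2 * 4 ^ k) ≤ K ^ (3 * L + 6) * 4 ^ (L + 2) := Nat.mul_le_mul a1 a2
      _ = _ := by ring
  omega

end THUE_

open THUE_ in
theorem thue_proof : Stmt_THUE := by
  intro r s L K w₁ w₂ hr hs hK h6 hL hbig hS1 hS2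
  obtain ⟨X1, Y1, v₁, hX1, hY1, dX1, dY1, ne1, xy1, yx1, bX1, bY1, rs1, sr1⟩ := hS1
  obtain ⟨X2, Y2, v₂, hX2, hY2, dX2, dY2, ne2, xy2, yx2, bX2, bY2, rs2, sr2⟩ := hS2
  set R := r ^ w₁ with hR
  have hrpos : 0 < r := by omega
  have hw1 : 0 < w₁ := by
    rcases Nat.eq_zero_or_pos w₁ with h | h
    · exfalso
      rw [hR, h, pow_zero] at hbig
      have : 0 < 4 ^ (L + 2) * K ^ (3 * L + 6) := by positivity
      omega
    · exact h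
  set k := 2 * w₂ / (3 * w₁) with hk
  have k1 : k * (3 * w₁) ≤ 2 * w₂ := Nat.div_mul_le_self _ _
  have k2 : 2 * w₂ < (k + 1) * (3 * w₁) := by
    have := Nat.lt_div_mul_add (a := 2 * w₂) (b := 3 * w₁) (by omega)
    rw [← hk] at this
    linarith
  have k4 : 4 ≤ k := by
    rw [hk, Nat.le_div_iff_mul_le (by omega)]
    omega
  have kL : k ≤ L := by
    have h1 : k * 3 * w₁ ≤ 2 * L * w₁ := by nlinarith
    have h2 : k * 3 ≤ 2 * L := Nat.le_of_mul_le_mul_right h1 hw1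
    omega
  have kw : (k + 1) * w₁ + w₁ ≤ w₂ := by nlinarith
  have hZ : r ^ w₂ ≤ R ^ (2 * k) := by
    rw [hR, ← pow_mul]
    refine Nat.pow_le_pow_right hrpos ?_
    nlinarith
  have hpow : R ^ (k + 1) = r ^ ((k + 1) * w₁) := by
    rw [hR, ← pow_mul, mul_comm]
  -- the exponents of `s`
  have hv : (k + 1) * v₁ ≤ v₂ := by
    have a1 : s ^ ((k + 1) * v₁) ≤ K ^ (k + 1) * R ^ (k + 1) := by
      calc s ^ ((k + 1) * v₁) = (s ^ v₁) ^ (k + 1) := by rw [← pow_mul, mul_comm]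
        _ ≤ (K * R) ^ (k + 1) := Nat.pow_le_pow_left sr1 _
        _ = _ := mul_pow _ _ _
    have a2 : K ^ (k + 2) * R ^ (k + 1) < r ^ w₂ := by
      have b1 : K ^ (k + 2) < R := by
        calc K ^ (k + 2) ≤ K ^ (3 * L + 6) := Nat.pow_le_pow_right hK (by omega)
          _ ≤ 4 ^ (L + 2) * K ^ (3 * L + 6) := Nat.le_mul_of_pos_left _ (by positivity)
          _ < R := hbig
      have hRk : 0 < R ^ (k + 1) := Nat.pow_pos (by rw [hR]; exact Nat.pow_pos hrpos)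
      calc K ^ (k + 2) * R ^ (k + 1) < R * R ^ (k + 1) := Nat.mul_lt_mul_of_pos_right b1 hRk
        _ = r ^ (w₁ + (k + 1) * w₁) := by rw [hpow, pow_add]
        _ ≤ r ^ w₂ := Nat.pow_le_pow_right hrpos (by omega)
    have a3 : K * s ^ ((k + 1) * v₁) < K * s ^ v₂ := by
      calc K * s ^ ((k + 1) * v₁) ≤ K * (K ^ (k + 1) * R ^ (k + 1)) := Nat.mul_le_mul_left _ a1
        _ = K ^ (k + 2) * R ^ (k + 1) := by ring
        _ < r ^ w₂ := a2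
        _ ≤ K * s ^ v₂ := rs2
    have a4 : s ^ ((k + 1) * v₁) < s ^ v₂ := Nat.lt_of_mul_lt_mul_left a3
    exact ((Nat.pow_lt_pow_iff_right (by omega)).mp a4).le
  -- the splitting
  have bX1' : (X1 : ℤ) ≤ (K * R : ℕ) := by exact_mod_cast bX1
  have bY1' : (Y1 : ℤ) ≤ (K * R : ℕ) := by exact_mod_cast bY1
  obtain ⟨h, l, hF, hH, hLw⟩ := split k (X1 : ℤ) (Y1 : ℤ) ((K * R : ℕ) : ℤ) (by positivity) bX1'
    (by positivity) bY1'
  set H : ℤ := (X1 : ℤ) ^ (k + 1) * h with hHdef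
  set Lw : ℤ := (Y1 : ℤ) ^ (k + 1) * l with hLdef
  set c : ℤ := (-1) ^ k * ((2 * k).choose k : ℤ) * (X1 : ℤ) ^ k * (Y1 : ℤ) ^ k with hc
  set F : ℤ := ((X1 : ℤ) - Y1) ^ (2 * k) with hFdef
  have hFb : |F| ≤ (K : ℤ) ^ (2 * k) := by
    rw [hFdef, abs_pow]
    refine pow_le_pow_left₀ (abs_nonneg _) ?_ _
    rw [abs_le]
    constructor
    · have : (Y1 : ℤ) ≤ X1 + K := by exact_mod_cast yx1
      linarith
    · have : (X1 : ℤ) ≤ Y1 + K := by exact_mod_cast xy1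
      linarith
  have hD : |(X2 : ℤ) - Y2| ≤ K := by
    rw [abs_le]
    constructor
    · have : (Y2 : ℤ) ≤ X2 + K := by exact_mod_cast yx2
      linarith
    · have : (X2 : ℤ) ≤ Y2 + K := by exact_mod_cast xy2
      linarith
  have hD' : |(Y2 : ℤ) - X2| ≤ K := by
    rw [abs_sub_comm]
    exact hD
  have bX2' : (X2 : ℤ) ≤ K * (r ^ w₂ : ℕ) := by exact_mod_cast bX2
  have bY2' : (Y2 : ℤ) ≤ K * (r ^ w₂ : ℕ) := by exact_mod_cast bY2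
  have pw : (((K * R : ℕ) : ℤ)) ^ (2 * k) = (K : ℤ) ^ (2 * k) * (R : ℤ) ^ (2 * k) := by
    push_cast
    ring
  -- a bound
  have bound : ∀ (A Bq : ℕ) (P Q G : ℤ), (A : ℤ) ≤ (K * R : ℕ) → (Bq : ℤ) ≤ K * (r ^ w₂ : ℕ) →
      |P| ≤ (K : ℤ) ^ (2 * k) → |Q| ≤ K → |G| ≤ 4 ^ k * (((K * R : ℕ) : ℤ)) ^ (2 * k) →
      |(A : ℤ) * (Bq * P + Q * G)| ≤ (K : ℤ) ^ (2 * k + 2) * R *
        ((r ^ w₂ : ℕ) + 4 ^ k * (R : ℤ) ^ (2 * k)) := by
    intro A Bq P Q G hA hB hP hQ hG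
    have t1 : |(Bq : ℤ) * P + Q * G| ≤ (K * (r ^ w₂ : ℕ)) * (K : ℤ) ^ (2 * k) +
        K * (4 ^ k * (((K * R : ℕ) : ℤ)) ^ (2 * k)) := by
      refine (abs_add_le _ _).trans (add_le_add ?_ ?_)
      · rw [abs_mul, abs_of_nonneg (by positivity : (0 : ℤ) ≤ (Bq : ℤ))]
        exact mul_le_mul hB hP (abs_nonneg _) (by positivity)
      · rw [abs_mul]
        exact mul_le_mul hQ hG (abs_nonneg _) (by positivity)
    rw [abs_mul, abs_of_nonneg (by positivity : (0 : ℤ) ≤ (A : ℤ))]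
    calc (A : ℤ) * |(Bq : ℤ) * P + Q * G| ≤ ((K * R : ℕ) : ℤ) *
        ((K * (r ^ w₂ : ℕ)) * (K : ℤ) ^ (2 * k) +
          K * (4 ^ k * (((K * R : ℕ) : ℤ)) ^ (2 * k))) :=
          mul_le_mul hA t1 (abs_nonneg _) (by positivity)
      _ = (K : ℤ) ^ (2 * k + 2) * R * ((r ^ w₂ : ℕ) + 4 ^ k * (R : ℤ) ^ (2 * k)) := by
          rw [pw]
          push_cast
          ring
  -- divisibility
  have hdvdX1 : ((R : ℕ) : ℤ) ∣ (X1 : ℤ) := Int.natCast_dvd_natCast.mpr dX1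
  have hdvdY1 : ((s ^ v₁ : ℕ) : ℤ) ∣ (Y1 : ℤ) := Int.natCast_dvd_natCast.mpr dY1
  have hdvdX2 : ((R : ℕ) : ℤ) ^ (k + 1) ∣ (X2 : ℤ) := by
    have h1 : R ^ (k + 1) ∣ X2 := by
      rw [hpow]
      exact (pow_dvd_pow r (by omega)).trans dX2
    exact_mod_cast h1
  have hdvdY2 : ((s ^ v₁ : ℕ) : ℤ) ^ (k + 1) ∣ (Y2 : ℤ) := by
    have h1 : (s ^ v₁) ^ (k + 1) ∣ Y2 := by
      rw [← pow_mul, mul_comm]
      exact (pow_dvd_pow s hv).trans dY2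
    exact_mod_cast h1
  have hsplit : ((R * s ^ v₁ : ℕ) : ℤ) ^ (k + 1) =
      ((R : ℕ) : ℤ) ^ (k + 1) * ((s ^ v₁ : ℕ) : ℤ) ^ (k + 1) := by
    push_cast
    ring
  have hXk : ((R : ℕ) : ℤ) ^ (k + 1) ∣ (X1 : ℤ) ^ (k + 1) := pow_dvd_pow_of_dvd hdvdX1 _
  have hYk : ((s ^ v₁ : ℕ) : ℤ) ^ (k + 1) ∣ (Y1 : ℤ) ^ (k + 1) := pow_dvd_pow_of_dvd hdvdY1 _
  have hdI : ((R * s ^ v₁ : ℕ) : ℤ) ^ (k + 1) ∣ (X1 : ℤ) * (Y2 * F + (X2 - Y2) * Lw) := by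
    have e : (X1 : ℤ) * (Y2 * F + (X2 - Y2) * Lw) =
        (X1 : ℤ) ^ (k + 1) * Y2 * (X1 * h + (-1) ^ k * ((2 * k).choose k : ℤ) *
          (Y1 : ℤ) ^ k) + X2 * (Y1 : ℤ) ^ (k + 1) * (X1 * l) := by
      rw [hF, hHdef, hLdef, hc]
      ring
    rw [e, hsplit]
    exact dvd_add (Dvd.dvd.mul_right (mul_dvd_mul hXk hdvdY2) _)
      (Dvd.dvd.mul_right (mul_dvd_mul hdvdX2 hYk) _)
  have hdJ : ((R * s ^ v₁ : ℕ) : ℤ) ^ (k + 1) ∣ (Y1 : ℤ) * (X2 * F + (Y2 - X2) * H) := by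
    have e : (Y1 : ℤ) * (X2 * F + (Y2 - X2) * H) =
        (X1 : ℤ) ^ (k + 1) * Y2 * (Y1 * h) + X2 * (Y1 : ℤ) ^ (k + 1) *
          (Y1 * l + (-1) ^ k * ((2 * k).choose k : ℤ) * (X1 : ℤ) ^ k) := by
      rw [hF, hHdef, hLdef, hc]
      ring
    rw [e, hsplit]
    exact dvd_add (Dvd.dvd.mul_right (mul_dvd_mul hXk hdvdY2) _)
      (Dvd.dvd.mul_right (mul_dvd_mul hdvdX2 hYk) _)
  have hI0 : (X1 : ℤ) * (Y2 * F + (X2 - Y2) * Lw) = 0 := by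
    by_contra hne
    exact size k L K R (r ^ w₂) (s ^ v₁) hK kL hbig hZ rs1 _ hne hdI
      (bound X1 Y2 F (X2 - Y2) Lw bX1' bY2' hFb hD hLw)
  have hJ0 : (Y1 : ℤ) * (X2 * F + (Y2 - X2) * H) = 0 := by
    by_contra hne
    exact size k L K R (r ^ w₂) (s ^ v₁) hK kL hbig hZ rs1 _ hne hdJ
      (bound Y1 X2 F (Y2 - X2) H bY1' bX2' hFb hD' hH)
  have hX1' : (X1 : ℤ) ≠ 0 := by
    have : (X1 : ℤ) > 0 := by exact_mod_cast hX1
    exact this.ne'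
  have hY1' : (Y1 : ℤ) ≠ 0 := by
    have : (Y1 : ℤ) > 0 := by exact_mod_cast hY1
    exact this.ne'
  have hI1 : (Y2 : ℤ) * F + (X2 - Y2) * Lw = 0 := by
    rcases mul_eq_zero.mp hI0 with h1 | h1
    · exact absurd h1 hX1'
    · exact h1
  have hJ1 : (X2 : ℤ) * F + (Y2 - X2) * H = 0 := by
    rcases mul_eq_zero.mp hJ0 with h1 | h1
    · exact absurd h1 hY1'
    · exact h1
  have hfin : c * ((Y2 : ℤ) - X2) = 0 := by
    have h1 : F = H + c + Lw := hF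
    have h2 : (Y2 : ℤ) * F + (X2 - Y2) * Lw - ((X2 : ℤ) * F + (Y2 - X2) * H) =
        c * ((Y2 : ℤ) - X2) := by
      rw [h1]
      ring
    rw [← h2, hI1, hJ1, sub_zero]
  have hc0 : c ≠ 0 := by
    rw [hc]
    have h1 : ((2 * k).choose k : ℤ) ≠ 0 := by
      have : 0 < (2 * k).choose k := Nat.choose_pos (by omega)
      exact_mod_cast this.ne'
    exact mul_ne_zero (mul_ne_zero (mul_ne_zero (pow_ne_zero _ (by norm_num)) h1)
      (pow_ne_zero _ hX1')) (pow_ne_zero _ hY1')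
  rcases mul_eq_zero.mp hfin with h1 | h1
  · exact hc0 h1
  · apply ne2
    have : (Y2 : ℤ) = X2 := sub_eq_zero.mp h1
    exact_mod_cast this.symm

end Pool.Agent.TWB
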