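import Pool.Agent.TWB.Stmts

/-!
# VAL: p-adic valuations (lifting the exponent) and Cramer's rule
-/

set_option autoImplicit false

namespace Pool.Agent.TWB

namespace VAL_

/-- valuations are at most the binary logarithm -/
lemma val_le_log {p : ℕ} (hp : p.Prime) (n : ℕ) : padicValNat p n ≤ Nat.log 2 n := by
  have := Fact.mk hp
  refine le_trans (padicValNat_le_nat_log n) ?_
  exact Nat.log_anti_left (by norm_num) hp.two_le

/-- monotonicity of valuations along divisibility -/
lemma val_mono {p a b : ℕ} (hp : p.Prime) (hb : b ≠ 0) (h : a ∣ b) :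
    padicValNat p a ≤ padicValNat p b := by
  have := Fact.mk hp
  have ha : a ≠ 0 := fun h0 => hb (by rw [h0] at h; exact Nat.eq_zero_of_zero_dvd h)
  rw [← padicValNat_dvd_iff_le hb]
  exact dvd_trans pow_padicValNat_dvd h

lemma one_lt_pow'' {r k : ℕ} (hr : 2 ≤ r) (hk : 1 ≤ k) : 1 < r ^ k :=
  Nat.one_lt_pow (by omega) (by omega)

/-- `v_p(r^v - 1)` grows at most like `log v` -/
lemma val_bound {p r : ℕ} (hp : p.Prime) (hr : 2 ≤ r) :
    ∃ C : ℕ, ∀ v : ℕ, 1 ≤ v → padicValNat p (r ^ v - 1) ≤ C + Nat.log 2 v := by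
  have := Fact.mk hp
  by_cases hpr : p ∣ r
  · refine ⟨0, fun v hv => ?_⟩
    have h0 : padicValNat p (r ^ v - 1) = 0 := by
      refine padicValNat.eq_zero_of_not_dvd ?_
      intro h1
      have h2 : p ∣ r ^ v := dvd_trans hpr (dvd_pow_self r (by omega))
      have h3 := one_lt_pow'' hr hv
      have h4 : p ∣ r ^ v - (r ^ v - 1) := Nat.dvd_sub h2 h1
      have h5 : r ^ v - (r ^ v - 1) = 1 := by omega
      rw [h5] at h4
      exact hp.one_lt.ne' (Nat.dvd_one.mp h4)
    omega
  · by_cases h2 : p = 2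
    · subst h2
      refine ⟨padicValNat 2 (r + 1) + padicValNat 2 (r - 1) + 1, fun v hv => ?_⟩
      have h3 := padicValNat.pow_two_sub_one (x := r) (n := 2 * v) (by omega) hpr (by omega)
        (even_two_mul v)
      have h4 : padicValNat 2 (2 * v) = 1 + padicValNat 2 v := by
        rw [padicValNat.mul (by norm_num) (by omega)]
        simp
      have h5 : padicValNat 2 (r ^ v - 1) ≤ padicValNat 2 (r ^ (2 * v) - 1) := by
        refine val_mono hp ?_ ?_
        · have := one_lt_pow'' (k := 2 * v) hr (by omega)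
          omega
        · have h6 := Nat.sub_dvd_pow_sub_pow (r ^ v) 1 2
          rw [one_pow, ← pow_mul, mul_comm v 2] at h6
          exact h6
      have h6 := val_le_log hp v
      omega
    · have hodd : Odd p := hp.odd_of_ne_two h2
      have hcop : Nat.Coprime r p := (hp.coprime_iff_not_dvd.mpr hpr).symm
      have hk : 1 ≤ Nat.totient p := Nat.totient_pos.mpr hp.pos
      have hx1 := one_lt_pow'' (k := Nat.totient p) hr hk
      have hdv : p ∣ r ^ Nat.totient p - 1 :=
        (Nat.modEq_iff_dvd' hx1.le).mp (Nat.ModEq.pow_totient hcop).symm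
      have hnx : ¬ p ∣ r ^ Nat.totient p := fun h => hpr (hp.dvd_of_dvd_pow h)
      refine ⟨padicValNat p (r ^ Nat.totient p - 1), fun v hv => ?_⟩
      have h3 := padicValNat.pow_sub_pow (x := r ^ Nat.totient p) (y := 1) hodd hx1 hdv hnx
        (n := v) (by omega)
      rw [one_pow] at h3
      have h5 : padicValNat p (r ^ v - 1) ≤ padicValNat p ((r ^ Nat.totient p) ^ v - 1) := by
        refine val_mono hp ?_ ?_
        · have := one_lt_pow'' (k := Nat.totient p * v) hr (Nat.mul_pos hk hv)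
          rw [← pow_mul]
          omega
        · have h6 := Nat.sub_dvd_pow_sub_pow (r ^ v) 1 (Nat.totient p)
          rw [one_pow, ← pow_mul, mul_comm v, pow_mul] at h6
          exact h6
      have h6 := val_le_log hp v
      omega

/-- the two primes -/
lemma exists_primes {r s : ℕ} (hr : 2 ≤ r) (hs : 2 ≤ s) (h : Indep r s) :
    ∃ p q : ℕ, p.Prime ∧ q.Prime ∧
      padicValNat p r * padicValNat q s ≠ padicValNat q r * padicValNat p s := by
  by_contra hc
  push Not at hc
  obtain ⟨q, hq, hqs⟩ := Nat.exists_prime_and_dvd (n := s) (by omega)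
  have := Fact.mk hq
  have hj : 0 < padicValNat q s := by
    have := one_le_padicValNat_of_dvd (p := q) (n := s) (by omega) hqs
    omega
  refine h (padicValNat q s) (padicValNat q r) hj ?_
  refine Nat.eq_of_factorization_eq (pow_ne_zero _ (by omega)) (pow_ne_zero _ (by omega)) ?_
  intro p
  by_cases hp : p.Prime
  · rw [Nat.factorization_pow, Nat.factorization_pow]
    simp only [Finsupp.coe_smul, Pi.smul_apply, smul_eq_mul]
    rw [Nat.factorization_def _ hp, Nat.factorization_def _ hp]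
    have := hc p q hp hq
    linarith [this, mul_comm (padicValNat p r) (padicValNat q s)]
  · rw [Nat.factorization_eq_zero_of_not_prime _ hp, Nat.factorization_eq_zero_of_not_prime _ hp]

/-- the valuation of `E` -/
lemma val_E {p r u v : ℕ} (hp : p.Prime) (hr : 2 ≤ r) (hv : 1 ≤ v) :
    padicValNat p (E r u v) = u * padicValNat p r + padicValNat p (r ^ v - 1) := by
  have := Fact.mk hp
  unfold E
  have h1 := one_lt_pow'' hr hv
  rw [padicValNat.mul (pow_ne_zero _ (by omega)) (by omega), padicValNat.pow]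

/-- Cramer's rule bound -/
lemma cramer {R S R' S' u u' e e' : ℤ} (hdet : R * S' - R' * S ≠ 0) (hu : 0 ≤ u) (hu' : 0 ≤ u')
    (h1 : u * R - u' * S = e) (h2 : u * R' - u' * S' = e') (hR : 0 ≤ R) (hS : 0 ≤ S)
    (hR' : 0 ≤ R') (hS' : 0 ≤ S') :
    u + u' ≤ |e| * (S' + R') + |e'| * (S + R) := by
  have h3 : u * (R * S' - R' * S) = e * S' - e' * S := by rw [← h1, ← h2]; ring
  have h4 : u' * (R * S' - R' * S) = e * R' - e' * R := by rw [← h1, ← h2]; ring
  have hd : 1 ≤ |R * S' - R' * S| := Int.one_le_abs hdet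
  have h5 : u ≤ |e| * S' + |e'| * S := by
    calc u = u * 1 := (mul_one u).symm
      _ ≤ u * |R * S' - R' * S| := mul_le_mul_of_nonneg_left hd hu
      _ = |u * (R * S' - R' * S)| := by rw [abs_mul, abs_of_nonneg hu]
      _ = |e * S' - e' * S| := by rw [h3]
      _ ≤ |e * S'| + |e' * S| := abs_sub _ _
      _ = _ := by rw [abs_mul, abs_mul, abs_of_nonneg hS, abs_of_nonneg hS']
  have h6 : u' ≤ |e| * R' + |e'| * R := by
    calc u' = u' * 1 := (mul_one u').symm
      _ ≤ u' * |R * S' - R' * S| := mul_le_mul_of_nonneg_left hd hu'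
      _ = |u' * (R * S' - R' * S)| := by rw [abs_mul, abs_of_nonneg hu']
      _ = |e * R' - e' * R| := by rw [h4]
      _ ≤ |e * R'| + |e' * R| := abs_sub _ _
      _ = _ := by rw [abs_mul, abs_mul, abs_of_nonneg hR, abs_of_nonneg hR']
  linarith

/-- the error term of one prime -/
lemma err {p r s : ℕ} (hp : p.Prime) (hr : 2 ≤ r) (hs : 2 ≤ s) :
    ∃ C : ℕ, ∀ A B u v u' v' : ℕ, 1 ≤ A → 1 ≤ B → 1 ≤ v → 1 ≤ v' →
      A * E s u' v' = B * E r u v →
      |(u : ℤ) * padicValNat p r - u' * padicValNat p s| ≤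
        C * (Nat.log 2 A + Nat.log 2 B + Nat.log 2 v + Nat.log 2 v' + 1 : ℕ) := by
  have := Fact.mk hp
  obtain ⟨C₁, h₁⟩ := val_bound hp hr
  obtain ⟨C₂, h₂⟩ := val_bound hp hs
  refine ⟨C₁ + C₂ + 1, fun A B u v u' v' hA hB hv hv' hE => ?_⟩
  have hE1 := E_pos (u := u) hr hv
  have hE2 := E_pos (u := u') hs hv'
  have h3 : padicValNat p A + padicValNat p (E s u' v') =
      padicValNat p B + padicValNat p (E r u v) := by
    rw [← padicValNat.mul (by omega) (by omega), ← padicValNat.mul (by omega) (by omega), hE]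
  rw [val_E hp hr hv, val_E hp hs hv'] at h3
  have h4 := h₁ v hv
  have h5 := h₂ v' hv'
  have h6 := val_le_log hp A
  have h7 := val_le_log hp B
  generalize padicValNat p (r ^ v - 1) = X at *
  generalize padicValNat p (s ^ v' - 1) = Y at *
  generalize padicValNat p A = a at *
  generalize padicValNat p B = b at *
  have h8 : (a : ℤ) + (u' * padicValNat p s + Y) = b + (u * padicValNat p r + X) := by
    exact_mod_cast h3
  generalize Nat.log 2 A = lA at *
  generalize Nat.log 2 B = lB at *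
  generalize Nat.log 2 v = lv at *
  generalize Nat.log 2 v' = lv' at *
  have h9 : lA + lB + (C₁ + lv) + (C₂ + lv') ≤ (C₁ + C₂ + 1) * (lA + lB + lv + lv' + 1) := by
    nlinarith [Nat.zero_le (C₁ * lA), Nat.zero_le (C₁ * lB), Nat.zero_le (C₁ * lv),
      Nat.zero_le (C₁ * lv'), Nat.zero_le (C₂ * lA), Nat.zero_le (C₂ * lB),
      Nat.zero_le (C₂ * lv), Nat.zero_le (C₂ * lv')]
  have h10 : ((lA + lB + (C₁ + lv) + (C₂ + lv') : ℕ) : ℤ) ≤
      ((C₁ + C₂ + 1 : ℕ) : ℤ) * ((lA + lB + lv + lv' + 1 : ℕ) : ℤ) := by exact_mod_cast h9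
  have h11 : ((lA + lB + (C₁ + lv) + (C₂ + lv') : ℕ) : ℤ) =
      lA + lB + (C₁ + lv) + (C₂ + lv') := by push_cast; ring
  rw [abs_le]
  constructor
  · have hX : (X : ℤ) ≤ C₁ + lv := by exact_mod_cast h4
    have hY : (0 : ℤ) ≤ Y := Int.natCast_nonneg _
    have ha : (0 : ℤ) ≤ a := Int.natCast_nonneg _
    have hb : (b : ℤ) ≤ lB := by exact_mod_cast h7
    have hl1 : (0 : ℤ) ≤ lA := Int.natCast_nonneg _
    have hl2 : (0 : ℤ) ≤ lv' := Int.natCast_nonneg _
    have hl3 : (0 : ℤ) ≤ C₂ := Int.natCast_nonneg _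
    linarith
  · have hY : (Y : ℤ) ≤ C₂ + lv' := by exact_mod_cast h5
    have hX : (0 : ℤ) ≤ X := Int.natCast_nonneg _
    have hb : (0 : ℤ) ≤ b := Int.natCast_nonneg _
    have ha : (a : ℤ) ≤ lA := by exact_mod_cast h6
    have hl1 : (0 : ℤ) ≤ lB := Int.natCast_nonneg _
    have hl2 : (0 : ℤ) ≤ lv := Int.natCast_nonneg _
    have hl3 : (0 : ℤ) ≤ C₁ := Int.natCast_nonneg _
    linarith

end VAL_

open VAL_ in
theorem val_proof : Stmt_VAL := by
  intro r s hr hs hind
  obtain ⟨p, q, hp, hq, hpq⟩ := exists_primes hr hs hind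
  obtain ⟨C₁, h₁⟩ := err hp hr hs
  obtain ⟨C₂, h₂⟩ := err hq hr hs
  refine ⟨C₁ * (padicValNat q s + padicValNat q r) + C₂ * (padicValNat p s + padicValNat p r),
    fun A B u v u' v' hA hB hv hv' hE => ?_⟩
  have h3 := h₁ A B u v u' v' hA hB hv hv' hE
  have h4 := h₂ A B u v u' v' hA hB hv hv' hE
  generalize Nat.log 2 A + Nat.log 2 B + Nat.log 2 v + Nat.log 2 v' + 1 = L at *
  have hdet : (padicValNat p r : ℤ) * padicValNat q s - padicValNat q r * padicValNat p s ≠ 0 := by
    intro h
    apply hpq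
    have : (padicValNat p r : ℤ) * padicValNat q s = padicValNat q r * padicValNat p s := by
      linarith
    exact_mod_cast this
  have h5 := cramer hdet (Int.natCast_nonneg u) (Int.natCast_nonneg u') rfl rfl
    (Int.natCast_nonneg _) (Int.natCast_nonneg _) (Int.natCast_nonneg _) (Int.natCast_nonneg _)
  have h6 := mul_le_mul_of_nonneg_right h3
    (show (0 : ℤ) ≤ padicValNat q s + padicValNat q r by positivity)
  have h7 := mul_le_mul_of_nonneg_right h4
    (show (0 : ℤ) ≤ padicValNat p s + padicValNat p r by positivity)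
  generalize padicValNat q s = Sq at *
  generalize padicValNat q r = Rq at *
  generalize padicValNat p s = Sp at *
  generalize padicValNat p r = Rp at *
  have h8 : ((u + u' : ℕ) : ℤ) ≤ (((C₁ * (Sq + Rq) + C₂ * (Sp + Rp)) * L : ℕ) : ℤ) := by
    push_cast
    calc (u : ℤ) + u' ≤ _ := h5
      _ ≤ _ := add_le_add h6 h7
      _ = _ := by ring
  exact_mod_cast h8

end Pool.Agent.TWB
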