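import Pool.Agent.TWB.FING
import Pool.Agent.TWB.PIG
import Pool.Agent.TWB.MH
import Pool.Agent.TWB.HYP
import Pool.Agent.TWB.MEAS
import Pool.Agent.TWB.MW
import Pool.Agent.TWB.LVL
import Pool.Agent.TWB.GOOD
import Pool.Agent.TWB.COIN
import Pool.Agent.TWB.VAL
import Pool.Agent.TWB.SOL
import Pool.Agent.TWB.THUE
import Pool.Agent.TWB.TA
import Pool.Agent.TWB.TBC

/-!
# Block complexity of `π` in two bases: main theorem
-/

set_option autoImplicit false

namespace Pool.Agent.TWB

theorem main : Stmt_FING := by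
  have hPIG := pig_proof
  have hMW := mw_proof hPIG
  have hLVL := lvl_proof hPIG
  have hGOOD := good_proof hPIG
  have hCOIN := coin_proof hPIG hLVL
  exact fing_proof (hyp_proof hPIG mh_proof) meas_proof
    (ta_proof hMW hGOOD (sol_proof hCOIN val_proof) thue_proof)
    (tbg_proof hMW hGOOD hCOIN tbc_proof)

end Pool.Agent.TWB
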