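import Pool.Agent.TWB.Kit

/-!
# Exact statements of the modules.  Recipes: /team-store/TWB.md
-/

set_option autoImplicit false

namespace Pool.Agent.TWB

open Filter

/-- PIG. -/
def Stmt_PIG : Prop :=
  ∀ (r : ℕ) (x : ℝ), 2 ≤ r → ∀ m : ℕ, W r x m ≤ blk r x m ∧
    ∃ (u v : ℕ) (P : ℤ), u + v = W r x m ∧ Near r x m u v P

/-- MH (Morse-Hedlund). -/
def Stmt_MH : Prop :=
  ∀ (r : ℕ) (x : ℝ), 2 ≤ r → Irrational x → ∀ n : ℕ, blk r x n + 1 ≤ blk r x (n + 1)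

/-- HYP. -/
def Stmt_HYP : Prop :=
  ∀ (r s : ℕ) (x y : ℝ), 2 ≤ r → 2 ≤ s → Irrational x → Irrational y → ∀ (n t : ℕ),
    blk r x n + blk s y n ≤ 2 * n + t →
      (∀ m ≤ n, W r x m ≤ m + t) ∧ (∀ m ≤ n, W s y m ≤ m + t)

/-- MEAS. -/
def Stmt_MEAS : Prop := Meas Real.pi 9

/-- MW. -/
def Stmt_MW : Prop :=
  ∀ (x : ℝ) (μ r : ℕ), 2 ≤ r → 1 ≤ μ → Meas x μ → ∃ C : ℕ, ∀ m : ℕ, m ≤ μ * W r x m + C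

/-- LVL. -/
def Stmt_LVL : Prop :=
  ∀ (r : ℕ) (x : ℝ), 2 ≤ r → ∀ (n t N : ℕ), (∀ m ≤ n, W r x m ≤ m + t) → N ≤ n →
    2 ≤ W r x N →
    ∃ (u v : ℕ) (a : ℤ) (b : ℕ), 1 ≤ v ∧ u + v = W r x N ∧ 0 < b ∧ IsCoprime a (b : ℤ) ∧
      b ∣ E r u v ∧ |x - a / b| * (E r u v : ℝ) * (r : ℝ) ^ N ≤ 1 ∧
      r ^ (W r x N) ≤ 2 * b * r ^ (t + 1)

/-- GOOD. -/
def Stmt_GOOD : Prop :=
  ∃ M₀ : ℕ, ∀ (r : ℕ) (x : ℝ), 2 ≤ r → ∀ (n t M : ℕ), (∀ m ≤ n, W r x m ≤ m + t) →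
    M₀ ≤ M → 1000 * t ≤ M → 11 * M ≤ 10 * n →
    ∃ N : ℕ, M ≤ N ∧ 10 * N ≤ 11 * M ∧ 101 * W r x N ≤ 100 * N

/-- COIN. -/
def Stmt_COIN : Prop :=
  ∀ (r s : ℕ) (x : ℝ) (a b c d : ℤ), 2 ≤ r → 2 ≤ s → Irrational x → a * d - b * c ≠ 0 →
    ∃ C : ℕ, ∀ n t N : ℕ, (∀ m ≤ n, W r x m ≤ m + t) →
      (∀ m ≤ n, W s ((a * x + b) / (c * x + d)) m ≤ m + t) → N ≤ n →
      101 * W r x N ≤ 100 * N → C * (t + 1) ≤ W r x N → C * W r x N ≤ n →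
      ∃ (u v u' v' : ℕ) (a₁ : ℤ) (b₁ : ℕ) (P' : ℤ), 1 ≤ v ∧ 1 ≤ v' ∧ u + v = W r x N ∧ 0 < b₁ ∧
        IsCoprime a₁ (b₁ : ℤ) ∧ b₁ ∣ E r u v ∧
        |x - a₁ / b₁| * (E r u v : ℝ) * (r : ℝ) ^ N ≤ 1 ∧
        r ^ (u + v) ≤ 2 * b₁ * r ^ (t + 1) ∧
        s ^ (u' + v') ≤ C * r ^ (u + v) * s ^ t ∧
        P' * (c * a₁ + d * b₁) = (E s u' v' : ℤ) * (a * a₁ + b * b₁)

/-- VAL. -/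
def Stmt_VAL : Prop :=
  ∀ r s : ℕ, 2 ≤ r → 2 ≤ s → Indep r s → ∃ C : ℕ, ∀ A B u v u' v' : ℕ, 1 ≤ A → 1 ≤ B →
    1 ≤ v → 1 ≤ v' → A * E s u' v' = B * E r u v →
    u + u' ≤ C * (Nat.log 2 A + Nat.log 2 B + Nat.log 2 v + Nat.log 2 v' + 1)

/-- SOL. -/
def Stmt_SOL : Prop :=
  ∀ (r s : ℕ) (x : ℝ) (a b d : ℤ), 2 ≤ r → 2 ≤ s → Indep r s → Irrational x → a ≠ 0 → d ≠ 0 →
    ∃ C : ℕ, ∀ n t N : ℕ, (∀ m ≤ n, W r x m ≤ m + t) →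
      (∀ m ≤ n, W s ((a * x + b) / d) m ≤ m + t) → N ≤ n →
      101 * W r x N ≤ 100 * N → C * (t + 1) ≤ W r x N → C * W r x N ≤ n →
      Sol r s (W r x N) (2 ^ (C * (t + 1)) * (W r x N) ^ C)

/-- THUE. -/
def Stmt_THUE : Prop :=
  ∀ r s L K w₁ w₂ : ℕ, 2 ≤ r → 2 ≤ s → 1 ≤ K → 6 * w₁ ≤ w₂ → w₂ ≤ L * w₁ →
    4 ^ (L + 2) * K ^ (3 * L + 6) < r ^ w₁ → Sol r s w₁ K → Sol r s w₂ K → False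

/-- TA. -/
def Stmt_TA : Prop :=
  ∀ (x : ℝ) (μ r s : ℕ) (a b d : ℤ), Irrational x → 1 ≤ μ → Meas x μ → 2 ≤ r → 2 ≤ s →
    Indep r s → a ≠ 0 → d ≠ 0 → ∃ D : ℕ, 1 ≤ D ∧ ∀ n t : ℕ, D ≤ n → D * t ≤ n →
      (∀ m ≤ n, W r x m ≤ m + t) → (∀ m ≤ n, W s ((a * x + b) / d) m ≤ m + t) → False

/-- TB. -/
def Stmt_TB : Prop :=
  ∀ (x : ℝ) (μ r : ℕ) (a b c d : ℤ), Irrational x → 1 ≤ μ → Meas x μ → 2 ≤ r → c ≠ 0 →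
    a * d - b * c ≠ 0 → ∃ D : ℕ, 1 ≤ D ∧ ∀ n t : ℕ, D ≤ n → D * t ≤ n →
      (∀ m ≤ n, W r x m ≤ m + t) → (∀ m ≤ n, W r ((a * x + b) / (c * x + d)) m ≤ m + t) → False

/-- TBC: the arithmetic contradiction behind TB. -/
def Stmt_TBC : Prop :=
  ∀ (x : ℝ) (μ r C : ℕ) (a b c d : ℤ), Irrational x → 1 ≤ μ → Meas x μ → 2 ≤ r → c ≠ 0 →
    a * d - b * c ≠ 0 → ∃ D : ℕ, ∀ (t N u v u' v' : ℕ) (a₁ : ℤ) (b₁ : ℕ) (P' : ℤ),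
      1 ≤ v → 1 ≤ v' → 0 < b₁ → IsCoprime a₁ (b₁ : ℤ) → b₁ ∣ E r u v → u + v ≤ N →
      |x - a₁ / b₁| * (E r u v : ℝ) * (r : ℝ) ^ N ≤ 1 →
      r ^ (u + v) ≤ 2 * b₁ * r ^ (t + 1) →
      r ^ (u' + v') ≤ C * r ^ (u + v) * r ^ t →
      P' * (c * a₁ + d * b₁) = (E r u' v' : ℤ) * (a * a₁ + b * b₁) →
      u + v ≤ D * (t + 1)

/-- FIN. -/
def Stmt_FIN : Prop :=
  ∀ (r s : ℕ) (a b c d : ℤ), 2 ≤ r → 2 ≤ s → a * d - b * c ≠ 0 →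
    ((c = 0 ∧ Indep r s) ∨ (c ≠ 0 ∧ r = s)) →
    ∃ δ : ℝ, 0 < δ ∧ ∀ᶠ n : ℕ in atTop,
      (2 + δ) * n ≤ blk r Real.pi n + blk s ((a * Real.pi + b) / (c * Real.pi + d)) n

end Pool.Agent.TWB
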