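import Pool.Agent.TWB.Stmts

/-!
# TB: parameter bookkeeping for Moebius images in the same base
-/

set_option autoImplicit false

namespace Pool.Agent.TWB

namespace TB_

/-- size of `n / c₀` -/
lemma size {n t c₀ Q D : ℕ} (hc : 0 < c₀) (hD : D = 2 * c₀ * Q) (h1 : D ≤ n) (h2 : D * t ≤ n) :
    Q * (t + 1) ≤ n / c₀ := by
  rw [Nat.le_div_iff_mul_le hc]
  have h3 : D * (t + 1) ≤ 2 * n := by
    rw [mul_add, mul_one]
    omega
  have h4 : D * (t + 1) = 2 * (Q * (t + 1) * c₀) := by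
    rw [hD]
    ring
  omega

end TB_

open TB_

theorem tb_proof (hMW : Stmt_MW) (hGOOD : Stmt_GOOD) (hCOIN : Stmt_COIN) (hTBC : Stmt_TBC) :
    Stmt_TB := by
  intro x μ r a b c d hx hμ hm hr hc hdet
  obtain ⟨C₁, hC₁⟩ := hMW x μ r hr hμ hm
  obtain ⟨M₀, hM₀⟩ := hGOOD
  obtain ⟨C₂, hC₂⟩ := hCOIN r r x a b c d hr hr hx hdet
  obtain ⟨D₃, hD₃⟩ := hTBC x μ r C₂ a b c d hx hμ hm hr hc hdet
  have hc0 : 0 < 2 * C₂ + 2 := by omega
  refine ⟨2 * (2 * C₂ + 2) * (M₀ + 1000 + μ * C₂ + μ * D₃ + C₁ + 2), ?_, ?_⟩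
  · exact Nat.mul_pos (by omega) (by omega)
  intro n t hn hnt h1 h2
  obtain ⟨M, hMdef⟩ : ∃ M : ℕ, M = n / (2 * C₂ + 2) := ⟨_, rfl⟩
  obtain ⟨Q, hQdef⟩ : ∃ Q : ℕ, Q = M₀ + 1000 + μ * C₂ + μ * D₃ + C₁ + 2 := ⟨_, rfl⟩
  rw [← hQdef] at hn hnt
  have hM : Q * (t + 1) ≤ M := by
    rw [hMdef]
    exact size hc0 rfl hn hnt
  have hMn : M * (2 * C₂ + 2) ≤ n := by
    rw [hMdef]
    exact Nat.div_mul_le_self _ _
  have hMn2 : 2 * M ≤ n := by nlinarith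
  have hQt : Q * (t + 1) = M₀ * (t + 1) + 1000 * (t + 1) + μ * C₂ * (t + 1) + μ * D₃ * (t + 1) +
      C₁ * (t + 1) + 2 * (t + 1) := by
    rw [hQdef]
    ring
  have hM0t : M₀ ≤ M₀ * (t + 1) := Nat.le_mul_of_pos_right _ (by omega)
  have hC1t : C₁ ≤ C₁ * (t + 1) := Nat.le_mul_of_pos_right _ (by omega)
  obtain ⟨N, hN1, hN2, hN3⟩ := hM₀ r x hr n t M h1 (by omega) (by omega) (by omega)
  have hNn : N ≤ n := by omega
  have hWN : W r x N ≤ N := by omega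
  have hNw := hC₁ N
  have hw2 : C₂ * (t + 1) ≤ W r x N := by
    have h3 : μ * (C₂ * (t + 1)) ≤ μ * W r x N := by
      rw [← mul_assoc]
      omega
    exact Nat.le_of_mul_le_mul_left h3 (by omega)
  have hw3 : D₃ * (t + 1) < W r x N := by
    have h3 : μ * (D₃ * (t + 1)) < μ * W r x N := by
      rw [← mul_assoc]
      omega
    exact Nat.lt_of_mul_lt_mul_left h3
  have hw4 : C₂ * W r x N ≤ n := by
    have h3 : C₂ * W r x N ≤ C₂ * (2 * M) := Nat.mul_le_mul_left _ (by omega)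
    have h4 : C₂ * (2 * M) ≤ M * (2 * C₂ + 2) := by nlinarith
    omega
  obtain ⟨u, v, u', v', a₁, b₁, P', k1, k2, k3, k4, k5, k6, k7, k8, k9, k10⟩ :=
    hC₂ n t N h1 h2 hNn hN3 hw2 hw4
  have hfin := hD₃ t N u v u' v' a₁ b₁ P' k1 k2 k4 k5 k6 (by omega) k7 k8 k9 k10
  omega

end Pool.Agent.TWB
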